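import Pool.Agent.Lib.MP_1a91b9_ntQG.D0
import Pool.Agent.Lib.MP_1a91b9_ntDF.C0a

/-!
# MP_1a91b9_nt (the abelian extensions of exponent four by the discriminant): the box
-/

set_option autoImplicit false

namespace Pool.Agent.Lib.MP_1a91b9_ntQG

open NumberField
open Pool.Agent.Lib.MP_1a91b9_ntDF (c0_rad)
open Pool.Agent.Lib.MP_1a91b9_ntQD (nr)

private theorem C0_nr_le {K : Type} [Field K] [NumberField K] {x A : 𝓞 K} (hA : A ≠ 0) (h : x ∣ A) : nr x ≤ nr A := by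
  obtain ⟨c, rfl⟩ := h
  have hc : c ≠ 0 := right_ne_zero_of_mul hA
  have h1 : Algebra.norm ℤ c ≠ 0 := Algebra.norm_ne_zero_iff.2 hc
  have h2 : (1 : ℤ) ≤ |Algebra.norm ℤ c| := Int.one_le_abs h1
  have h3 : |Algebra.norm ℤ x| ≤ |Algebra.norm ℤ (x * c)| := by
    rw [map_mul, abs_mul]
    exact le_mul_of_one_le_right (abs_nonneg _) h2
  unfold nr
  exact_mod_cast h3

/-- **C0** (easy+). The box is finite, empty for `Z < 1`, it grows with `Z`, and the common multiple can be taken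
squarefree (`c0_rad`, and the norm of a divisor is smaller). -/
theorem box_mono {K : Type} [Field K] [NumberField K] {n : ℕ} {Z Z' : ℝ} (h : Z ≤ Z') : Box K n Z ⊆ Box K n Z' := by
  rintro b ⟨hs, A, hA, hn, hd⟩
  exact ⟨hs, A, hA, hn.trans h, hd⟩

theorem box_fin {K : Type} [Field K] [NumberField K] [Finite (𝓞 K)ˣ]
    (hfin : ∀ Z : ℝ, {x : 𝓞 K | x ≠ 0 ∧ nr x ≤ Z}.Finite) (n : ℕ) (Z : ℝ) : (Box K n Z).Finite := by
  refine (Set.Finite.pi (t := fun _ : Fin n => {x : 𝓞 K | x ≠ 0 ∧ nr x ≤ Z}) fun _ => hfin Z).subset ?_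
  rintro b ⟨hs, A, hA, hn, hd⟩
  rw [Set.mem_pi]
  intro i _
  exact ⟨(hs i).ne_zero, (C0_nr_le hA (hd i)).trans hn⟩

theorem box_sqf {K : Type} [Field K] [NumberField K] [IsPrincipalIdealRing (𝓞 K)] (n : ℕ) (Z : ℝ) :
    Box K n Z = {b | (∀ k, Squarefree (b k)) ∧ ∃ A : 𝓞 K, Squarefree A ∧ nr A ≤ Z ∧ ∀ k, b k ∣ A} := by
  ext b
  constructor
  · rintro ⟨hs, A, hA, hn, hd⟩
    obtain ⟨B, hB, hq⟩ := c0_rad A hA
    refine ⟨hs, B, hB, ?_, ?_⟩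
    · exact (C0_nr_le hA (Pool.Agent.Lib.MP_1a91b9_ntDF.c0_sq hB fun q hq1 hq2 => (hq q hq1).1 hq2)).trans hn
    · intro k
      exact Pool.Agent.Lib.MP_1a91b9_ntDF.c0_sq (hs k) fun q hq1 hq2 => (hq q hq1).2 (hq2.trans (hd k))
  · rintro ⟨hs, A, hA, hn, hd⟩
    exact ⟨hs, A, hA.ne_zero, hn, hd⟩

/-- `(1, .., 1)` is in the box for `1 ≤ Z`. -/
theorem box_pos {K : Type} [Field K] [NumberField K] [Finite (𝓞 K)ˣ]
    (hfin : ∀ Z : ℝ, {x : 𝓞 K | x ≠ 0 ∧ nr x ≤ Z}.Finite) (n : ℕ) {Z : ℝ} (hZ : 1 ≤ Z) :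
    0 < Nat.card (Box K n Z) := by
  have h1 : (fun _ => 1 : Fin n → 𝓞 K) ∈ Box K n Z := by
    refine ⟨fun _ => squarefree_one, 1, one_ne_zero, ?_, fun _ => dvd_rfl⟩
    unfold nr
    rw [map_one, abs_one, Int.cast_one]
    exact hZ
  have h2 : Finite (Box K n Z) := (box_fin hfin n Z).to_subtype
  have h3 : Nonempty (Box K n Z) := ⟨⟨_, h1⟩⟩
  exact Nat.card_pos

end Pool.Agent.Lib.MP_1a91b9_ntQG
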