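import Pool.Agent.Lib.MP_1a91b9_ntQG.C0
import Pool.Agent.Lib.MP_1a91b9_ntQD.C1
import Pool.Agent.Lib.MP_1a91b9_ntRC.RC4

/-!
# MP_1a91b9_nt (the abelian extensions of exponent four by the discriminant): the growth of the box
-/

set_option autoImplicit false

namespace Pool.Agent.Lib.MP_1a91b9_ntQG

open NumberField
open Pool.Agent.Lib.MP_1a91b9_ntQD (nr)

private theorem C1_box (K : Type) [Field K] [NumberField K] [IsPrincipalIdealRing (𝓞 K)] (n : ℕ) (Z : ℝ) :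
    Box K n Z = Pool.Agent.Lib.MP_1a91b9_ntRC.Tp K n Z :=
  (Pool.Agent.Lib.MP_1a91b9_ntRC.Tp_eq n Z).symm

/-- **C1** (helper97). **The growth of the box.** -/
theorem box_cmp {K : Type} [Field K] [NumberField K] [IsPrincipalIdealRing (𝓞 K)] [Finite (𝓞 K)ˣ]
    (hK : Module.finrank ℚ K = 2) {i : K} (hi : i ^ 2 = -1) {n : ℕ} (hn : 0 < n) :
    (∃ C : ℝ, 0 < C ∧ ∀ Z s : ℝ, 1 ≤ s →
      (Nat.card (Box K n (Z / s)) : ℝ) ≤ C / s * (Nat.card (Box K n Z) : ℝ)) ∧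
    ∀ s : ℝ, 1 ≤ s → ∃ C : ℝ, 0 < C ∧ ∀ᶠ Z : ℝ in Filter.atTop,
      (Nat.card (Box K n Z) : ℝ) ≤ C * (Nat.card (Box K n (Z / s)) : ℝ) := by
  simp only [C1_box]
  exact ⟨Pool.Agent.Lib.MP_1a91b9_ntRC.r_cmp K hn,
    fun s hs => Pool.Agent.Lib.MP_1a91b9_ntRC.r_dbl K n s hs⟩

end Pool.Agent.Lib.MP_1a91b9_ntQG
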