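import Pool.Agent.Lib.MP_1a91b9_ntQG.D0

/-!
# MP_1a91b9_nt (the abelian extensions of exponent four by the discriminant): dominated convergence
-/

set_option autoImplicit false

namespace Pool.Agent.Lib.MP_1a91b9_ntQG

open NumberField

/-- **C2** (medium-, Mathlib only). Dominated convergence. Proof: `tendsto_tsum_of_dominated_convergence` for the
functions `f j (Y / s j) / R Y ≤ C / s j` (`R Y > 0` for large `Y`), which tend to `0` for `Y → ∞`:
`f j (Y / s j) ≤ ε R (Y / s j) ≤ ε R Y` for large `Y`. -/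
theorem dom_conv {ι : Type} (s : ι → ℝ) (hs : ∀ j, 1 ≤ s j) (hsum : Summable fun j => (s j)⁻¹) (R : ℝ → ℝ)
    (hR0 : ∀ Z, 0 ≤ R Z) (hR1 : ∀ᶠ Z : ℝ in Filter.atTop, 0 < R Z) (hmono : Monotone R) (C : ℝ)
    (hR : ∀ Z t : ℝ, 1 ≤ t → R (Z / t) ≤ C / t * R Z) (f : ι → ℝ → ℝ) (h0 : ∀ j Z, 0 ≤ f j Z)
    (h1 : ∀ j Z, f j Z ≤ R Z) (h2 : ∀ j, ∀ ε : ℝ, 0 < ε → ∀ᶠ Z : ℝ in Filter.atTop, f j Z ≤ ε * R Z)
    (ε : ℝ) (hε : 0 < ε) :
    ∀ᶠ Y : ℝ in Filter.atTop, (Summable fun j => f j (Y / s j)) ∧ ∑' j, f j (Y / s j) ≤ ε * R Y := by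
  have hterm : ∀ (j : ι) (Y : ℝ), f j (Y / s j) ≤ C * (s j)⁻¹ * R Y := by
    intro j Y
    refine (h1 j _).trans ((hR Y (s j) (hs j)).trans (le_of_eq ?_))
    rw [div_eq_mul_inv]
  have hsm : ∀ Y : ℝ, Summable fun j => f j (Y / s j) := by
    intro Y
    refine Summable.of_nonneg_of_le (fun j => h0 j _) (fun j => hterm j Y) ?_
    exact (hsum.mul_left C).mul_right (R Y)
  have hlim : Filter.Tendsto (fun Y : ℝ => ∑' j, f j (Y / s j) / R Y) Filter.atTop (nhds (∑' _ : ι, (0 : ℝ))) := by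
    refine tendsto_tsum_of_dominated_convergence (bound := fun j => C * (s j)⁻¹) (hsum.mul_left C) ?_ ?_
    · intro j
      rw [Metric.tendsto_nhds]
      intro δ hδ
      have hj0 : 0 < s j := lt_of_lt_of_le one_pos (hs j)
      have ht : Filter.Tendsto (fun Y : ℝ => Y / s j) Filter.atTop Filter.atTop :=
        Filter.tendsto_id.atTop_div_const hj0
      filter_upwards [ht.eventually (h2 j (δ / 2) (half_pos hδ)), hR1, Filter.eventually_ge_atTop (0 : ℝ)]
        with Y hY hRY hY0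
      have h3 : R (Y / s j) ≤ R Y := hmono (div_le_self hY0 (hs j))
      have h4 : f j (Y / s j) ≤ δ / 2 * R Y :=
        hY.trans (mul_le_mul_of_nonneg_left h3 (half_pos hδ).le)
      rw [Real.dist_eq, sub_zero, abs_of_nonneg (div_nonneg (h0 j _) hRY.le)]
      refine lt_of_le_of_lt ((div_le_iff₀ hRY).2 h4) ?_
      linarith
    · filter_upwards [hR1] with Y hRY j
      rw [Real.norm_eq_abs, abs_of_nonneg (div_nonneg (h0 j _) hRY.le)]
      exact (div_le_iff₀ hRY).2 (hterm j Y)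
  rw [tsum_zero] at hlim
  filter_upwards [hlim.eventually (gt_mem_nhds hε), hR1] with Y hY hRY
  refine ⟨hsm Y, ?_⟩
  have h3 : ∑' j, f j (Y / s j) / R Y = (∑' j, f j (Y / s j)) / R Y := tsum_div_const
  rw [h3, div_lt_iff₀ hRY] at hY
  exact hY.le

end Pool.Agent.Lib.MP_1a91b9_ntQG
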