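import Pool.Agent.Lib.MP_1a91b9_ntQG.D0
import Pool.Agent.Lib.MP_1a91b9_ntQD.C3

/-!
# MP_1a91b9_nt (the abelian extensions of exponent four by the discriminant): the sum over the parameters
-/

set_option autoImplicit false

namespace Pool.Agent.Lib.MP_1a91b9_ntQG

open NumberField
open Pool.Agent.Lib.MP_1a91b9_ntQD (nr sum_nr)

private theorem C3_nr {K : Type} [Field K] [NumberField K] (x : 𝓞 K) : 0 ≤ nr x := by
  unfold nr
  positivity

/-- **C3a** (medium-). The sum over the functions of a product. Proof: induction over `Fintype.card V`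
(`Fintype.induction_empty_option` or `Fin`), `Summable.mul_of_nonneg`, `Equiv.summable_iff`. -/
theorem summable_pi {V X : Type} [Fintype V] {a : X → ℝ} (ha : ∀ x, 0 ≤ a x) (hs : Summable a) :
    Summable fun f : V → X => ∏ v, a (f v) := by
  classical
  refine summable_of_sum_le (c := ∏ _v : V, ∑' x, a x) (fun f => Finset.prod_nonneg fun v _ => ha _) fun u => ?_
  calc ∑ f ∈ u, ∏ v, a (f v) ≤ ∑ f ∈ Fintype.piFinset (fun v => u.image fun f => f v), ∏ v, a (f v) := by
        refine Finset.sum_le_sum_of_subset_of_nonneg (fun f hf => ?_) fun f _ _ =>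
          Finset.prod_nonneg fun v _ => ha _
        rw [Fintype.mem_piFinset]
        intro v
        exact Finset.mem_image_of_mem (fun f : V → X => f v) hf
    _ = ∏ v, ∑ x ∈ u.image (fun f => f v), a x := by
        rw [Finset.prod_univ_sum]
    _ ≤ ∏ _v : V, ∑' x, a x := by
        refine Finset.prod_le_prod (fun v _ => Finset.sum_nonneg fun x _ => ha x) fun v _ => ?_
        exact hs.sum_le_tsum _ fun x _ => ha x

/-- **C3** (easy+). The sum over the parameters (`summable_pi`, `sum_nr`; the units are finite: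
`Summable.mul_of_nonneg` with the constant function on a finite type, `summable_of_finite_support`). -/
theorem sum_ss {K : Type} [Field K] [NumberField K] [Finite (𝓞 K)ˣ] (hK : Module.finrank ℚ K = 2) {i : K}
    (hi : i ^ 2 = -1) (n : ℕ) : Summable fun j : Ix K n => (ss j)⁻¹ := by
  have h1 : Summable fun f : Vo n → {x : 𝓞 K // x ≠ 0} => ∏ v, (nr (f v : 𝓞 K) ^ (3 / 2 : ℝ))⁻¹ := by
    refine summable_pi (a := fun x : {x : 𝓞 K // x ≠ 0} => (nr x.1 ^ (3 / 2 : ℝ))⁻¹) (fun x => ?_) (sum_nr hK hi)
    exact inv_nonneg.2 (Real.rpow_nonneg (C3_nr x.1) _)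
  have h2 : Summable fun _ : Fin n → (𝓞 K)ˣ => (1 : ℝ) := summable_of_hasFiniteSupport (Set.toFinite _)
  have h3 := Summable.mul_of_nonneg h2 h1 (fun _ => zero_le_one) (fun f => Finset.prod_nonneg fun v _ =>
    inv_nonneg.2 (Real.rpow_nonneg (C3_nr _) _))
  refine h3.congr fun j => ?_
  rw [one_mul, ss, Finset.prod_inv_distrib]

end Pool.Agent.Lib.MP_1a91b9_ntQG
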