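import Pool.Agent.Lib.MP_1a91b9_ntQG.C0

/-!
# MP_1a91b9_nt (the abelian extensions of exponent four by the discriminant): the tuples prime to the given primes
-/

set_option autoImplicit false

namespace Pool.Agent.Lib.MP_1a91b9_ntQG

open NumberField
open Pool.Agent.Lib.MP_1a91b9_ntQD (nr)

private lemma C4_prod {R : Type} [CommRing R] [IsDomain R] {n : ℕ} {π : Fin n → R} (hπ : ∀ k, Prime (π k))
    (hne : ∀ k k', k ≠ k' → ¬ Associated (π k) (π k')) (b : R) (s : Finset (Fin n)) (h : ∀ l ∈ s, π l ∣ b) :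
    ∏ l ∈ s, π l ∣ b := by
  classical
  induction s using Finset.induction_on with
  | empty => simp
  | insert a s ha ih =>
    obtain ⟨c, hc⟩ := ih (fun l hl => h l (Finset.mem_insert_of_mem hl))
    have h1 : π a ∣ (∏ l ∈ s, π l) * c := by
      rw [← hc]
      exact h a (Finset.mem_insert_self a s)
    have h2 : π a ∣ c := by
      rcases (hπ a).dvd_or_dvd h1 with h3 | h3
      · exfalso
        obtain ⟨l, hl, h4⟩ := (Prime.dvd_finsetProd_iff (hπ a) _).1 h3
        refine hne a l ?_ ((hπ a).associated_of_dvd (hπ l) h4)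
        rintro rfl
        exact ha hl
      · exact h3
    obtain ⟨d, hd⟩ := h2
    refine ⟨d, ?_⟩
    rw [Finset.prod_insert ha, hc, hd]
    ring

/-- **C4** (medium-). Proof: every `b_k` squarefree is uniquely `b'_k ∏_(l ∈ J_k) π_l` with `π_l ∤ b'_k` for all `l`
(`J_k` the set of the `l` with `π_l ∣ b_k`); `b ↦ (b', J)` is injective into (the set on the right) `×` (functions
`Fin n → Finset (Fin n)`); `b'` is in the box. `C = (2 ^ n) ^ n`. -/
theorem box_cop {K : Type} [Field K] [NumberField K] [IsPrincipalIdealRing (𝓞 K)] [Finite (𝓞 K)ˣ]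
    (hfin : ∀ Z : ℝ, {x : 𝓞 K | x ≠ 0 ∧ nr x ≤ Z}.Finite) {n : ℕ} {π : Fin n → 𝓞 K} (hπ : ∀ k, Prime (π k))
    (hne : ∀ k k', k ≠ k' → ¬ Associated (π k) (π k')) :
    ∃ C : ℝ, 0 < C ∧ ∀ Z : ℝ,
      (Nat.card (Box K n Z) : ℝ) ≤ C * (Nat.card {b : Fin n → 𝓞 K // b ∈ Box K n Z ∧ Cop π b} : ℝ) := by
  classical
  have hex : ∀ x : 𝓞 K, ∃ y : 𝓞 K, x = y * ∏ l ∈ Finset.univ.filter (fun l => π l ∣ x), π l := by
    intro x
    obtain ⟨c, hc⟩ := C4_prod hπ hne x (Finset.univ.filter (fun l => π l ∣ x)) (fun l hl => (Finset.mem_filter.1 hl).2)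
    exact ⟨c, by rw [mul_comm]; exact hc⟩
  choose g hg using hex
  have hdvd : ∀ x : 𝓞 K, g x ∣ x := fun x => ⟨_, hg x⟩
  have hcop : ∀ x : 𝓞 K, Squarefree x → ∀ l, ¬ π l ∣ g x := by
    intro x hx l hl
    have h1 : l ∈ Finset.univ.filter (fun l => π l ∣ x) :=
      Finset.mem_filter.2 ⟨Finset.mem_univ _, hl.trans (hdvd x)⟩
    have h2 : π l ∣ ∏ l ∈ Finset.univ.filter (fun l => π l ∣ x), π l := Finset.dvd_prod_of_mem _ h1
    have h3 : π l * π l ∣ x := by
      have h4 := mul_dvd_mul hl h2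
      rw [← hg x] at h4
      exact h4
    exact (hπ l).not_isUnit (hx _ h3)
  refine ⟨(Nat.card (Fin n → Finset (Fin n)) : ℝ), by exact_mod_cast Nat.card_pos, fun Z => ?_⟩
  have hF : (Box K n Z).Finite := box_fin hfin n Z
  have : Finite {b : Fin n → 𝓞 K // b ∈ Box K n Z ∧ Cop π b} :=
    (hF.subset (fun b (hb : b ∈ Box K n Z ∧ Cop π b) => hb.1)).to_subtype
  have hmem : ∀ b : Box K n Z, (fun k => g (b.1 k)) ∈ Box K n Z ∧ Cop π (fun k => g (b.1 k)) := by
    rintro ⟨b, hb1, A, hA0, hA1, hA2⟩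
    exact ⟨⟨fun k => (hb1 k).squarefree_of_dvd (hdvd _), A, hA0, hA1, fun k => (hdvd _).trans (hA2 k)⟩,
      fun l k => hcop _ (hb1 k) l⟩
  have hinj : Function.Injective (fun b : Box K n Z =>
      ((fun k => Finset.univ.filter (fun l => π l ∣ b.1 k),
        (⟨fun k => g (b.1 k), hmem b⟩ : {b : Fin n → 𝓞 K // b ∈ Box K n Z ∧ Cop π b})) :
        (Fin n → Finset (Fin n)) × {b : Fin n → 𝓞 K // b ∈ Box K n Z ∧ Cop π b})) := by
    intro b c h
    have h1 := (Prod.ext_iff.1 h).1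
    have h2 := congrArg Subtype.val (Prod.ext_iff.1 h).2
    apply Subtype.ext
    funext k
    have e1 : Finset.univ.filter (fun l => π l ∣ b.1 k) = Finset.univ.filter (fun l => π l ∣ c.1 k) := congrFun h1 k
    have e2 : g (b.1 k) = g (c.1 k) := congrFun h2 k
    rw [hg (b.1 k), hg (c.1 k), e2, e1]
  have hc := Nat.card_le_card_of_injective _ hinj
  rw [Nat.card_prod] at hc
  exact_mod_cast hc

end Pool.Agent.Lib.MP_1a91b9_ntQG
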