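import Pool.Agent.Lib.MP_1a91b9_ntQG.K5

/-!
# MP_1a91b9_nt (the abelian extensions of exponent four by the discriminant): the fibres
-/

set_option autoImplicit false

namespace Pool.Agent.Lib.MP_1a91b9_ntQG

open NumberField
open Pool.Agent.Lib.MP_1a91b9_ntDF (NK Kum)

private theorem C5_assoc {K : Type} [Field K] [NumberField K]
    [IsPrincipalIdealRing (𝓞 K)] {b b' : 𝓞 K} (hb : Squarefree b) (hb' : Squarefree b')
    (y : K) (h : (b : K) = y ^ 2 * (b' : K)) : Associated b b' := by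
  obtain ⟨m, n, hmn, hy⟩ := IsFractionRing.exists_reduced_fraction (A := 𝓞 K) y
  have hn0 : ((n : 𝓞 K) : K) ≠ 0 := by
    have h1 : (n : 𝓞 K) ≠ 0 := nonZeroDivisors.ne_zero n.2
    exact fun h2 => h1 (RingOfIntegers.coe_eq_zero_iff.mp h2)
  have hy' : y = (m : K) / ((n : 𝓞 K) : K) := by
    rw [← hy, IsFractionRing.mk'_eq_div]
  have h1 : (n : 𝓞 K) ^ 2 * b = m ^ 2 * b' := by
    apply RingOfIntegers.coe_injective
    simp only [map_mul, map_pow]
    change ((n : 𝓞 K) : K) ^ 2 * (b : K) = (m : K) ^ 2 * (b' : K)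
    rw [h, hy']
    field_simp
  have hrel : IsRelPrime (m ^ 2) ((n : 𝓞 K) ^ 2) := IsRelPrime.pow hmn
  have hm : IsUnit m := by
    refine hb m ?_
    rw [← pow_two]
    refine hrel.dvd_of_dvd_mul_left ?_
    rw [h1]
    exact ⟨b', rfl⟩
  have hn : IsUnit (n : 𝓞 K) := by
    refine hb' (n : 𝓞 K) ?_
    rw [← pow_two]
    have h2 : (n : 𝓞 K) ^ 2 ∣ m ^ 2 * b' := ⟨b, h1.symm⟩
    exact (IsUnit.dvd_mul_left (hm.pow 2)).mp h2
  obtain ⟨v, hv⟩ := hn.pow 2
  obtain ⟨v', hv'⟩ := hm.pow 2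
  refine ⟨v * v'⁻¹, ?_⟩
  have h3 : b * v = b' * v' := by rw [hv, hv']; linear_combination h1
  rw [Units.val_mul, ← mul_assoc, h3, Units.mul_inv_cancel_right]

private theorem C5_root {K N : Type} [Field K] [Field N] [Algebra K N] {i : K} (hi : i ^ 2 = -1)
    {y y' : N} (h : y' ^ 4 = y ^ 4) : ∃ c : Fin 4, y' = algebraMap K N i ^ c.val * y := by
  have hi2 : (algebraMap K N i) ^ 2 = -1 := by rw [← map_pow, hi, map_neg, map_one]
  have h1 : (y' - y) * (y' + y) * ((y' - algebraMap K N i * y) *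
      (y' + algebraMap K N i * y)) = 0 := by
    linear_combination h - (y' ^ 2 - y ^ 2) * y ^ 2 * hi2
  rcases mul_eq_zero.mp h1 with h2 | h2
  · rcases mul_eq_zero.mp h2 with h3 | h3
    · exact ⟨0, by
        change y' = algebraMap K N i ^ 0 * y
        linear_combination h3⟩
    · exact ⟨2, by
        change y' = algebraMap K N i ^ 2 * y
        linear_combination h3 - y * hi2⟩
  · rcases mul_eq_zero.mp h2 with h3 | h3
    · exact ⟨1, by
        change y' = algebraMap K N i ^ 1 * y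
        linear_combination h3⟩
    · exact ⟨3, by
        change y' = algebraMap K N i ^ 3 * y
        linear_combination h3 - y * algebraMap K N i * hi2⟩

private theorem C5_same {K : Type} [Field K] [NumberField K] [IsPrincipalIdealRing (𝓞 K)] {i : K}
    (hi : i ^ 2 = -1) {N : Type} [Field N] [Algebra K N] [FiniteDimensional K N] [IsGalois K N]
    {c : (N ≃ₐ[K] N) → Fin 4} {b b' : 𝓞 K} (hb : Squarefree b) (hb' : Squarefree b') {a : K} (ha : a ≠ 0)
    {y y' : N} (hy : y ^ 4 = algebraMap K N (a * (b : K) ^ 2))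
    (hy' : y' ^ 4 = algebraMap K N (a * (b' : K) ^ 2))
    (hc : ∀ σ, σ y = algebraMap K N i ^ (c σ).val * y)
    (hc' : ∀ σ, σ y' = algebraMap K N i ^ (c σ).val * y') : Associated b b' := by
  have hb0 : (b : K) ≠ 0 := fun h2 => hb.ne_zero (RingOfIntegers.coe_eq_zero_iff.mp h2)
  have hb0' : (b' : K) ≠ 0 := fun h2 => hb'.ne_zero (RingOfIntegers.coe_eq_zero_iff.mp h2)
  have hi0 : i ≠ 0 := by
    rintro rfl
    norm_num at hi
  have hiN : algebraMap K N i ≠ 0 := (map_ne_zero _).mpr hi0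
  have hy0' : y' ≠ 0 := by
    rintro rfl
    have h1 : algebraMap K N (a * (b' : K) ^ 2) = 0 := by
      rw [← hy']
      ring
    exact mul_ne_zero ha (pow_ne_zero 2 hb0') ((map_eq_zero _).mp h1)
  have hfix : ∀ σ : N ≃ₐ[K] N, σ (y / y') = y / y' := by
    intro σ
    rw [map_div₀, hc, hc', mul_div_mul_left _ _ (pow_ne_zero _ hiN)]
  obtain ⟨t, ht⟩ := (IsGalois.mem_range_algebraMap_iff_fixed (y / y')).mpr hfix
  have h1 : y = algebraMap K N t * y' := by
    rw [ht]
    field_simp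
  have h2 : a * (b : K) ^ 2 = t ^ 4 * (a * (b' : K) ^ 2) := by
    apply (algebraMap K N).injective
    rw [← hy, h1, mul_pow, hy', map_mul (algebraMap K N) (t ^ 4), map_pow]
  have h3 : ((b : K) - t ^ 2 * (b' : K)) * ((b : K) + t ^ 2 * (b' : K)) = 0 := by
    apply mul_left_cancel₀ ha
    linear_combination h2
  rcases mul_eq_zero.mp h3 with h4 | h4
  · exact C5_assoc hb hb' t (by linear_combination h4)
  · exact C5_assoc hb hb' (i * t) (by linear_combination h4 - t ^ 2 * (b' : K) * hi)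

private theorem C5_sp {K : Type} [Field K] {n : ℕ} (m : Fin n → ℕ) {π : Fin n → 𝓞 K}
    (hπ : ∀ k, π k ≠ 0) (k : Fin n) :
    ∃ a : K, a ≠ 0 ∧ ∀ b : Fin n → 𝓞 K, sp m π b k = a * (b k : K) ^ 2 := by
  have h1 : (π k : K) ≠ 0 := fun h2 => hπ k (RingOfIntegers.coe_eq_zero_iff.mp h2)
  by_cases h : m k = 4
  · exact ⟨(π k : K), h1, fun b => by simp only [sp, if_pos h]⟩
  · exact ⟨(π k : K) ^ 2, pow_ne_zero 2 h1, fun b => by simp only [sp, if_neg h]⟩

private theorem C5_get {K : Type} [Field K] [NumberField K] {i : K} (hi : i ^ 2 = -1) {n : ℕ}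
    {w : Fin n → K} (hw : ∀ k, w k ≠ 0) {N : IntermediateField K (AlgebraicClosure K)} (h : NK 4 w = N) :
    FiniteDimensional K N ∧ ∃ y : Fin n → N, ∀ k, y k ^ 4 = algebraMap K N (w k) := by
  subst h
  obtain ⟨h1, _, y, hy⟩ := nk4_kum hi hw
  exact ⟨h1, y, hy.pow⟩

/-- **C5** (medium). **A field comes from boundedly many tuples of the special family.** Proof: `N` in `Ext K (Gm m)`,
`Γ = Gal(N/K)` of order `∏ m_k`. For a tuple `b` with `NK 4 (sp m π b) = N` choose fourth roots `y_k` of the radicands in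
`N` (`nk4_kum`) and let `f_b(σ)_k = σ(y_k) / y_k` in `{1, i, -1, -i}`. If `f_b = f_b'` then `y_k / y'_k` is fixed by `Γ`, so in `K`, and
`(b_k / b'_k)² = (y_k / y'_k)⁴`, `b_k / b'_k = ± z²` with `z` in `K`, also `-z² = (i z)²`; `b_k`, `b'_k` squarefree: they are associated
(compare `q4_fib` of `ntQD/K6.lean`, last step). So the number of the `b` is at most `(4 ^ (∏ m_k)) ^ n #(𝓞 K)ˣ ^ n`. -/
theorem fib_sp {K : Type} [Field K] [NumberField K] [IsPrincipalIdealRing (𝓞 K)] [Finite (𝓞 K)ˣ] {i : K}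
    (hi : i ^ 2 = -1) {n : ℕ} {m : Fin n → ℕ} (hm : ∀ k, m k = 2 ∨ m k = 4) {π : Fin n → 𝓞 K}
    (hπ : ∀ k, π k ≠ 0) :
    ∃ C : ℕ, ∀ N ∈ Ext K (Gm m),
      {b : Fin n → 𝓞 K | (∀ k, Squarefree (b k)) ∧ NK 4 (sp m π b) = N}.Finite ∧
      Nat.card {b : Fin n → 𝓞 K // (∀ k, Squarefree (b k)) ∧ NK 4 (sp m π b) = N} ≤ C := by
  classical
  have hne : ∀ k, NeZero (m k) := fun k => ⟨by rcases hm k with h | h <;> omega⟩
  have hfin : ∀ k, Finite (Multiplicative (ZMod (m k))) := fun k => inferInstance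
  choose a ha hsp using fun k => C5_sp m hπ k
  refine ⟨Nat.card ((Gm m → Fin n → Fin 4) × (Fin n → (𝓞 K)ˣ)), ?_⟩
  rintro N ⟨hgal, ⟨φ⟩⟩
  set S : Set (Fin n → 𝓞 K) := {b : Fin n → 𝓞 K | (∀ k, Squarefree (b k)) ∧ NK 4 (sp m π b) = N} with hS
  suffices hinj : ∃ F : S → (Gm m → Fin n → Fin 4) × (Fin n → (𝓞 K)ˣ), Function.Injective F by
    obtain ⟨F, hF⟩ := hinj
    refine ⟨?_, Nat.card_le_card_of_injective F hF⟩
    have hfS : Finite S := Finite.of_injective F hF
    exact Set.toFinite S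
  have hw : ∀ b : S, ∀ k, sp m π b.1 k ≠ 0 := by
    intro b k
    rw [hsp]
    refine mul_ne_zero (ha k) (pow_ne_zero 2 ?_)
    exact fun h2 => (b.2.1 k).ne_zero (RingOfIntegers.coe_eq_zero_iff.mp h2)
  rcases isEmpty_or_nonempty S with hE | ⟨⟨b₀⟩⟩
  · exact ⟨fun b => (hE.false b).elim, fun b => (hE.false b).elim⟩
  have hfd : FiniteDimensional K N := (C5_get hi (hw b₀) b₀.2.2).1
  choose y hy using fun b : S => (C5_get hi (hw b) b.2.2).2
  have hc : ∀ (b : S) (g : Gm m) (k : Fin n), ∃ c : Fin 4,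
      φ.symm g (y b k) = algebraMap K N i ^ c.val * y b k := by
    intro b g k
    apply C5_root hi
    rw [← map_pow, hy b k, AlgEquiv.commutes]
  choose c hc using hc
  have hu : ∀ (b : S) (k : Fin n), ∃ u : (𝓞 K)ˣ, Quot.out (Associates.mk (b.1 k)) * (u : 𝓞 K) = b.1 k := by
    intro b k
    exact Associates.mk_eq_mk_iff_associated.mp (Associates.quot_out (Associates.mk (b.1 k)))
  choose u hu using hu
  refine ⟨fun b => (fun g k => c b g k, fun k => u b k), ?_⟩
  intro b b' h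
  have h1 : ∀ g k, c b g k = c b' g k := fun g k =>
    congrFun (congrFun (congrArg Prod.fst h) g) k
  have h2 : ∀ k, u b k = u b' k := fun k => congrFun (congrArg Prod.snd h) k
  apply Subtype.ext
  funext k
  have h3 : Associated (b.1 k) (b'.1 k) := by
    refine C5_same hi (c := fun σ => c b (φ σ) k) (b.2.1 k) (b'.2.1 k) (ha k)
      (y := y b k) (y' := y b' k) ?_ ?_ ?_ ?_
    · rw [hy, hsp]
    · rw [hy, hsp]
    · intro σ
      have h4 := hc b (φ σ) k
      rw [φ.symm_apply_apply] at h4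
      exact h4
    · intro σ
      have h4 := hc b' (φ σ) k
      rw [φ.symm_apply_apply, ← h1] at h4
      exact h4
  have h4 : Associates.mk (b.1 k) = Associates.mk (b'.1 k) :=
    Associates.mk_eq_mk_iff_associated.mpr h3
  rw [← hu b k, ← hu b' k, h4, h2]

end Pool.Agent.Lib.MP_1a91b9_ntQG
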