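import Pool.Agent.Lib.MP_1a91b9_ntQD.D0

/-!
# MP_1a91b9_nt (the abelian extensions of exponent four by the discriminant): definitions
-/

set_option autoImplicit false

namespace Pool.Agent.Lib.MP_1a91b9_ntQG

open NumberField
open Pool.Agent.Lib.MP_1a91b9_ntDF (NK DiscLe)
open Pool.Agent.Lib.MP_1a91b9_ntQD (nr)

noncomputable section

/-- The Galois extensions of `K` in the algebraic closure with the Galois group `G`. -/
def Ext (K : Type) [Field K] (G : Type) [Group G] : Set (IntermediateField K (AlgebraicClosure K)) :=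
  {N | IsGalois K N ∧ Nonempty ((N ≃ₐ[K] N) ≃* G)}

/-- The product of the cyclic groups `ℤ/m_i`. -/
abbrev Gm {n : ℕ} (m : Fin n → ℕ) : Type := (i : Fin n) → Multiplicative (ZMod (m i))

/-- The tuples of squarefree elements whose least common multiple has norm at most `Z`. -/
def Box (K : Type) [Field K] [NumberField K] (n : ℕ) (Z : ℝ) : Set (Fin n → 𝓞 K) :=
  {b | (∀ i, Squarefree (b i)) ∧ ∃ A : 𝓞 K, A ≠ 0 ∧ nr A ≤ Z ∧ ∀ i, b i ∣ A}

/-- The vectors modulo `4` with an odd coordinate. -/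
abbrev Vo (n : ℕ) : Type := {v : Fin n → Fin 4 // ∃ i, Odd (v i).val}

/-- The parameters of the part with ramification of order four: units `u_i` and elements `A_v`. -/
abbrev Ix (K : Type) [Field K] (n : ℕ) : Type := (Fin n → (𝓞 K)ˣ) × (Vo n → {x : 𝓞 K // x ≠ 0})

variable {K : Type} [Field K] {n : ℕ}

/-- `e_i = u_i ∏ A_v ^ v_i`. -/
def ee (j : Ix K n) (i : Fin n) : 𝓞 K := (j.1 i : 𝓞 K) * ∏ v : Vo n, (j.2 v : 𝓞 K) ^ (v.1 i).val

/-- The weight `∏ N(A_v) ^ (3/2)`. -/
def ss [NumberField K] (j : Ix K n) : ℝ := ∏ v : Vo n, nr (j.2 v : 𝓞 K) ^ (3 / 2 : ℝ)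

/-- The field generated over `K` by the fourth roots of the `e_i`. -/
def F4 (j : Ix K n) : IntermediateField K (AlgebraicClosure K) := NK 4 (fun i => ((ee j i : 𝓞 K) : K))

/-- The field generated over `K` by the fourth roots of the `e_i b_i²`. -/
def QQ (j : Ix K n) (b : Fin n → 𝓞 K) : IntermediateField K (AlgebraicClosure K) :=
  NK 4 (fun i => ((ee j i : 𝓞 K) : K) * (b i : K) ^ 2)

/-- The radicands of the special family: `π_i b_i²` if `m_i = 4`, and `(π_i b_i)²` otherwise. -/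
def sp (m : Fin n → ℕ) (π b : Fin n → 𝓞 K) (i : Fin n) : K :=
  if m i = 4 then (π i : K) * (b i : K) ^ 2 else (π i : K) ^ 2 * (b i : K) ^ 2

/-- The tuple `b` is prime to the elements `π_i`. -/
def Cop (π b : Fin n → 𝓞 K) : Prop := ∀ i i', ¬ π i ∣ b i'

end

end Pool.Agent.Lib.MP_1a91b9_ntQG
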