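import Pool.Agent.Lib.MP_1a91b9_ntQG.D0
import Pool.Agent.Lib.MP_1a91b9_ntDZ.Z1

/-!
# MP_1a91b9_nt (the abelian extensions of exponent four by the discriminant): the property over all the fields between
-/

set_option autoImplicit false

namespace Pool.Agent.Lib.MP_1a91b9_ntQG

open NumberField
open Pool.Agent.Lib.MP_1a91b9_ntDZ (PropZ LNonzero)

/-- The curve `W` has the property `Z` over all the fields between `K` and `N`. -/
def AllZ {K : Type} [Field K] [NumberField K] (W : WeierstrassCurve K) (N : Type) [Field N] [Algebra K N] :
    Prop :=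
  ∀ (P : Type) [Field P] [NumberField P] [Algebra K P] [Algebra P N] [IsScalarTower K P N],
    PropZ K (W.baseChange P)

end Pool.Agent.Lib.MP_1a91b9_ntQG
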