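import Pool.Agent.Lib.MP_1a91b9_ntQD.U1

/-!
# MP_1a91b9_nt (abelian fields of exponent dividing four by the discriminant): the universal set of twists
-/

set_option autoImplicit false

namespace Pool.Agent.Lib.MP_1a91b9_ntQG

open NumberField
open Pool.Agent.Lib.MP_1a91b9_ntDZ (PropZ Sep)
open Pool.Agent.Lib.MP_1a91b9_ntDF (tw NK)
open Pool.Agent.Lib.MP_1a91b9_ntQD (uni sep_sub tw2_hyp z_desc)

private theorem UT_countable (K : Type) [Field K] [NumberField K] : Countable (𝓞 K) := by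
  have h1 : (Set.univ : Set K).Countable := by
    have h2 : {x : K | IsAlgebraic ℚ x}.Countable := Algebraic.countable ℚ K
    refine h2.mono fun x _ => Algebra.IsAlgebraic.isAlgebraic x
  have _ : Countable K := Set.countable_univ_iff.1 h1
  exact (FaithfulSMul.algebraMap_injective (𝓞 K) K).countable

/-- The field generated by the `l`-th roots of finitely many elements. -/
theorem nk_all {K : Type} [Field K] [NumberField K] {l : ℕ} (hl : 0 < l) {m : ℕ} (d : Fin m → K) :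
    FiniteDimensional K (NK l d) ∧ NumberField (NK l d) ∧
      IntermediateField.adjoin K {z : NK l d | ∃ c : K, z ^ l = algebraMap K (NK l d) c} = ⊤ := by
  have hfin : Finite {x : AlgebraicClosure K | ∃ i, x ^ l = algebraMap K (AlgebraicClosure K) (d i)} := by
    have h1 : {x : AlgebraicClosure K | ∃ i, x ^ l = algebraMap K (AlgebraicClosure K) (d i)} =
        ⋃ i, {x | x ^ l = algebraMap K (AlgebraicClosure K) (d i)} := by
      ext x
      simp only [Set.mem_ofPred_eq, Set.mem_iUnion]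
    rw [h1]
    refine Set.Finite.to_subtype (Set.finite_iUnion fun i => ?_)
    refine ((Polynomial.nthRootsFinset l (algebraMap K (AlgebraicClosure K) (d i))).finite_toSet).subset ?_
    intro x hx
    exact (Polynomial.mem_nthRootsFinset hl _).2 hx
  have hfd : FiniteDimensional K (NK l d) :=
    IntermediateField.finiteDimensional_adjoin fun x _ => Algebra.IsIntegral.isIntegral x
  refine ⟨hfd, NumberField.of_module_finite K (NK l d), ?_⟩
  refine IntermediateField.lift_injective (NK l d) ?_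
  rw [IntermediateField.lift_adjoin, IntermediateField.lift_top]
  refine le_antisymm (IntermediateField.adjoin_le_iff.2 ?_) (IntermediateField.adjoin_le_iff.2 ?_)
  · rintro _ ⟨z, -, rfl⟩
    exact z.2
  · rintro x ⟨i, hx⟩
    have hxN : x ∈ NK l d := IntermediateField.subset_adjoin K _ ⟨i, hx⟩
    refine IntermediateField.subset_adjoin K _ ⟨⟨x, hxN⟩, ⟨d i, Subtype.ext ?_⟩, rfl⟩
    exact hx

/-- **The universal set of twists.** One infinite set `U` of twists such that for every finite tuple `e` of integers of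
`K` all but finitely many `u` in `U` have the property `Z` over the field `K(e_1^(1/l), ..., e_n^(1/l))` and are
separated over it. -/
theorem univ_tup (K : Type) [Field K] [NumberField K] (hK : Module.finrank ℚ K = 2)
    (E : WeierstrassCurve K) (hE : E.a₁ = 0 ∧ E.a₃ = 0 ∧ E.a₆ = 0) (hΔ : E.Δ ≠ 0) (j D : ℤ)
    (hjD : (j, D) ∈ [(0, -3), (54000, -3), (-12288000, -3), (1728, -4), (287496, -4), (-3375, -7),
      (16581375, -7), (8000, -8), (-32768, -11), (-884736, -19), (-884736000, -43),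
      (-147197952000, -67), (-262537412640768000, -163)])
    (hj : E.c₄ ^ 3 = j * E.Δ) (hD : ∃ s : K, s ^ 2 = D) [IsPrincipalIdealRing (𝓞 K)]
    [Finite (𝓞 K)ˣ] (l : ℕ) (hl : l = 2 ∨ l = 4 ∧ ∃ i : K, i ^ 2 = -1) :
    ∃ U : Set K, U.Infinite ∧ 0 ∉ U ∧ (∀ u ∈ U, ∀ u' ∈ U, u ≠ u' → Sep 2 E K u u') ∧
      ∀ (n : ℕ) (e : Fin n → 𝓞 K), ∃ S : Set K, S.Finite ∧
        (∀ u ∈ U, u ∉ S → ∀ [NumberField (NK l fun i => (e i : K))],
          PropZ K ((tw 2 E K u).baseChange (NK l fun i => (e i : K)))) ∧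
        ∀ u ∈ U, u ∉ S → ∀ u' ∈ U, u' ∉ S → u ≠ u' → Sep 2 E (NK l fun i => (e i : K)) u u' := by
  classical
  have hl0 : 0 < l := by rcases hl with rfl | ⟨rfl, -⟩ <;> norm_num
  have _ := UT_countable K
  obtain ⟨f, hf⟩ := exists_surjective_nat (𝓞 K)
  obtain ⟨F, hFd⟩ : ∃ F : ℕ → IntermediateField K (AlgebraicClosure K),
      F = fun k => NK l (fun j : Fin k => ((f j : 𝓞 K) : K)) := ⟨_, rfl⟩
  have hmono : Monotone F := by
    intro k m hkm
    rw [hFd]
    refine IntermediateField.adjoin.mono K _ _ ?_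
    rintro x ⟨j, hj⟩
    exact ⟨⟨j, j.2.trans_le hkm⟩, hj⟩
  have hNF : ∀ k, NumberField (F k) := fun k => by
    rw [hFd]
    exact (nk_all hl0 fun j : Fin k => ((f j : 𝓞 K) : K)).2.1
  have hFgen : ∀ k, IntermediateField.adjoin K {x : F k | ∃ c : K, x ^ l = algebraMap K (F k) c} = ⊤ := by
    rw [hFd]
    exact fun k => (nk_all hl0 fun j : Fin k => ((f j : 𝓞 K) : K)).2.2
  obtain ⟨u, hinj, hu0, huZ, husep⟩ := uni K hK E hE hΔ j D hjD hj hD l hl F hmono hFgen
  refine ⟨Set.range u, Set.infinite_range_of_injective hinj, ?_, ?_, ?_⟩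
  · rintro ⟨m, hm⟩
    exact hu0 m hm
  · rintro _ ⟨m, rfl⟩ _ ⟨m', rfl⟩ hne
    have hne' : m ≠ m' := fun h => hne (by rw [h])
    exact sep_sub (Algebra.ofId K (F 0)) (husep 0 m m' (Nat.zero_le _) (Nat.zero_le _) hne')
  · intro n e
    choose s hs using fun i => hf (e i)
    obtain ⟨M, hM⟩ : ∃ M, ∀ i, s i < M :=
      ⟨(Finset.univ.sup s) + 1, fun i => Nat.lt_succ_of_le (Finset.le_sup (Finset.mem_univ i))⟩
    have hle : (NK l fun i => (e i : K)) ≤ F M := by
      rw [hFd]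
      refine IntermediateField.adjoin.mono K _ _ ?_
      rintro x ⟨i, hx⟩
      refine ⟨⟨s i, hM i⟩, ?_⟩
      show x ^ l = algebraMap K (AlgebraicClosure K) ((f (s i) : 𝓞 K) : K)
      rw [hs i]
      exact hx
    have hge : ∀ m, u m ∉ u '' Set.Iio M → M ≤ m := by
      intro m hm
      by_contra h
      exact hm ⟨m, not_le.1 h, rfl⟩
    refine ⟨u '' Set.Iio M, (Set.finite_Iio _).image u, ?_, ?_⟩
    · rintro _ ⟨m, rfl⟩ hm _
      obtain ⟨e1, e2, e3⟩ := tw2_hyp (E := E) hE.1 hE.2.1 hE.2.2 hΔ hj (hu0 m)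
      let _ : Algebra (NK l fun i => (e i : K)) (F M) := (IntermediateField.inclusion hle).toRingHom.toAlgebra
      have _ : IsScalarTower K (NK l fun i => (e i : K)) (F M) := IsScalarTower.of_algebraMap_eq fun _ => rfl
      exact z_desc K hK (tw 2 E K (u m)) e1 e2 j D
        hjD e3 hD l hl (F M) (NK l fun i => (e i : K))
        (nk_all hl0 fun i => (e i : K)).2.2 (huZ _ _ (hge m hm))
    · rintro _ ⟨m, rfl⟩ hm _ ⟨m', rfl⟩ hm' hne
      have hne' : m ≠ m' := fun h => hne (by rw [h])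
      exact sep_sub (IntermediateField.inclusion hle) (husep M m m' (hge m hm) (hge m' hm') hne')

/-- **The universal set of twists** for the curves `y^2 = x^3 + A u^2 x` over `K = ℚ(i)`. -/
theorem univ_four {K : Type} [Field K] [NumberField K] (hK : Module.finrank ℚ K = 2)
    [IsPrincipalIdealRing (𝓞 K)] [Finite (𝓞 K)ˣ] {i : K} (hi : i ^ 2 = -1) {A : K} (hA : A ≠ 0) :
    ∃ U : Set K, U.Infinite ∧ 0 ∉ U ∧
      (∀ u ∈ U, ∀ u' ∈ U, u ≠ u' → ∀ c ∈ ({1, -1, A, -A} : Set K), ∀ x : K, x ^ 2 * u' ≠ c * u) ∧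
      ∀ (n : ℕ) (e : Fin n → 𝓞 K), ∃ S : Set K, S.Finite ∧
        (∀ u ∈ U, u ∉ S → ∀ [NumberField (NK 4 fun i => (e i : K))],
          PropZ K ((tw 2 (⟨0, 0, 0, A, 0⟩ : WeierstrassCurve K) K u).baseChange
            (NK 4 fun i => (e i : K)))) ∧
        ∀ u ∈ U, u ∉ S → ∀ u' ∈ U, u' ∉ S → u ≠ u' → ∀ c ∈ ({1, -1, A, -A} : Set K),
          ∀ x : NK 4 fun i => (e i : K), x ^ 2 * algebraMap K (NK 4 fun i => (e i : K)) u' ≠
            algebraMap K (NK 4 fun i => (e i : K)) (c * u) := by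
  have hΔe : (⟨0, 0, 0, A, 0⟩ : WeierstrassCurve K).Δ = -64 * A ^ 3 := by
    simp only [WeierstrassCurve.Δ, WeierstrassCurve.b₂, WeierstrassCurve.b₄, WeierstrassCurve.b₆,
      WeierstrassCurve.b₈]
    ring
  have hc4 : (⟨0, 0, 0, A, 0⟩ : WeierstrassCurve K).c₄ = -48 * A := by
    simp only [WeierstrassCurve.c₄, WeierstrassCurve.b₂, WeierstrassCurve.b₄]
    ring
  have hΔ : (⟨0, 0, 0, A, 0⟩ : WeierstrassCurve K).Δ ≠ 0 := by
    rw [hΔe]
    exact mul_ne_zero (by norm_num) (pow_ne_zero 3 hA)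
  have hj : (⟨0, 0, 0, A, 0⟩ : WeierstrassCurve K).c₄ ^ 3 =
      ((1728 : ℤ) : K) * (⟨0, 0, 0, A, 0⟩ : WeierstrassCurve K).Δ := by
    rw [hΔe, hc4]
    push_cast
    ring
  have hD : ∃ s : K, s ^ 2 = ((-4 : ℤ) : K) := ⟨2 * i, by
    rw [mul_pow, hi]
    push_cast
    ring⟩
  obtain ⟨U, h1, h2, h3, h4⟩ := univ_tup K hK ⟨0, 0, 0, A, 0⟩ ⟨rfl, rfl, rfl⟩ hΔ 1728 (-4)
    (by simp) hj hD 4 (Or.inr ⟨rfl, i, hi⟩)
  refine ⟨U, h1, h2, fun u hu u' hu' hne c hc x => (h3 u hu u' hu' hne x).1 rfl c hc, ?_⟩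
  intro n e
  obtain ⟨S, h5, h6, h7⟩ := h4 n e
  exact ⟨S, h5, h6, fun u hu hs u' hu' hs' hne c hc x => (h7 u hu hs u' hu' hs' hne x).1 rfl c hc⟩

end Pool.Agent.Lib.MP_1a91b9_ntQG
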