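import Pool.Agent.Lib.MP_1a91b9_ntQG.K1
import Pool.Agent.Lib.MP_1a91b9_ntQG.UT

/-!
# MP_1a91b9_nt (the abelian extensions of exponent four by the discriminant): the universal set of twists
-/

set_option autoImplicit false

namespace Pool.Agent.Lib.MP_1a91b9_ntQG

open NumberField
open Pool.Agent.Lib.MP_1a91b9_ntDZ (PropZ Sep)
open Pool.Agent.Lib.MP_1a91b9_ntDF (tw cK NK)
open Pool.Agent.Lib.MP_1a91b9_ntQD (z_desc tw2_hyp)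

/-- **E4** (helper9). **The universal set of twists.** Proof: `uni` of `ntQD/U1.lean` for `F k = NK 4 (x_0, .., x_(k-1))`, `x_t` an
enumeration of the elements `≠ 0` of `𝓞 K`. -/
theorem univ_set {K : Type} [Field K] [NumberField K] (hK : Module.finrank ℚ K = 2)
    [IsPrincipalIdealRing (𝓞 K)] [Finite (𝓞 K)ˣ] {i : K} (hi : i ^ 2 = -1) {A : K} (hA : A ≠ 0) :
    ∃ U : Set K, U.Infinite ∧ 0 ∉ U ∧
      (∀ u ∈ U, PropZ K ((tw 2 (⟨0, 0, 0, A, 0⟩ : WeierstrassCurve K) K u).baseChange K)) ∧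
      (∀ u ∈ U, ∀ u' ∈ U, u ≠ u' → ∀ c ∈ ({1, -1, A, -A} : Set K), ∀ x : K, x ^ 2 * u' ≠ c * u) ∧
      ∀ (n : ℕ) (e : Fin n → 𝓞 K), (∀ k, e k ≠ 0) → ∀ [NumberField (NK 4 (cK K e))], ∃ S : Set K, S.Finite ∧
        (∀ u ∈ U, u ∉ S →
          PropZ K ((tw 2 (⟨0, 0, 0, A, 0⟩ : WeierstrassCurve K) K u).baseChange (NK 4 (cK K e)))) ∧
        ∀ u ∈ U, u ∉ S → ∀ u' ∈ U, u' ∉ S → u ≠ u' → ∀ c ∈ ({1, -1, A, -A} : Set K),
          ∀ x : NK 4 (cK K e),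
            x ^ 2 * algebraMap K (NK 4 (cK K e)) u' ≠ algebraMap K (NK 4 (cK K e)) (c * u) := by
  obtain ⟨U, hU, h0, hs, hT⟩ := univ_four hK hi hA
  obtain ⟨S₀, hS₀, hZ₀, -⟩ := hT 0 Fin.elim0
  have hΔe : (⟨0, 0, 0, A, 0⟩ : WeierstrassCurve K).Δ = -64 * A ^ 3 := by
    simp only [WeierstrassCurve.Δ, WeierstrassCurve.b₂, WeierstrassCurve.b₄, WeierstrassCurve.b₆,
      WeierstrassCurve.b₈]
    ring
  have hc4 : (⟨0, 0, 0, A, 0⟩ : WeierstrassCurve K).c₄ = -48 * A := by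
    simp only [WeierstrassCurve.c₄, WeierstrassCurve.b₂, WeierstrassCurve.b₄]
    ring
  have hΔ : (⟨0, 0, 0, A, 0⟩ : WeierstrassCurve K).Δ ≠ 0 := by
    rw [hΔe]
    exact mul_ne_zero (by norm_num) (pow_ne_zero 3 hA)
  have hj : (⟨0, 0, 0, A, 0⟩ : WeierstrassCurve K).c₄ ^ 3 =
      ((1728 : ℤ) : K) * (⟨0, 0, 0, A, 0⟩ : WeierstrassCurve K).Δ := by
    rw [hΔe, hc4]
    push_cast
    ring
  have hD : ∃ s : K, s ^ 2 = ((-4 : ℤ) : K) := ⟨2 * i, by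
    rw [mul_pow, hi]
    push_cast
    ring⟩
  have hgen : IntermediateField.adjoin K {x : K | ∃ c : K, x ^ 4 = algebraMap K K c} = ⊤ := by
    rw [eq_top_iff]
    intro x _
    exact IntermediateField.subset_adjoin K _ ⟨x ^ 4, rfl⟩
  have hnf : NumberField (NK 4 fun k : Fin 0 => ((Fin.elim0 k : 𝓞 K) : K)) := (nk_all (by norm_num) _).2.1
  refine ⟨U \ S₀, hU.sdiff hS₀, fun h => h0 h.1, ?_, fun u hu u' hu' => hs u hu.1 u' hu'.1, ?_⟩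
  · rintro u ⟨hu, huS⟩
    have hu0 : u ≠ 0 := fun h => h0 (h ▸ hu)
    obtain ⟨e1, e2, e3⟩ := tw2_hyp (E := (⟨0, 0, 0, A, 0⟩ : WeierstrassCurve K)) rfl rfl rfl hΔ hj hu0
    exact z_desc K hK (tw 2 (⟨0, 0, 0, A, 0⟩ : WeierstrassCurve K) K u) e1 e2 1728 (-4)
      (by simp) e3 hD 4 (Or.inr ⟨rfl, i, hi⟩) (NK 4 fun k : Fin 0 => ((Fin.elim0 k : 𝓞 K) : K)) K hgen
      (hZ₀ u hu huS)
  · intro n e _ hn
    obtain ⟨S, hS, h1, h2⟩ := hT n e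
    exact ⟨S, hS, fun u hu huS => @h1 u hu.1 huS hn,
      fun u hu huS u' hu' huS' => h2 u hu.1 huS u' hu'.1 huS'⟩

end Pool.Agent.Lib.MP_1a91b9_ntQG
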