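import Pool.Agent.Lib.MP_1a91b9_ntQG.R1
import Pool.Agent.Lib.MP_1a91b9_ntQG.C1
import Pool.Agent.Lib.MP_1a91b9_ntQG.C2
import Pool.Agent.Lib.MP_1a91b9_ntQG.C3

/-!
# MP_1a91b9_nt (the abelian extensions of exponent four by the discriminant): the exceptional fields
-/

set_option autoImplicit false

namespace Pool.Agent.Lib.MP_1a91b9_ntQG

open NumberField
open Pool.Agent.Lib.MP_1a91b9_ntDF (DiscLe)
open Pool.Agent.Lib.MP_1a91b9_ntQD (nr)

/-- The norm of a nonzero element is at least one. -/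
private theorem F1_one_le_nr {K : Type} [Field K] [NumberField K] {A : 𝓞 K} (hA : A ≠ 0) : 1 ≤ nr A := by
  have h1 : Algebra.norm ℤ A ≠ 0 := Algebra.norm_ne_zero_iff.2 hA
  have h2 : (1 : ℤ) ≤ |Algebra.norm ℤ A| := Int.one_le_abs h1
  show (1 : ℝ) ≤ ((|Algebra.norm ℤ A| : ℤ) : ℝ)
  exact_mod_cast h2

/-- A box with an element. -/
private theorem F1_box_ne {K : Type} [Field K] [NumberField K] {n : ℕ} {Z : ℝ} {b : Fin n → 𝓞 K}
    (hb : b ∈ Box K n Z) : 1 ≤ Z := by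
  obtain ⟨_, A, hA, hZ, _⟩ := hb
  exact (F1_one_le_nr hA).trans hZ

/-- The cardinality of a finite set of pairs. -/
private theorem F1_card_pairs {ι β : Type} (Q : ι → β → Prop) (J : Finset ι)
    (hJ : ∀ j b, Q j b → j ∈ J) (hQ : ∀ j, {b | Q j b}.Finite) :
    {p : ι × β | Q p.1 p.2}.Finite ∧
      Nat.card {p : ι × β // Q p.1 p.2} = ∑ j ∈ J, Nat.card {b // Q j b} := by
  classical
  have e : {p : ι × β // Q p.1 p.2} ≃ Σ j : J, {b // Q j.1 b} :=
    { toFun := fun p => ⟨⟨p.1.1, hJ _ _ p.2⟩, ⟨p.1.2, p.2⟩⟩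
      invFun := fun q => ⟨(q.1.1, q.2.1), q.2.2⟩
      left_inv := fun p => rfl
      right_inv := fun q => rfl }
  have hf : ∀ j : J, Finite {b // Q j.1 b} := fun j => (hQ j.1).to_subtype
  constructor
  · have h0 : Finite {p : ι × β // Q p.1 p.2} := Finite.of_equiv _ e.symm
    exact Set.finite_coe_iff.1 h0
  · rw [Nat.card_congr e, Nat.card_sigma, ← Finset.sum_coe_sort J (fun j => Nat.card {b // Q j b})]

/-- **F1** (medium+). **There are few exceptional fields.** Proof: Let `N` in `Ext K (Gm m)`, `|disc N| ≤ X`, `¬ P N`. By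
`ext_par` `N = QQ j b`, and by `mem_box` `b` is in the box `Y / s_j`, `Y = X ^ (1/(2g))`. So the number of these `N` is at most
`∑' j, f j (Y / s j)`, where `f j Z` is the number of the `b` in the box `Z` with `finrank K (QQ j b) = 4 g`,
`¬ P (QQ j b)`: choose `(j, b)` for every `N`; the set of these `N` is finite (for the finiteness: `s_j ≤ Y` for the `j` which
occur, as the box is empty for `Z < 1`; only finitely many `j` have `s_j ≤ Y` as `sum_ss` is summable), its image in the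
set of the `j` is a finite set `J`, the number of the `N` over one `j` is at most `f j (Y / s j)` (injective in `b`), and
`∑_(j ∈ J) ≤ ∑'`. `dom_conv` for `R Z = Nat.card (Box K n Z)` with `sum_ss`, `box_cmp`, `one_le_ss`, `box_mono`. -/
theorem few_bad {K : Type} [Field K] [NumberField K] (hK : Module.finrank ℚ K = 2)
    [IsPrincipalIdealRing (𝓞 K)] [Finite (𝓞 K)ˣ] {i : K} (hi : i ^ 2 = -1) {n : ℕ} {m : Fin n → ℕ}
    (hm : ∀ k, m k = 2 ∨ m k = 4) {g : ℕ} (hg : ∏ k, m k = 4 * g) (hg0 : 0 < g)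
    (P : IntermediateField K (AlgebraicClosure K) → Prop)
    (h : ∀ j : Ix K n, ∀ ε : ℝ, 0 < ε → ∀ᶠ Z : ℝ in Filter.atTop,
      (Nat.card {b : Fin n → 𝓞 K // b ∈ Box K n Z ∧ Module.finrank K (QQ j b) = ∏ k, m k ∧ ¬ P (QQ j b)} : ℝ) ≤
        ε * (Nat.card (Box K n Z) : ℝ)) :
    (∀ X : ℝ, {N : IntermediateField K (AlgebraicClosure K) | N ∈ Ext K (Gm m) ∧ DiscLe N X}.Finite) ∧
    ∀ ε : ℝ, 0 < ε → ∀ᶠ X : ℝ in Filter.atTop,
      (Nat.card {N : IntermediateField K (AlgebraicClosure K) // N ∈ Ext K (Gm m) ∧ DiscLe N X ∧ ¬ P N} : ℝ) ≤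
        ε * (Nat.card (Box K n (X ^ (1 / (2 * g : ℝ)))) : ℝ) := by
  classical
  have hn : 0 < n := by
    rcases Nat.eq_zero_or_pos n with h0 | h0
    · subst h0
      simp only [Finset.univ_eq_empty, Finset.prod_empty] at hg
      omega
    · exact h0
  have hfin := (Pool.Agent.Lib.MP_1a91b9_ntQD.card_le hK hi).1
  have hbf : ∀ Z : ℝ, (Box K n Z).Finite := fun Z => box_fin hfin n Z
  have hss : Summable fun j : Ix K n => (ss j)⁻¹ := sum_ss hK hi n
  have hs1 : ∀ j : Ix K n, 1 ≤ ss j := one_le_ss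
  -- the finite sets of the parameters
  have hJ : ∀ Y : ℝ, {j : Ix K n | ss j ≤ Y}.Finite := by
    intro Y
    have h1 := hss.tendsto_cofinite_zero
    have h2 : ∀ᶠ j : Ix K n in Filter.cofinite, (ss j)⁻¹ < (max Y 1)⁻¹ :=
      h1.eventually (gt_mem_nhds (inv_pos.2 (lt_of_lt_of_le one_pos (le_max_right Y 1))))
    refine (Filter.eventually_cofinite.1 h2).subset ?_
    intro j hj hlt
    have hj' : ss j ≤ Y := hj
    have h3 : (max Y 1)⁻¹ ≤ (ss j)⁻¹ :=
      inv_anti₀ (lt_of_lt_of_le one_pos (hs1 j)) (hj'.trans (le_max_left Y 1))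
    exact absurd hlt (not_lt.2 h3)
  have hmem : ∀ (Y : ℝ) (j : Ix K n) (b : Fin n → 𝓞 K), b ∈ Box K n (Y / ss j) → ss j ≤ Y := by
    intro Y j b hb
    have h1 := F1_box_ne hb
    rwa [le_div_iff₀ (lt_of_lt_of_le one_pos (hs1 j)), one_mul] at h1
  -- the choice of the parameters
  have hpar : ∀ N : IntermediateField K (AlgebraicClosure K), N ∈ Ext K (Gm m) →
      ∃ p : Ix K n × (Fin n → 𝓞 K), Adm p.1 p.2 ∧ N = QQ p.1 p.2 ∧
        Module.finrank K (QQ p.1 p.2) = ∏ k, m k := by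
    intro N hN
    obtain ⟨j, b, h1, h2, h3⟩ := ext_par hi hm hN
    exact ⟨(j, b), h1, h2, h3⟩
  have hne : Nonempty (Ix K n × (Fin n → 𝓞 K)) :=
    ⟨((fun _ => 1, fun _ => ⟨1, one_ne_zero⟩), fun _ => 1)⟩
  choose! par hadm hpN hpd using hpar
  have hbox : ∀ (X : ℝ) (N : IntermediateField K (AlgebraicClosure K)), N ∈ Ext K (Gm m) → DiscLe N X →
      (par N).2 ∈ Box K n (X ^ (1 / (2 * g : ℝ)) / ss (par N).1) := by
    intro X N hN hX
    refine mem_box hi (hadm N hN) hg0 ((hpd N hN).trans hg) ?_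
    rw [← hpN N hN]
    exact hX
  have hinj : ∀ N N' : IntermediateField K (AlgebraicClosure K), N ∈ Ext K (Gm m) → N' ∈ Ext K (Gm m) →
      par N = par N' → N = N' := by
    intro N N' hN hN' he
    rw [hpN N hN, hpN N' hN', he]
  have hpf : ∀ Y : ℝ, {p : Ix K n × (Fin n → 𝓞 K) | p.2 ∈ Box K n (Y / ss p.1)}.Finite := fun Y =>
    (F1_card_pairs (fun j b => b ∈ Box K n (Y / ss j)) (hJ Y).toFinset
      (fun j b hb => (hJ Y).mem_toFinset.2 (hmem Y j b hb)) (fun j => hbf _)).1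
  have hall : ∀ X : ℝ, {N : IntermediateField K (AlgebraicClosure K) | N ∈ Ext K (Gm m) ∧ DiscLe N X}.Finite := by
    intro X
    refine Set.Finite.of_finite_image (f := par) ((hpf (X ^ (1 / (2 * g : ℝ)))).subset ?_) ?_
    · rintro _ ⟨N, ⟨hN, hX⟩, rfl⟩
      exact hbox X N hN hX
    · intro N hN N' hN' he
      exact hinj N N' hN.1 hN'.1 he
  refine ⟨hall, ?_⟩
  intro ε hε
  obtain ⟨C, hC0, hC⟩ := (box_cmp (K := K) hK hi hn).1
  have hmonoC : ∀ Z : ℝ, ∀ Q : (Fin n → 𝓞 K) → Prop, (∀ b, Q b → b ∈ Box K n Z) →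
      Nat.card {b // Q b} ≤ Nat.card (Box K n Z) := by
    intro Z Q hQ
    have : Finite (Box K n Z) := (hbf Z).to_subtype
    exact Nat.card_le_card_of_injective (fun b : {b // Q b} => (⟨b.1, hQ b.1 b.2⟩ : Box K n Z))
      (fun a b hab => Subtype.ext (congrArg (fun c : Box K n Z => (c : Fin n → 𝓞 K)) hab))
  have hdc := dom_conv (ι := Ix K n) ss hs1 hss (fun Z => (Nat.card (Box K n Z) : ℝ))
    (fun Z => Nat.cast_nonneg _)
    (by
      filter_upwards [Filter.eventually_ge_atTop (1 : ℝ)] with Z hZ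
      exact_mod_cast box_pos hfin n hZ)
    (by
      intro Z Z' hZ
      have : Finite (Box K n Z') := (hbf Z').to_subtype
      show (Nat.card (Box K n Z) : ℝ) ≤ (Nat.card (Box K n Z') : ℝ)
      exact_mod_cast Nat.card_mono (hbf Z') (box_mono hZ))
    C (fun Z t ht => hC Z t ht)
    (fun j Z => (Nat.card {b : Fin n → 𝓞 K // b ∈ Box K n Z ∧
      Module.finrank K (QQ j b) = ∏ k, m k ∧ ¬ P (QQ j b)} : ℝ))
    (fun j Z => Nat.cast_nonneg _)
    (fun j Z => by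
      have := hmonoC Z (fun b => b ∈ Box K n Z ∧ Module.finrank K (QQ j b) = ∏ k, m k ∧ ¬ P (QQ j b))
        (fun b hb => hb.1)
      exact_mod_cast this)
    h ε hε
  have hlim : Filter.Tendsto (fun X : ℝ => X ^ (1 / (2 * g : ℝ))) Filter.atTop Filter.atTop :=
    tendsto_rpow_atTop (by positivity)
  filter_upwards [hlim.eventually hdc] with X hX
  obtain ⟨hsumX, hleX⟩ := hX
  refine le_trans ?_ hleX
  generalize hY : X ^ (1 / (2 * g : ℝ)) = Y at *
  obtain ⟨hf, hcard⟩ := F1_card_pairs (fun (j : Ix K n) (b : Fin n → 𝓞 K) => b ∈ Box K n (Y / ss j) ∧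
      Module.finrank K (QQ j b) = ∏ k, m k ∧ ¬ P (QQ j b)) (hJ Y).toFinset
      (fun j b hb => (hJ Y).mem_toFinset.2 (hmem Y j b hb.1))
      (fun j => (hbf _).subset fun b hb => hb.1)
  have h1 : Nat.card {N : IntermediateField K (AlgebraicClosure K) // N ∈ Ext K (Gm m) ∧ DiscLe N X ∧ ¬ P N} ≤
      Nat.card {p : Ix K n × (Fin n → 𝓞 K) // p.2 ∈ Box K n (Y / ss p.1) ∧
      Module.finrank K (QQ p.1 p.2) = ∏ k, m k ∧ ¬ P (QQ p.1 p.2)} := by
    have : Finite {p : Ix K n × (Fin n → 𝓞 K) // p.2 ∈ Box K n (Y / ss p.1) ∧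
      Module.finrank K (QQ p.1 p.2) = ∏ k, m k ∧ ¬ P (QQ p.1 p.2)} := hf.to_subtype
    refine Nat.card_le_card_of_injective
      (fun N => ⟨par N.1, ?_, hpd N.1 N.2.1, ?_⟩) ?_
    · have h2 := hbox X N.1 N.2.1 N.2.2.1
      rw [hY] at h2
      exact h2
    · rw [← hpN N.1 N.2.1]
      exact N.2.2.2
    · intro N N' he
      exact Subtype.ext (hinj N.1 N'.1 N.2.1 N'.2.1 (Subtype.ext_iff.1 he))
  have h2 : (∑ j ∈ (hJ Y).toFinset, (Nat.card {b : Fin n → 𝓞 K // b ∈ Box K n (Y / ss j) ∧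
      Module.finrank K (QQ j b) = ∏ k, m k ∧ ¬ P (QQ j b)} : ℝ)) ≤
      ∑' j : Ix K n, (Nat.card {b : Fin n → 𝓞 K // b ∈ Box K n (Y / ss j) ∧
      Module.finrank K (QQ j b) = ∏ k, m k ∧ ¬ P (QQ j b)} : ℝ) :=
    hsumX.sum_le_tsum _ (fun j _ => Nat.cast_nonneg _)
  refine le_trans ?_ h2
  rw [← Nat.cast_sum, ← hcard]
  exact_mod_cast h1

end Pool.Agent.Lib.MP_1a91b9_ntQG
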