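import Pool.Agent.Lib.MP_1a91b9_ntQG.K5

/-!
# MP_1a91b9_nt (the abelian extensions of exponent four by the discriminant): the special family
-/

set_option autoImplicit false

namespace Pool.Agent.Lib.MP_1a91b9_ntQG

open NumberField
open Pool.Agent.Lib.MP_1a91b9_ntDF (NK Kum)

/-- The radicand of the special family in the ring of integers. -/
private noncomputable def R4_W {K : Type} [Field K] {n : ℕ} (m : Fin n → ℕ) (π b : Fin n → 𝓞 K) (k : Fin n) : 𝓞 K :=
  if m k = 4 then π k * b k ^ 2 else π k ^ 2 * b k ^ 2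

private theorem R4_coe {K : Type} [Field K] {n : ℕ} (m : Fin n → ℕ) (π b : Fin n → 𝓞 K) (k : Fin n) :
    sp m π b k = ((R4_W m π b k : 𝓞 K) : K) := by
  unfold sp R4_W
  split_ifs
  · show algebraMap (𝓞 K) K (π k) * algebraMap (𝓞 K) K (b k) ^ 2 = algebraMap (𝓞 K) K (π k * b k ^ 2)
    rw [map_mul, map_pow]
  · show algebraMap (𝓞 K) K (π k) ^ 2 * algebraMap (𝓞 K) K (b k) ^ 2 = algebraMap (𝓞 K) K (π k ^ 2 * b k ^ 2)
    rw [map_mul, map_pow, map_pow]

private theorem R4_off {K : Type} [Field K] [NumberField K] {n : ℕ} (m : Fin n → ℕ) {π : Fin n → 𝓞 K}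
    (hπ : ∀ k, Prime (π k)) (hne : ∀ k k', k ≠ k' → ¬ Associated (π k) (π k')) {b : Fin n → 𝓞 K} (hc : Cop π b)
    {k k' : Fin n} (h : k ≠ k') : emultiplicity (π k) (R4_W m π b k') = 0 := by
  rw [emultiplicity_eq_zero]
  intro hd
  have h1 : ¬ π k ∣ π k' := fun h2 => hne k k' h ((hπ k).associated_of_dvd (hπ k') h2)
  unfold R4_W at hd
  split_ifs at hd
  · rcases (hπ k).dvd_or_dvd hd with h2 | h2
    · exact h1 h2
    · exact hc k k' ((hπ k).dvd_of_dvd_pow h2)
  · rcases (hπ k).dvd_or_dvd hd with h2 | h2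
    · exact h1 ((hπ k).dvd_of_dvd_pow h2)
    · exact hc k k' ((hπ k).dvd_of_dvd_pow h2)

private theorem R4_on {K : Type} [Field K] [NumberField K] {n : ℕ} (m : Fin n → ℕ) {π : Fin n → 𝓞 K}
    (hπ : ∀ k, Prime (π k)) {b : Fin n → 𝓞 K} (hc : Cop π b) (k : Fin n) :
    emultiplicity (π k) (R4_W m π b k) = if m k = 4 then 1 else 2 := by
  have h0 : emultiplicity (π k) (b k) = 0 := emultiplicity_eq_zero.2 (hc k k)
  have h1 : emultiplicity (π k) (π k) = 1 := by
    have h := emultiplicity_pow_self_of_prime (hπ k) 1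
    rwa [pow_one, Nat.cast_one] at h
  unfold R4_W
  split_ifs
  · rw [emultiplicity_mul (hπ k), emultiplicity_pow (hπ k), h0, h1, mul_zero, add_zero]
  · rw [emultiplicity_mul (hπ k), emultiplicity_pow (hπ k), emultiplicity_pow (hπ k), h0, h1, mul_zero, add_zero,
      mul_one, Nat.cast_ofNat]

private theorem R4_nu (K : Type) [Field K] [NumberField K] (p : ℕ) (hp : p.Prime) : ¬ IsUnit ((p : ℕ) : 𝓞 K) := by
  intro h
  have h1 : IsUnit (Algebra.norm ℤ ((p : ℕ) : 𝓞 K)) := h.map _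
  have h2 : ((p : ℕ) : 𝓞 K) = algebraMap ℤ (𝓞 K) (p : ℤ) := by
    rw [map_natCast]
  have h3 : Module.finrank ℤ (𝓞 K) ≠ 0 := by
    rw [RingOfIntegers.rank]
    exact Module.finrank_pos.ne'
  rw [h2, Algebra.norm_algebraMap, isUnit_pow_iff h3] at h1
  exact (Nat.prime_iff_prime_int.1 hp).not_isUnit h1

/-- **R4** (medium). **The special family has the group `∏ ℤ/m_k`.** Proof: `mem_ext` for `w = sp m π b`; the
independence by the multiplicity of `π_k`: it is `1` in `w_k` for `m_k = 4` (`π_k ∤ b_k'` for all `k'` and `π_k ∤ π_k'` for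
`k' ≠ k`), `2` for `m_k = 2`, and `0` in the other `w_k'`; if `∏ w_k ^ c_k = z⁴`, `z` in `K`, then `z` is in `𝓞 K` (integrally closed)
and the multiplicity of `π_k` is divisible by four: `4 ∣ c_k` or `4 ∣ 2 c_k` (`emultiplicity_pow`, or
`π_k ^ c ∣ z⁴` and the like). -/
theorem sp_mem {K : Type} [Field K] [NumberField K] [IsPrincipalIdealRing (𝓞 K)] {i : K} (hi : i ^ 2 = -1) {n : ℕ}
    {m : Fin n → ℕ} (hm : ∀ k, m k = 2 ∨ m k = 4) {π : Fin n → 𝓞 K} (hπ : ∀ k, Prime (π k))
    (hne : ∀ k k', k ≠ k' → ¬ Associated (π k) (π k')) {b : Fin n → 𝓞 K} (hb : ∀ k, b k ≠ 0) (hc : Cop π b) :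
    NK 4 (sp m π b) ∈ Ext K (Gm m) ∧ Module.finrank K (NK 4 (sp m π b)) = ∏ k, m k := by
  have hc0 : ∀ x : 𝓞 K, x ≠ 0 → (x : K) ≠ 0 := fun x hx => RingOfIntegers.coe_ne_zero_iff.2 hx
  have hw : ∀ k, sp m π b k ≠ 0 := by
    intro k
    have h1 := hc0 _ (hπ k).ne_zero
    have h2 := hc0 _ (hb k)
    unfold sp
    split_ifs
    · exact mul_ne_zero h1 (pow_ne_zero 2 h2)
    · exact mul_ne_zero (pow_ne_zero 2 h1) (pow_ne_zero 2 h2)
  refine mem_ext hi hm hw ?_ ?_
  · intro k hk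
    refine ⟨(π k : K) * (b k : K), ?_⟩
    unfold sp
    rw [if_neg (by omega)]
    ring
  · rintro c ⟨z, hz⟩ k
    have h1 : ∏ k, sp m π b k ^ c k = algebraMap (𝓞 K) K (∏ k, R4_W m π b k ^ c k) := by
      rw [map_prod]
      refine Finset.prod_congr rfl fun k _ => ?_
      rw [map_pow]
      exact congrArg (fun x => x ^ c k) (R4_coe m π b k)
    have hz0 : z ≠ 0 := by
      rintro rfl
      rw [zero_pow (by norm_num), Finset.prod_eq_zero_iff] at hz
      obtain ⟨k, _, hk⟩ := hz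
      exact pow_ne_zero _ (hw k) hk
    have h2 : IsIntegral (𝓞 K) (z ^ 4) := by
      rw [← hz, h1]
      exact isIntegral_algebraMap
    obtain ⟨Z, hZ⟩ := IsIntegrallyClosed.exists_algebraMap_eq_of_isIntegral_pow (R := 𝓞 K) (by norm_num) h2
    have hZ0 : Z ≠ 0 := by
      rintro rfl
      rw [map_zero] at hZ
      exact hz0 hZ.symm
    have h3 : ∏ k, R4_W m π b k ^ c k = Z ^ 4 := by
      apply RingOfIntegers.coe_injective
      rw [← h1, hz, map_pow, hZ]
    have h4 : emultiplicity (π k) (Z ^ 4) = (c k : ℕ∞) * (if m k = 4 then 1 else 2) := by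
      rw [← h3, Finset.emultiplicity_prod (hπ k), Finset.sum_eq_single k]
      · rw [emultiplicity_pow (hπ k), R4_on m hπ hc k]
      · intro k' _ hk'
        rw [emultiplicity_pow (hπ k), R4_off m hπ hne hc (Ne.symm hk'), mul_zero]
      · intro h
        exact absurd (Finset.mem_univ k) h
    have h5 : FiniteMultiplicity (π k) Z := FiniteMultiplicity.of_prime_left (hπ k) hZ0
    rw [emultiplicity_pow (hπ k), h5.emultiplicity_eq_multiplicity] at h4
    rcases hm k with h | h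
    · rw [h, if_neg (by norm_num)] at h4
      have h6 : 4 * multiplicity (π k) Z = c k * 2 := by exact_mod_cast h4
      rw [h]
      omega
    · rw [h, if_pos rfl, mul_one] at h4
      have h6 : 4 * multiplicity (π k) Z = c k := by exact_mod_cast h4
      rw [h, ← h6]
      exact dvd_mul_right _ _

/-- **R4b** (easy+). There are `n` pairwise non-associated prime elements (infinitely many: for example one above every
prime number, or above every maximal ideal). -/
theorem primes_ex (K : Type) [Field K] [NumberField K] [IsPrincipalIdealRing (𝓞 K)] (n : ℕ) :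
    ∃ π : Fin n → 𝓞 K, (∀ k, Prime (π k)) ∧ ∀ k k', k ≠ k' → ¬ Associated (π k) (π k') := by
  have h : ∀ k : Fin n, ∃ π : 𝓞 K, Prime π ∧ π ∣ ((Nat.nth Nat.Prime k : ℕ) : 𝓞 K) := by
    intro k
    have hp := Nat.prime_nth_prime (k : ℕ)
    obtain ⟨π, h1, h2⟩ := WfDvdMonoid.exists_irreducible_factor (R4_nu K _ hp)
      (Nat.cast_ne_zero.2 hp.ne_zero)
    exact ⟨π, h1.prime, h2⟩
  choose π h1 h2 using h
  refine ⟨π, h1, fun k k' hk ha => ?_⟩
  have h3 : π k ∣ ((Nat.nth Nat.Prime k' : ℕ) : 𝓞 K) := ha.dvd.trans (h2 k')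
  have h4 : Nat.Coprime (Nat.nth Nat.Prime k) (Nat.nth Nat.Prime k') := by
    rw [Nat.coprime_primes (Nat.prime_nth_prime _) (Nat.prime_nth_prime _)]
    intro h5
    exact hk (Fin.ext (Nat.nth_injective Nat.infinite_setOfPred_prime h5))
  obtain ⟨x, y, hxy⟩ := ((Nat.isCoprime_iff_coprime.2 h4).map (Int.castRingHom (𝓞 K)))
  apply (h1 k).not_isUnit
  rw [isUnit_iff_dvd_one, ← hxy]
  apply dvd_add
  · apply Dvd.dvd.mul_left
    rw [map_natCast]
    exact h2 k
  · apply Dvd.dvd.mul_left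
    rw [map_natCast]
    exact h3

end Pool.Agent.Lib.MP_1a91b9_ntQG
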