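import Pool.Agent.Lib.MP_1a91b9_ntQG.R3
import Pool.Agent.Lib.MP_1a91b9_ntQG.R4
import Pool.Agent.Lib.MP_1a91b9_ntQG.C1
import Pool.Agent.Lib.MP_1a91b9_ntQG.C4
import Pool.Agent.Lib.MP_1a91b9_ntQG.C5

/-!
# MP_1a91b9_nt (the abelian extensions of exponent four by the discriminant): the number of the fields
-/

set_option autoImplicit false

namespace Pool.Agent.Lib.MP_1a91b9_ntQG

open NumberField
open Pool.Agent.Lib.MP_1a91b9_ntDF (DiscLe)
open Pool.Agent.Lib.MP_1a91b9_ntQD (nr)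

/-- a squarefree element divides `A` as soon as all its primes do -/
private theorem F2_sqf_dvd {R : Type} [CommRing R] [IsDomain R] [IsPrincipalIdealRing R] (L : R) (hL0 : L ≠ 0) :
    Squarefree L → ∀ A : R, (∀ q, Prime q → q ∣ L → q ∣ A) → L ∣ A := by
  revert hL0
  refine UniqueFactorizationMonoid.induction_on_prime (P := fun L => L ≠ 0 → Squarefree L → ∀ A : R,
    (∀ q, Prime q → q ∣ L → q ∣ A) → L ∣ A) L (fun h => absurd rfl h) ?_ ?_
  · intro x hx _ _ A _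
    exact hx.dvd
  · intro a p ha hp ih _ hsq A hA
    have hsqa : Squarefree a := hsq.squarefree_of_dvd (Dvd.intro_left p rfl)
    have hpa : ¬ p ∣ a := by
      intro h
      have h2 : p * p ∣ p * a := mul_dvd_mul_left p h
      exact hp.not_isUnit (hsq p h2)
    obtain ⟨c, hc⟩ := ih ha hsqa A (fun q hq hqa => hA q hq (hqa.trans (Dvd.intro_left p rfl)))
    have hpA : p ∣ A := hA p hp (Dvd.intro a rfl)
    rw [hc] at hpA
    rcases hp.dvd_or_dvd hpA with h | h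
    · exact absurd h hpa
    · obtain ⟨d, hd⟩ := h
      exact ⟨d, by rw [hc, hd]; ring⟩

private theorem F2_nr_le {K : Type} [Field K] [NumberField K] {L A : 𝓞 K} (hA : A ≠ 0) (h : L ∣ A) :
    nr L ≤ nr A := by
  obtain ⟨c, hc⟩ := h
  have hc0 : c ≠ 0 := by
    rintro rfl
    exact hA (by rw [hc, mul_zero])
  unfold nr
  have h1 : |Algebra.norm ℤ A| = |Algebra.norm ℤ L| * |Algebra.norm ℤ c| := by
    rw [hc, map_mul, abs_mul]
  have h2 : 1 ≤ |Algebra.norm ℤ c| := Int.one_le_abs (Algebra.norm_ne_zero_iff.2 hc0)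
  have h3 : |Algebra.norm ℤ L| ≤ |Algebra.norm ℤ A| := by
    rw [h1]
    exact le_mul_of_one_le_right (abs_nonneg _) h2
  exact_mod_cast h3

private theorem F2_nr_nonneg {K : Type} [Field K] [NumberField K] (A : 𝓞 K) : 0 ≤ nr A := by
  unfold nr
  exact_mod_cast abs_nonneg _

/-- counting through a map with bounded fibres -/
private theorem F2_count {α β : Type} {S : Set α} {T : Set β} (hT : T.Finite) (φ : α → β)
    (hφ : ∀ b ∈ S, φ b ∈ T) (C : ℕ) (hS : ∀ N ∈ T, {b | b ∈ S ∧ φ b = N}.Finite ∧ Set.ncard {b | b ∈ S ∧ φ b = N} ≤ C) :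
    Set.ncard S ≤ C * Set.ncard T := by
  classical
  have hSfin : S.Finite := by
    have h1 : S ⊆ ⋃ N ∈ T, {b | b ∈ S ∧ φ b = N} := by
      intro b hb
      simp only [Set.mem_iUnion]
      exact ⟨φ b, hφ b hb, hb, rfl⟩
    exact (hT.biUnion (fun N hN => (hS N hN).1)).subset h1
  rw [Set.ncard_eq_toFinset_card S hSfin, Set.ncard_eq_toFinset_card T hT]
  have hmap : hSfin.toFinset.image φ ⊆ hT.toFinset := by
    intro N hN
    rw [Finset.mem_image] at hN
    obtain ⟨b, hb, rfl⟩ := hN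
    rw [Set.Finite.mem_toFinset] at hb ⊢
    exact hφ b hb
  have h2 : hSfin.toFinset.card ≤ C * (hSfin.toFinset.image φ).card := by
    apply Finset.card_le_mul_card_image
    intro N hN
    have hNT : N ∈ T := by
      have := hmap hN
      rwa [Set.Finite.mem_toFinset] at this
    have h3 := (hS N hNT).2
    rw [Set.ncard_eq_toFinset_card _ (hS N hNT).1] at h3
    refine le_trans (Finset.card_le_card ?_) h3
    intro b hb
    rw [Finset.mem_filter, Set.Finite.mem_toFinset] at hb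
    rw [Set.Finite.mem_toFinset]
    exact hb
  exact h2.trans (Nat.mul_le_mul_left C (Finset.card_le_card hmap))

/-- **F2** (medium). **There are many fields.** Proof: `primes_ex`; for the tuples `b` in the box `Z`, prime to the `π_k`
(`box_cop`), the field `NK 4 (sp m π b)` is in `Ext K (Gm m)` (`sp_mem`), with `L` the radical of `∏ b_k` (`c0_rad`;
`nr L ≤ Z` as `L ∣ A`) its discriminant is at most `C Z ^ (2g)` (`disc_sp`), and every field is obtained at most `C'` times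
(`fib_sp`; `Finset.card_le_mul_card_image` or `Set.ncard`). Take `Z = (X / C) ^ (1/(2g)) = Y / C ^ (1/(2g))`,
`Y = X ^ (1/(2g))`, and the second part of `box_cmp` (the statement for `max C 1`). -/
theorem many {K : Type} [Field K] [NumberField K] (hK : Module.finrank ℚ K = 2)
    [IsPrincipalIdealRing (𝓞 K)] [Finite (𝓞 K)ˣ] {i : K} (hi : i ^ 2 = -1) {n : ℕ} {m : Fin n → ℕ}
    (hm : ∀ k, m k = 2 ∨ m k = 4) {g : ℕ} (hg : ∏ k, m k = 4 * g) (hg0 : 0 < g)
    (hfin : ∀ X : ℝ, {N : IntermediateField K (AlgebraicClosure K) | N ∈ Ext K (Gm m) ∧ DiscLe N X}.Finite) :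
    ∃ c : ℝ, 0 < c ∧ ∀ᶠ X : ℝ in Filter.atTop,
      c * (Nat.card (Box K n (X ^ (1 / (2 * g : ℝ)))) : ℝ) ≤
      (Nat.card {N : IntermediateField K (AlgebraicClosure K) // N ∈ Ext K (Gm m) ∧ DiscLe N X} : ℝ) := by
  classical
  have hn : 0 < n := by
    rcases Nat.eq_zero_or_pos n with h | h
    · subst h
      simp only [Finset.univ_eq_empty, Finset.prod_empty] at hg
      omega
    · exact h
  have hfin0 := (Pool.Agent.Lib.MP_1a91b9_ntQD.card_le hK hi).1
  obtain ⟨π, hπ, hne⟩ := primes_ex K n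
  have hπ0 : ∀ k, π k ≠ 0 := fun k => (hπ k).ne_zero
  obtain ⟨C1, hC1, hdisc⟩ := disc_sp hi hm hg hg0 π hπ0
  obtain ⟨C2, hC2, hcop⟩ := box_cop hfin0 hπ hne
  obtain ⟨C3, hfib⟩ := fib_sp hi hm hπ0
  set D : ℝ := max C1 1 with hD
  have hD1 : 1 ≤ D := le_max_right _ _
  have hD0 : 0 < D := by linarith
  have hgr : (0 : ℝ) < (g : ℝ) := by exact_mod_cast hg0
  have h2g : (0 : ℝ) < 2 * (g : ℝ) := by linarith
  set s : ℝ := D ^ (1 / (2 * (g : ℝ))) with hs
  have hs1 : 1 ≤ s := Real.one_le_rpow hD1 (by positivity)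
  have hs0 : 0 < s := by linarith
  have hspow : s ^ (2 * g) = D := by
    rw [hs, ← Real.rpow_natCast, ← Real.rpow_mul hD0.le]
    have : 1 / (2 * (g : ℝ)) * ((2 * g : ℕ) : ℝ) = 1 := by
      push_cast
      field_simp
    rw [this, Real.rpow_one]
  obtain ⟨C4, hC4, hcmp⟩ := (box_cmp hK hi hn).2 s hs1
  have hY : Filter.Tendsto (fun X : ℝ => X ^ (1 / (2 * (g : ℝ)))) Filter.atTop Filter.atTop :=
    tendsto_rpow_atTop (by positivity)
  refine ⟨1 / (C4 * (C2 * ((C3 : ℝ) + 1))), by positivity, ?_⟩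
  filter_upwards [hY.eventually hcmp, Filter.eventually_ge_atTop (0 : ℝ)] with X hX hX0
  set Y : ℝ := X ^ (1 / (2 * (g : ℝ))) with hYdef
  have hY0 : 0 ≤ Y := Real.rpow_nonneg hX0 _
  have hYpow : Y ^ (2 * g) = X := by
    rw [hYdef, ← Real.rpow_natCast, ← Real.rpow_mul hX0]
    have : 1 / (2 * (g : ℝ)) * ((2 * g : ℕ) : ℝ) = 1 := by
      push_cast
      field_simp
    rw [this, Real.rpow_one]
  -- the fields of the special family
  have hmem : ∀ b : Fin n → 𝓞 K, b ∈ Box K n (Y / s) ∧ Cop π b →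
      MP_1a91b9_ntDF.NK 4 (sp m π b) ∈ Ext K (Gm m) ∧ DiscLe (MP_1a91b9_ntDF.NK 4 (sp m π b)) X := by
    rintro b ⟨⟨hbs, A, hA0, hAY, hbA⟩, hc⟩
    have hb0 : ∀ k, b k ≠ 0 := fun k => (hbs k).ne_zero
    obtain ⟨h1, h2⟩ := sp_mem hi hm hπ hne hb0 hc
    refine ⟨h1, ?_⟩
    have hpos : 0 < Module.finrank K (MP_1a91b9_ntDF.NK 4 (sp m π b)) := by
      rw [h2, hg]
      omega
    have : FiniteDimensional K (MP_1a91b9_ntDF.NK 4 (sp m π b)) := Module.finite_of_finrank_pos hpos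
    have hNF : NumberField (MP_1a91b9_ntDF.NK 4 (sp m π b)) := NumberField.of_module_finite K _
    obtain ⟨L, hLs, hLp⟩ := Pool.Agent.Lib.MP_1a91b9_ntDF.c0_rad (∏ k, b k)
      (Finset.prod_ne_zero_iff.2 (fun k _ => hb0 k))
    have hLp2 : ∀ P, Prime P → (P ∣ L ↔ ∃ k, P ∣ b k) := by
      intro P hP
      rw [hLp P hP, hP.dvd_finsetProd_iff]
      constructor
      · rintro ⟨k, _, hk⟩
        exact ⟨k, hk⟩
      · rintro ⟨k, hk⟩
        exact ⟨k, Finset.mem_univ k, hk⟩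
    have hLA : L ∣ A := by
      apply F2_sqf_dvd L hLs.ne_zero hLs A
      intro q hq hqL
      obtain ⟨k, hk⟩ := (hLp2 q hq).1 hqL
      exact hk.trans (hbA k)
    have hLY : nr L ≤ Y / s := (F2_nr_le hA0 hLA).trans hAY
    refine ⟨hNF, ?_⟩
    have h3 := hdisc b hbs L hLs hLp2 h2 hNF
    refine h3.trans ?_
    have h4 : nr L ^ (2 * g) ≤ (Y / s) ^ (2 * g) := pow_le_pow_left₀ (F2_nr_nonneg L) hLY _
    have h5 : (Y / s) ^ (2 * g) = X / D := by
      rw [div_pow, hYpow, hspow]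
    rw [h5] at h4
    calc C1 * nr L ^ (2 * g) ≤ D * nr L ^ (2 * g) :=
          mul_le_mul_of_nonneg_right (le_max_left _ _) (pow_nonneg (F2_nr_nonneg L) _)
      _ ≤ D * (X / D) := mul_le_mul_of_nonneg_left h4 hD0.le
      _ = X := by field_simp
  have hcount := F2_count (S := {b : Fin n → 𝓞 K | b ∈ Box K n (Y / s) ∧ Cop π b})
    (T := {N : IntermediateField K (AlgebraicClosure K) | N ∈ Ext K (Gm m) ∧ DiscLe N X}) (hfin X)
    (fun b => MP_1a91b9_ntDF.NK 4 (sp m π b)) hmem C3 (by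
      intro N hN
      obtain ⟨hf, hle⟩ := hfib N hN.1
      have hsub : {b : Fin n → 𝓞 K | b ∈ {b : Fin n → 𝓞 K | b ∈ Box K n (Y / s) ∧ Cop π b} ∧
          MP_1a91b9_ntDF.NK 4 (sp m π b) = N} ⊆ {b : Fin n → 𝓞 K | (∀ k, Squarefree (b k)) ∧ MP_1a91b9_ntDF.NK 4 (sp m π b) = N} := by
        rintro b ⟨⟨⟨hbs, _⟩, _⟩, hbN⟩
        exact ⟨hbs, hbN⟩
      refine ⟨hf.subset hsub, (Set.ncard_le_ncard hsub hf).trans ?_⟩
      exact hle)
  have hcount2 : (Nat.card {b : Fin n → 𝓞 K // b ∈ Box K n (Y / s) ∧ Cop π b} : ℝ) ≤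
      (C3 : ℝ) * (Nat.card {N : IntermediateField K (AlgebraicClosure K) // N ∈ Ext K (Gm m) ∧ DiscLe N X} : ℝ) := by
    exact_mod_cast hcount
  have hB1 : (Nat.card (Box K n Y) : ℝ) ≤ C4 * (C2 * (((C3 : ℝ) + 1) *
      (Nat.card {N : IntermediateField K (AlgebraicClosure K) // N ∈ Ext K (Gm m) ∧ DiscLe N X} : ℝ))) := by
    refine hX.trans (mul_le_mul_of_nonneg_left ?_ hC4.le)
    refine (hcop (Y / s)).trans (mul_le_mul_of_nonneg_left ?_ hC2.le)
    refine hcount2.trans (mul_le_mul_of_nonneg_right (by linarith) (Nat.cast_nonneg _))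
  rw [div_mul_eq_mul_div, one_mul, div_le_iff₀ (by positivity)]
  refine hB1.trans (le_of_eq ?_)
  ring

end Pool.Agent.Lib.MP_1a91b9_ntQG
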