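import Pool.Agent.Lib.MP_1a91b9_ntQG.F1
import Pool.Agent.Lib.MP_1a91b9_ntQG.F2

/-!
# MP_1a91b9_nt (the abelian extensions of exponent four by the discriminant): almost all the fields
-/

set_option autoImplicit false

namespace Pool.Agent.Lib.MP_1a91b9_ntQG

open NumberField
open Pool.Agent.Lib.MP_1a91b9_ntDF (DiscLe)
open Pool.Agent.Lib.MP_1a91b9_ntQD (nr)

private theorem F3_split {α : Type*} (E D P : α → Prop) (hf : {N | E N ∧ D N}.Finite) :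
    Nat.card {N // E N ∧ D N} ≤ Nat.card {N // E N ∧ D N ∧ P N} + Nat.card {N // E N ∧ D N ∧ ¬ P N} := by
  have h1 : {N | E N ∧ D N} ⊆ {N | E N ∧ D N ∧ P N} ∪ {N | E N ∧ D N ∧ ¬ P N} := by
    rintro N ⟨h, h'⟩
    by_cases hP : P N
    · exact Or.inl ⟨h, h', hP⟩
    · exact Or.inr ⟨h, h', hP⟩
  have hf1 : {N | E N ∧ D N ∧ P N}.Finite := hf.subset fun N hN => ⟨hN.1, hN.2.1⟩
  have hf2 : {N | E N ∧ D N ∧ ¬ P N}.Finite := hf.subset fun N hN => ⟨hN.1, hN.2.1⟩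
  exact (Set.ncard_le_ncard h1 (hf1.union hf2)).trans (Set.ncard_union_le _ _)

/-- **F3** (easy+). **Almost all the extensions.** Proof: `few_bad` with `ε c`, `many`. -/
theorem almost_all {K : Type} [Field K] [NumberField K] (hK : Module.finrank ℚ K = 2)
    [IsPrincipalIdealRing (𝓞 K)] [Finite (𝓞 K)ˣ] {i : K} (hi : i ^ 2 = -1) {n : ℕ} {m : Fin n → ℕ}
    (hm : ∀ k, m k = 2 ∨ m k = 4) {g : ℕ} (hg : ∏ k, m k = 4 * g) (hg0 : 0 < g)
    (P : IntermediateField K (AlgebraicClosure K) → Prop)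
    (h : ∀ j : Ix K n, ∀ ε : ℝ, 0 < ε → ∀ᶠ Z : ℝ in Filter.atTop,
      (Nat.card {b : Fin n → 𝓞 K // b ∈ Box K n Z ∧ Module.finrank K (QQ j b) = ∏ k, m k ∧ ¬ P (QQ j b)} : ℝ) ≤
        ε * (Nat.card (Box K n Z) : ℝ)) (ε : ℝ) (hε : 0 < ε) :
    ∀ᶠ X : ℝ in Filter.atTop, 1 - ε ≤
      (Nat.card {N : IntermediateField K (AlgebraicClosure K) // N ∈ Ext K (Gm m) ∧ DiscLe N X ∧ P N} : ℝ) /
      (Nat.card {N : IntermediateField K (AlgebraicClosure K) // N ∈ Ext K (Gm m) ∧ DiscLe N X} : ℝ) := by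
  obtain ⟨hfin, hbad⟩ := few_bad hK hi hm hg hg0 P h
  obtain ⟨c, hc, hmany⟩ := many hK hi hm hg hg0 hfin
  have hnf := (Pool.Agent.Lib.MP_1a91b9_ntQD.card_le hK hi).1
  filter_upwards [hbad (ε * c) (mul_pos hε hc), hmany, Filter.eventually_ge_atTop (1 : ℝ)] with X h1 h2 hX
  have hY : (1 : ℝ) ≤ X ^ (1 / (2 * g : ℝ)) := Real.one_le_rpow hX (by positivity)
  have hB : (0 : ℝ) < (Nat.card (Box K n (X ^ (1 / (2 * g : ℝ)))) : ℝ) := by
    exact_mod_cast box_pos hnf n hY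
  have hall : (0 : ℝ) < (Nat.card {N : IntermediateField K (AlgebraicClosure K) //
      N ∈ Ext K (Gm m) ∧ DiscLe N X} : ℝ) := lt_of_lt_of_le (mul_pos hc hB) h2
  have hs := F3_split (fun N : IntermediateField K (AlgebraicClosure K) => N ∈ Ext K (Gm m)) (fun N => DiscLe N X) P
    (hfin X)
  have hs' : (Nat.card {N : IntermediateField K (AlgebraicClosure K) // N ∈ Ext K (Gm m) ∧ DiscLe N X} : ℝ) ≤
      (Nat.card {N : IntermediateField K (AlgebraicClosure K) // N ∈ Ext K (Gm m) ∧ DiscLe N X ∧ P N} : ℝ) +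
        (Nat.card {N : IntermediateField K (AlgebraicClosure K) // N ∈ Ext K (Gm m) ∧ DiscLe N X ∧ ¬ P N} : ℝ) := by
    exact_mod_cast hs
  rw [le_div_iff₀ hall]
  have h3 : ε * c * (Nat.card (Box K n (X ^ (1 / (2 * g : ℝ)))) : ℝ) ≤
      ε * (Nat.card {N : IntermediateField K (AlgebraicClosure K) // N ∈ Ext K (Gm m) ∧ DiscLe N X} : ℝ) := by
    rw [mul_assoc]
    exact mul_le_mul_of_nonneg_left h2 hε.le
  nlinarith [h1, h3, hs']

end Pool.Agent.Lib.MP_1a91b9_ntQG
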