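import Pool.Agent.Lib.MP_1a91b9_ntQG.D0

/-!
# MP_1a91b9_nt (the abelian extensions of exponent four by the discriminant): Kummer theory
-/

set_option autoImplicit false

namespace Pool.Agent.Lib.MP_1a91b9_ntQG

open NumberField
open Pool.Agent.Lib.MP_1a91b9_ntDF (NK Kum)

/-- **K1a** (easy+). Fourth roots `y_i` of the `w_i` generate `NK 4 w` (`i` in `K`: all the fourth roots of `w_i` are
`i^k y_i`; copy of the private `CN_adjoin` in `ntDF/CN.lean` for the root of unity `i` of order four). -/
theorem nk4_adjoin {K : Type} [Field K] {i : K} (hi : i ^ 2 = -1) (h2 : (2 : K) ≠ 0) {n : ℕ} {w : Fin n → K}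
    (hw : ∀ k, w k ≠ 0) {y : Fin n → AlgebraicClosure K}
    (hy : ∀ k, y k ^ 4 = algebraMap K (AlgebraicClosure K) (w k)) :
    NK 4 w = IntermediateField.adjoin K (Set.range y) := by
  refine le_antisymm ?_ ?_
  · rw [NK, IntermediateField.adjoin_le_iff]
    rintro x ⟨k, hx⟩
    have hy0 : y k ≠ 0 := by
      intro h0
      have h1 := hy k
      rw [h0, zero_pow (by norm_num)] at h1
      exact hw k ((algebraMap K (AlgebraicClosure K)).injective (by rw [← h1, map_zero]))
    have hiC : (algebraMap K (AlgebraicClosure K) i) ^ 2 = -1 := by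
      rw [← map_pow, hi, map_neg, map_one]
    have h3 : (x - y k) * (x + y k) * (x - algebraMap K (AlgebraicClosure K) i * y k) *
        (x + algebraMap K (AlgebraicClosure K) i * y k) = 0 := by
      have h4 : (x - y k) * (x + y k) * (x - algebraMap K (AlgebraicClosure K) i * y k) *
          (x + algebraMap K (AlgebraicClosure K) i * y k) =
          (x ^ 2 - y k ^ 2) * (x ^ 2 - (algebraMap K (AlgebraicClosure K) i) ^ 2 * y k ^ 2) := by ring
      rw [h4, hiC]
      have h5 : x ^ 4 = y k ^ 4 := by rw [hx, hy k]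
      linear_combination h5
    have hyk : y k ∈ IntermediateField.adjoin K (Set.range y) :=
      IntermediateField.subset_adjoin K _ ⟨k, rfl⟩
    have hik : algebraMap K (AlgebraicClosure K) i * y k ∈ IntermediateField.adjoin K (Set.range y) :=
      mul_mem (IntermediateField.algebraMap_mem _ _) hyk
    rcases mul_eq_zero.1 h3 with h4 | h4
    · rcases mul_eq_zero.1 h4 with h5 | h5
      · rcases mul_eq_zero.1 h5 with h6 | h6
        · rw [sub_eq_zero.1 h6]
          exact hyk
        · rw [eq_neg_of_add_eq_zero_left h6]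
          exact neg_mem hyk
      · rw [sub_eq_zero.1 h5]
        exact hik
    · rw [eq_neg_of_add_eq_zero_left h4]
      exact neg_mem hik
  · rw [IntermediateField.adjoin_le_iff]
    rintro _ ⟨k, rfl⟩
    exact IntermediateField.subset_adjoin K _ ⟨k, hy k⟩

/-- **K1b** (easy+). `NK 4 w` is a number field generated by fourth roots of the `w_i` (as `nk_kum` in `ntDF/CN.lean`;
finite: `IntermediateField.finiteDimensional_adjoin` or `isAlgebraic`, generated by finitely many integral
elements). -/
theorem nk4_kum {K : Type} [Field K] [NumberField K] {i : K} (hi : i ^ 2 = -1) {n : ℕ} {w : Fin n → K}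
    (hw : ∀ k, w k ≠ 0) :
    FiniteDimensional K (NK 4 w) ∧ NumberField (NK 4 w) ∧ ∃ y : Fin n → NK 4 w, Kum 4 w y := by
  have h1 : ∀ k, ∃ y : AlgebraicClosure K, y ^ 4 = algebraMap K (AlgebraicClosure K) (w k) := fun k =>
    IsAlgClosed.exists_pow_nat_eq _ (by norm_num)
  choose y hy using h1
  have h2 := nk4_adjoin hi two_ne_zero hw hy
  have h3 : FiniteDimensional K (NK 4 w) := by
    rw [h2]
    refine IntermediateField.finiteDimensional_adjoin (S := Set.range y) fun x _ => ?_
    exact Algebra.IsIntegral.isIntegral x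
  have hmem : ∀ k, y k ∈ NK 4 w := fun k => IntermediateField.subset_adjoin K _ ⟨k, hy k⟩
  refine ⟨h3, NumberField.of_module_finite K (NK 4 w), fun k => ⟨y k, hmem k⟩, ⟨fun k => ?_, ?_⟩⟩
  · exact Subtype.ext (hy k)
  · refine IntermediateField.map_injective (NK 4 w).val ?_
    rw [IntermediateField.adjoin_map, ← AlgHom.fieldRange_eq_map, IntermediateField.fieldRange_val]
    have h5 : (NK 4 w).val '' Set.range (fun k => (⟨y k, hmem k⟩ : NK 4 w)) = Set.range y := by
      rw [← Set.range_comp]
      rfl
    rw [h5, h2]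

/-- **K1c** (easy). `NK 4 (a γ⁴) = NK 4 a`. -/
theorem nk4_mul {K : Type} [Field K] {n : ℕ} (a : Fin n → K) {γ : Fin n → K} (hγ : ∀ k, γ k ≠ 0) :
    NK 4 (fun k => a k * γ k ^ 4) = NK 4 a := by
  refine le_antisymm ?_ ?_
  · rw [NK, IntermediateField.adjoin_le_iff]
    rintro x ⟨k, hx⟩
    have hg : algebraMap K (AlgebraicClosure K) (γ k) ≠ 0 := by
      rw [Ne, map_eq_zero]
      exact hγ k
    have h1 : x / algebraMap K (AlgebraicClosure K) (γ k) ∈ NK 4 a := by
      refine IntermediateField.subset_adjoin K _ ⟨k, ?_⟩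
      rw [div_pow, hx, map_mul, map_pow]
      field_simp
    have h2 : x = x / algebraMap K (AlgebraicClosure K) (γ k) * algebraMap K (AlgebraicClosure K) (γ k) := by
      field_simp
    rw [h2]
    exact mul_mem h1 (IntermediateField.algebraMap_mem _ _)
  · rw [NK, IntermediateField.adjoin_le_iff]
    rintro x ⟨k, hx⟩
    have hg : algebraMap K (AlgebraicClosure K) (γ k) ≠ 0 := by
      rw [Ne, map_eq_zero]
      exact hγ k
    have h1 : x * algebraMap K (AlgebraicClosure K) (γ k) ∈ NK 4 (fun k => a k * γ k ^ 4) := by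
      refine IntermediateField.subset_adjoin K _ ⟨k, ?_⟩
      rw [mul_pow, hx, map_mul, map_pow]
    have h2 : x = x * algebraMap K (AlgebraicClosure K) (γ k) / algebraMap K (AlgebraicClosure K) (γ k) := by
      field_simp
    rw [h2]
    exact div_mem h1 (IntermediateField.algebraMap_mem _ _)

end Pool.Agent.Lib.MP_1a91b9_ntQG
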