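import Pool.Agent.Lib.MP_1a91b9_ntQG.K1

/-!
# MP_1a91b9_nt (the abelian extensions of exponent four by the discriminant): Kummer theory
-/

set_option autoImplicit false

namespace Pool.Agent.Lib.MP_1a91b9_ntQG

open NumberField
open Pool.Agent.Lib.MP_1a91b9_ntDF (NK Kum)

/-- The element `i` is a primitive fourth root of unity. -/
private theorem K3_prim {K : Type} [Field K] {i : K} (hi : i ^ 2 = -1) (h2 : (2 : K) ≠ 0) :
    IsPrimitiveRoot i 4 := by
  have h4 : i ^ 4 = 1 := by rw [show i ^ 4 = (i ^ 2) ^ 2 by ring, hi]; norm_num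
  have h1 : (-1 : K) ≠ 1 := fun h => h2 (by linear_combination -h)
  refine IsPrimitiveRoot.mk_of_lt i (by norm_num) h4 ?_
  intro l hl hl4
  interval_cases l
  · rw [pow_one]
    rintro rfl
    rw [one_pow] at hi
    exact h1 hi.symm
  · rw [hi]
    exact h1
  · intro h
    have h5 : i * i ^ 3 = 1 := by rw [← h4]; ring
    rw [h, mul_one] at h5
    rw [h5, one_pow] at hi
    exact h1 hi.symm

/-- The characters with values in `K` separate the elements. -/
private theorem K3_char {G : Type} [Group G] [Finite G] (hc : ∀ a b : G, a * b = b * a)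
    (h4 : ∀ a : G, a ^ 4 = 1) {K : Type} [Field K] {i : K} (hi : i ^ 2 = -1) (h2 : (2 : K) ≠ 0) {a : G}
    (ha : a ≠ 1) : ∃ χ : G →* Kˣ, χ a ≠ 1 := by
  let _ : CommGroup G := { ‹Group G› with mul_comm := hc }
  have e1 : HasEnoughRootsOfUnity K 4 := ⟨⟨i, K3_prim hi h2⟩, rootsOfUnity.isCyclic K 4⟩
  have e2 : Monoid.exponent G ∣ 4 := Monoid.exponent_dvd_of_forall_pow_eq_one h4
  have e3 : HasEnoughRootsOfUnity K (Monoid.exponent G) := HasEnoughRootsOfUnity.of_dvd K e2
  exact CommGroup.exists_apply_ne_one_of_hasEnoughRootsOfUnity G K ha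

/-- An eigenvector for a character of the Galois group. -/
private theorem K3_eigen {K N : Type} [Field K] [Field N] [Algebra K N] [FiniteDimensional K N]
    (χ : (N ≃ₐ[K] N) →* Kˣ) :
    ∃ y : N, y ≠ 0 ∧ ∀ σ : N ≃ₐ[K] N, σ y = algebraMap K N (χ σ) * y := by
  classical
  obtain ⟨f, hf⟩ : ∃ f : (N ≃ₐ[K] N) → (N →* N), ∀ σ a, f σ a = σ a :=
    ⟨fun σ => (σ : N →* N), fun _ _ => rfl⟩
  have hinj : Function.Injective f := by
    intro σ τ h
    ext a
    rw [← hf, ← hf, h]
  have h1 := (linearIndependent_monoidHom N N).comp f hinj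
  rw [Fintype.linearIndependent_iff] at h1
  by_contra hcon
  push Not at hcon
  have h2 := h1 (fun σ => algebraMap K N ((χ σ)⁻¹ : Kˣ)) (by
    funext a
    by_contra hy
    obtain ⟨y, hy'⟩ : ∃ y : N, y = ∑ σ : N ≃ₐ[K] N, algebraMap K N ((χ σ)⁻¹ : Kˣ) * σ a := ⟨_, rfl⟩
    have hy0 : y ≠ 0 := by
      intro h
      apply hy
      rw [Finset.sum_apply, Pi.zero_apply, ← h, hy']
      refine Finset.sum_congr rfl fun σ _ => ?_
      rw [Pi.smul_apply, smul_eq_mul]
      exact congrArg _ (hf σ a)
    obtain ⟨τ, hτ⟩ := hcon y hy0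
    apply hτ
    rw [hy', map_sum, Finset.mul_sum, ← Equiv.sum_comp (Equiv.mulLeft τ)
      (fun σ => algebraMap K N (χ τ) * (algebraMap K N ((χ σ)⁻¹ : Kˣ) * σ a))]
    refine Finset.sum_congr rfl fun σ _ => ?_
    rw [map_mul, AlgEquiv.commutes, Equiv.coe_mulLeft, map_mul, mul_inv, AlgEquiv.mul_apply, Units.val_mul,
      map_mul, ← mul_assoc, ← mul_assoc, ← map_mul, ← Units.val_mul, mul_inv_cancel, Units.val_one, map_one,
      one_mul])
  have h3 := h2 1
  rw [map_one, inv_one, Units.val_one, map_one] at h3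
  exact one_ne_zero h3

/-- A Galois extension with an abelian group of exponent four is generated by the fourth roots. -/
private theorem K3_top {K : Type} [Field K] {i : K} (hi : i ^ 2 = -1) (h2 : (2 : K) ≠ 0) {P : Type} [Field P]
    [Algebra K P] [FiniteDimensional K P] [IsGalois K P] (hc : ∀ σ τ : P ≃ₐ[K] P, σ * τ = τ * σ)
    (h4 : ∀ σ : P ≃ₐ[K] P, σ ^ 4 = 1) :
    IntermediateField.adjoin K {z : P | ∃ c : K, z ^ 4 = algebraMap K P c} = ⊤ := by
  rw [← IsGalois.fixedField_fixingSubgroup
    (IntermediateField.adjoin K {z : P | ∃ c : K, z ^ 4 = algebraMap K P c})]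
  have h1 : (IntermediateField.adjoin K {z : P | ∃ c : K, z ^ 4 = algebraMap K P c}).fixingSubgroup = ⊥ := by
    rw [eq_bot_iff]
    intro σ hσ
    rw [Subgroup.mem_bot]
    by_contra hne
    obtain ⟨χ, hχ⟩ := K3_char hc h4 hi h2 hne
    obtain ⟨y, hy0, hy⟩ := K3_eigen χ
    have hy4 : ∃ c : K, algebraMap K P c = y ^ 4 := by
      refine (IsGalois.mem_range_algebraMap_iff_fixed (F := K) (E := P) (y ^ 4)).2 fun τ => ?_
      rw [map_pow, hy, mul_pow, ← map_pow, ← Units.val_pow_eq_pow_val, ← map_pow, h4, map_one,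
        Units.val_one, map_one, one_mul]
    obtain ⟨c, hc'⟩ := hy4
    rw [IntermediateField.mem_fixingSubgroup_iff] at hσ
    have e1 : σ y = y := hσ _ (IntermediateField.subset_adjoin K _ ⟨c, hc'.symm⟩)
    rw [hy] at e1
    have e2 : algebraMap K P (χ σ) = algebraMap K P 1 := by
      rw [map_one]
      exact mul_right_cancel₀ hy0 (by rw [e1, one_mul])
    exact hχ (Units.ext ((algebraMap K P).injective e2))
  rw [h1, IntermediateField.fixedField_bot]

/-- Two fourth roots of the same element differ by a power of `i`. -/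
private theorem K3_root {K : Type} [Field K] {i : K} (hi : i ^ 2 = -1) {N : Type} [Field N] [Algebra K N]
    {x y : N} (h : x ^ 4 = y ^ 4) : ∃ c : K, c ^ 4 = 1 ∧ x = algebraMap K N c * y := by
  have hI2 : (algebraMap K N i) ^ 2 = -1 := by rw [← map_pow, hi, map_neg, map_one]
  have h3 : (x - y) * (x + y) * ((x - algebraMap K N i * y) * (x + algebraMap K N i * y)) = 0 := by
    have e : (x - y) * (x + y) * ((x - algebraMap K N i * y) * (x + algebraMap K N i * y)) =
      (x ^ 2 - y ^ 2) * (x ^ 2 - (algebraMap K N i) ^ 2 * y ^ 2) := by ring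
    rw [e, hI2]
    linear_combination h
  have hi4 : i ^ 4 = 1 := by rw [show i ^ 4 = (i ^ 2) ^ 2 by ring, hi]; norm_num
  rcases mul_eq_zero.1 h3 with h4 | h4 <;> rcases mul_eq_zero.1 h4 with h5 | h5
  · exact ⟨1, by norm_num, by rw [map_one, one_mul]; exact sub_eq_zero.1 h5⟩
  · exact ⟨-1, by norm_num, by rw [map_neg, map_one, neg_mul, one_mul]; exact eq_neg_of_add_eq_zero_left h5⟩
  · exact ⟨i, hi4, sub_eq_zero.1 h5⟩
  · exact ⟨-i, by rw [neg_pow, hi4]; norm_num, by
      rw [map_neg, neg_mul]; exact eq_neg_of_add_eq_zero_left h5⟩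

/-- The automorphisms are determined by the generators. -/
private theorem K3_ext {K : Type} [Field K] {N : Type} [Field N] [Algebra K N] {n : ℕ} {y : Fin n → N}
    (hy : IntermediateField.adjoin K (Set.range y) = ⊤) {σ τ : N ≃ₐ[K] N} (h : ∀ k, σ (y k) = τ (y k)) :
    σ = τ := by
  refine AlgEquiv.ext fun z => ?_
  have hz : z ∈ IntermediateField.adjoin K (Set.range y) := by
    rw [hy]
    exact IntermediateField.mem_top
  refine IntermediateField.adjoin_induction (F := K) (s := Set.range y) (p := fun z _ => σ z = τ z)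
    ?_ ?_ ?_ ?_ ?_ hz
  · rintro _ ⟨k, rfl⟩
    exact h k
  · intro x
    rw [AlgEquiv.commutes, AlgEquiv.commutes]
  · intro a b _ _ ha hb
    rw [map_add, map_add, ha, hb]
  · intro a _ ha
    rw [map_inv₀, map_inv₀, ha]
  · intro a b _ _ ha hb
    rw [map_mul, map_mul, ha, hb]

/-- **K3a** (medium). A field generated by fourth roots is an abelian extension of exponent four. Proof: normal, as
all the conjugates `i^k y` of the generators are in `N` (`N` is the splitting field of the product of the `X⁴ - w_k`;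
or `Normal` by `normal_iff_forall_map_le` / `IntermediateField.adjoin` stable), separable in characteristic zero;
every `σ` maps `y_k` to `i^c y_k`, so two of them commute on the generators, and `σ⁴` is the identity on them
(`IntermediateField.algHom_ext_of_eq_adjoin`, `AlgEquiv.ext`). -/
theorem kum_gal {K : Type} [Field K] [NumberField K] {i : K} (hi : i ^ 2 = -1) {n : ℕ} {w : Fin n → K}
    {N : Type} [Field N] [NumberField N] [Algebra K N] {y : Fin n → N} (hy : Kum 4 w y) (hw : ∀ k, w k ≠ 0) :
    IsGalois K N ∧ (∀ σ τ : N ≃ₐ[K] N, σ * τ = τ * σ) ∧ ∀ σ : N ≃ₐ[K] N, σ ^ 4 = 1 := by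
  have hI2 : (algebraMap K N i) ^ 2 = -1 := by rw [← map_pow, hi, map_neg, map_one]
  have hfin : FiniteDimensional K N := Module.Finite.of_restrictScalars_finite ℚ K N
  have hnorm : Normal K N := by
    refine ⟨fun z => ?_⟩
    have hz : z ∈ IntermediateField.adjoin K (Set.range y) := by
      rw [hy.top]
      exact IntermediateField.mem_top
    refine IntermediateField.splits_of_mem_adjoin K N ?_ hz
    rintro _ ⟨k, rfl⟩
    refine ⟨Algebra.IsIntegral.isIntegral _, ?_⟩
    have e1 : minpoly K (y k) ∣ Polynomial.X ^ 4 - Polynomial.C (w k) := by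
      refine minpoly.dvd K (y k) ?_
      rw [map_sub, map_pow, Polynomial.aeval_X, Polynomial.aeval_C, hy.pow k, sub_self]
    have e2 : (Polynomial.X ^ 4 - Polynomial.C (w k)).map (algebraMap K N) =
        (Polynomial.X - Polynomial.C (y k)) * (Polynomial.X - Polynomial.C (-(y k))) *
          ((Polynomial.X - Polynomial.C (algebraMap K N i * y k)) *
            (Polynomial.X - Polynomial.C (-(algebraMap K N i * y k)))) := by
      rw [Polynomial.map_sub, Polynomial.map_pow, Polynomial.map_X, Polynomial.map_C, ← hy.pow k]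
      have e3 : (Polynomial.C (algebraMap K N i)) ^ 2 = -1 := by
        rw [← map_pow, hI2, map_neg, map_one]
      rw [map_neg, map_neg, map_mul, map_pow]
      linear_combination (Polynomial.X ^ 2 - Polynomial.C (y k) ^ 2) * Polynomial.C (y k) ^ 2 * e3
    have e3 : ((Polynomial.X ^ 4 - Polynomial.C (w k)).map (algebraMap K N)).Splits := by
      rw [e2]
      exact ((Polynomial.Splits.X_sub_C _).mul (Polynomial.Splits.X_sub_C _)).mul
        ((Polynomial.Splits.X_sub_C _).mul (Polynomial.Splits.X_sub_C _))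
    refine e3.of_dvd ?_ (Polynomial.map_dvd (algebraMap K N) e1)
    rw [e2]
    exact mul_ne_zero (mul_ne_zero (Polynomial.X_sub_C_ne_zero _) (Polynomial.X_sub_C_ne_zero _))
      (mul_ne_zero (Polynomial.X_sub_C_ne_zero _) (Polynomial.X_sub_C_ne_zero _))
  have hσ : ∀ (σ : N ≃ₐ[K] N) (k : Fin n), ∃ c : K, c ^ 4 = 1 ∧ σ (y k) = algebraMap K N c * y k := by
    intro σ k
    refine K3_root hi ?_
    rw [← map_pow, hy.pow k, AlgEquiv.commutes]
  refine ⟨⟨⟩, ?_, ?_⟩
  · intro σ τ
    refine K3_ext hy.top fun k => ?_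
    obtain ⟨c, -, hc⟩ := hσ σ k
    obtain ⟨d, -, hd⟩ := hσ τ k
    rw [AlgEquiv.mul_apply, AlgEquiv.mul_apply, hc, hd, map_mul, map_mul, AlgEquiv.commutes,
      AlgEquiv.commutes, hc, hd]
    ring
  · intro σ
    refine K3_ext hy.top fun k => ?_
    obtain ⟨c, hc4, hc⟩ := hσ σ k
    have e1 : (σ ^ 4) (y k) = (algebraMap K N c) ^ 4 * y k := by
      have e0 : ∀ z : N, σ (algebraMap K N c * z) = algebraMap K N c * σ z := fun z => by
        rw [map_mul, AlgEquiv.commutes]
      rw [pow_succ, pow_succ, pow_succ, pow_one, AlgEquiv.mul_apply, AlgEquiv.mul_apply,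
        AlgEquiv.mul_apply]
      simp only [hc, e0]
      ring
    rw [e1, ← map_pow, hc4, map_one, one_mul, AlgEquiv.one_apply]

/-- **K3b** (medium). The fields between `K` and an abelian extension `N` of exponent four are generated by fourth
roots. Proof: let `P'` be the image of `P` in `N` (`AlgHom.fieldRange` of `Algebra.ofId`/`IsScalarTower.toAlgHom K P N`).
(1) `σ P' ⊆ P'` for all `σ` in the Galois group `Γ` of `N / K`: `P'` is the fixed field of its fixing subgroup, and
`τ σ z = σ τ z = σ z`. (2) For a finite set `S` of elements of `Γ`, every `z` in `P'` is a sum of elements of `P'` which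
are eigenvectors of all the `σ` in `S`: induction (`Finset.induction_on`); for one `σ`: `z = ∑_(j<4) z_j`,
`z_j = (1/4) ∑_(k<4) i^(-jk) σ^k z`, `σ z_j = i^j z_j` (as `σ⁴ = 1`), and `z_j` is an eigenvector of all the elements for
which `z` is one (they commute with `σ`). (3) An eigenvector `z` of all the elements of `Γ` with the eigenvalues `i^j`
has `z⁴` fixed by `Γ`, so `z⁴` in `K` (`IsGalois.mem_bot_iff_fixed` or similar). So the fourth roots of elements of `K`
span `P`. -/
theorem between {K : Type} [Field K] [NumberField K] {i : K} (hi : i ^ 2 = -1) {N : Type} [Field N] [NumberField N]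
    [Algebra K N] [IsGalois K N] (hc : ∀ σ τ : N ≃ₐ[K] N, σ * τ = τ * σ) (h4 : ∀ σ : N ≃ₐ[K] N, σ ^ 4 = 1)
    (P : Type) [Field P] [NumberField P] [Algebra K P] [Algebra P N] [IsScalarTower K P N] :
    IntermediateField.adjoin K {z : P | ∃ c : K, z ^ 4 = algebraMap K P c} = ⊤ := by
  have hfinN : FiniteDimensional K N := Module.Finite.of_restrictScalars_finite ℚ K N
  have hfinP : FiniteDimensional K P := Module.Finite.of_restrictScalars_finite ℚ K P
  have hg : IsGalois K P := by
    obtain ⟨E, hE⟩ : ∃ E : IntermediateField K N, E = (IsScalarTower.toAlgHom K P N).fieldRange := ⟨_, rfl⟩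
    have hn : E.fixingSubgroup.Normal := ⟨fun a ha g => by
      rw [hc g a, mul_assoc, mul_inv_cancel, mul_one]
      exact ha⟩
    have h1 : IsGalois K (IntermediateField.fixedField E.fixingSubgroup) :=
      IsGalois.of_fixedField_normal_subgroup _
    have h2 : IsGalois K E := by
      rw [IsGalois.fixedField_fixingSubgroup] at h1
      exact h1
    rw [hE] at h2
    have e : (IsScalarTower.toAlgHom K P N).fieldRange ≃ₐ[K] P :=
      (AlgEquiv.ofInjectiveField (IsScalarTower.toAlgHom K P N)).symm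
    exact IsGalois.of_algEquiv e
  have hs : Function.Surjective (AlgEquiv.restrictNormalHom (F := K) (K₁ := N) P) :=
    AlgEquiv.restrictNormalHom_surjective N
  refine K3_top hi two_ne_zero ?_ ?_
  · intro σ τ
    obtain ⟨σ', rfl⟩ := hs σ
    obtain ⟨τ', rfl⟩ := hs τ
    rw [← map_mul, hc, map_mul]
  · intro σ
    obtain ⟨σ', rfl⟩ := hs σ
    rw [← map_pow, h4, map_one]

end Pool.Agent.Lib.MP_1a91b9_ntQG
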