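import Pool.Agent.Lib.MP_1a91b9_ntQG.K1

/-!
# MP_1a91b9_nt (the abelian extensions of exponent four by the discriminant): Kummer theory
-/

set_option autoImplicit false

namespace Pool.Agent.Lib.MP_1a91b9_ntQG

open NumberField
open Pool.Agent.Lib.MP_1a91b9_ntDF (NK Kum)

private theorem K4_eigen {K N : Type} [Field K] [Field N] [Algebra K N] [FiniteDimensional K N]
    (χ : (N ≃ₐ[K] N) →* Kˣ) :
    ∃ y : N, y ≠ 0 ∧ ∀ σ : N ≃ₐ[K] N, σ y = algebraMap K N (χ σ) * y := by
  classical
  obtain ⟨f, hf⟩ : ∃ f : (N ≃ₐ[K] N) → (N →* N), ∀ σ a, f σ a = σ a :=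
    ⟨fun σ => (σ : N →* N), fun _ _ => rfl⟩
  have hinj : Function.Injective f := by
    intro σ τ h
    ext a
    rw [← hf, ← hf, h]
  have h1 := (linearIndependent_monoidHom N N).comp f hinj
  rw [Fintype.linearIndependent_iff] at h1
  by_contra hcon
  push Not at hcon
  have h2 := h1 (fun σ => algebraMap K N ((χ σ)⁻¹ : Kˣ)) (by
    funext a
    by_contra hy
    obtain ⟨y, hy'⟩ : ∃ y : N, y = ∑ σ : N ≃ₐ[K] N, algebraMap K N ((χ σ)⁻¹ : Kˣ) * σ a := ⟨_, rfl⟩
    have hy0 : y ≠ 0 := by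
      intro h
      apply hy
      rw [Finset.sum_apply, Pi.zero_apply, ← h, hy']
      refine Finset.sum_congr rfl fun σ _ => ?_
      rw [Pi.smul_apply, smul_eq_mul]
      exact congrArg _ (hf σ a)
    obtain ⟨τ, hτ⟩ := hcon y hy0
    apply hτ
    rw [hy', map_sum, Finset.mul_sum, ← Equiv.sum_comp (Equiv.mulLeft τ)
      (fun σ => algebraMap K N (χ τ) * (algebraMap K N ((χ σ)⁻¹ : Kˣ) * σ a))]
    refine Finset.sum_congr rfl fun σ _ => ?_
    rw [map_mul, AlgEquiv.commutes, Equiv.coe_mulLeft, map_mul, mul_inv, AlgEquiv.mul_apply, Units.val_mul,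
      map_mul, ← mul_assoc, ← mul_assoc, ← map_mul, ← Units.val_mul, mul_inv_cancel, Units.val_one, map_one,
      one_mul])
  have h3 := h2 1
  rw [map_one, inv_one, Units.val_one, map_one] at h3
  exact one_ne_zero h3

private theorem K4_char {K : Type} [Field K] [CharZero K] {i : K} (hi : i ^ 2 = -1) {m : ℕ} (hm : m = 2 ∨ m = 4) :
    ∃ χ : Multiplicative (ZMod m) →* Kˣ, Function.Injective χ ∧ ∀ a, (χ a) ^ 4 = 1 := by
  have hprim : IsPrimitiveRoot i 4 := by
    have h4 : i ^ 4 = 1 := by rw [show i ^ 4 = (i ^ 2) ^ 2 by ring, hi]; norm_num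
    refine IsPrimitiveRoot.mk_of_lt i (by norm_num) h4 ?_
    intro l hl hl4
    interval_cases l
    · rw [pow_one]
      rintro rfl
      norm_num at hi
    · rw [hi]
      norm_num
    · intro h
      have h5 : i * i ^ 3 = 1 := by rw [← h4]; ring
      rw [h, mul_one] at h5
      rw [h5] at hi
      norm_num at hi
  obtain ⟨ζ, hζ⟩ : ∃ ζ : K, IsPrimitiveRoot ζ m := by
    rcases hm with rfl | rfl
    · exact ⟨i ^ 2, hprim.pow (by norm_num) (by norm_num)⟩
    · exact ⟨i, hprim⟩
  have hm0 : m ≠ 0 := by rcases hm with rfl | rfl <;> norm_num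
  have hm4 : m ∣ 4 := by rcases hm with rfl | rfl <;> norm_num
  have : NeZero m := ⟨hm0⟩
  obtain ⟨u, hu⟩ : ∃ u : Kˣ, (u : K) = ζ := ⟨Units.mk0 ζ (hζ.ne_zero hm0), rfl⟩
  have hup : IsPrimitiveRoot u m := by
    rw [← IsPrimitiveRoot.coe_units_iff, hu]
    exact hζ
  refine ⟨AddMonoidHom.toMultiplicativeLeft (ZMod.lift m ⟨zmultiplesHom (Additive Kˣ) (Additive.ofMul u), ?_⟩), ?_, ?_⟩
  · rw [zmultiplesHom_apply, natCast_zsmul, ← ofMul_pow, hup.pow_eq_one]
    rfl
  · rw [AddMonoidHom.coe_toMultiplicativeLeft]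
    refine Additive.toMul.injective.comp (Function.Injective.comp ?_ Multiplicative.toAdd.injective)
    rw [ZMod.lift_injective]
    intro k hk
    have h1 : u ^ k = 1 := by
      have h2 : Additive.ofMul (u ^ k) = 0 := by
        rw [ofMul_zpow]
        exact hk
      exact Additive.ofMul.injective h2
    rw [hup.zpow_eq_one_iff_dvd] at h1
    rwa [ZMod.intCast_zmod_eq_zero_iff_dvd]
  · intro a
    rw [← map_pow]
    have h1 : a ^ 4 = 1 := by
      have h2 : a ^ 4 = Multiplicative.ofAdd ((4 : ℕ) • Multiplicative.toAdd a) := rfl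
      have h3 : ((4 : ℕ) : ZMod m) = 0 := (ZMod.natCast_eq_zero_iff 4 m).2 hm4
      rw [h2, nsmul_eq_mul, h3, zero_mul]
      rfl
    rw [h1, map_one]

open IntermediateField in
private theorem K4_gen {K : Type} [Field K] [CharZero K] {i : K} (hi : i ^ 2 = -1) {n : ℕ} {m : Fin n → ℕ}
    (hm : ∀ j, m j = 2 ∨ m j = 4) {N : IntermediateField K (AlgebraicClosure K)} [FiniteDimensional K N]
    [IsGalois K N] (φ : (N ≃ₐ[K] N) ≃* ((j : Fin n) → Multiplicative (ZMod (m j)))) :
    ∃ c : Fin n → K, (∀ j, c j ≠ 0) ∧ N = NK 4 c := by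
  classical
  choose χ hχ hχ4 using fun j => K4_char (K := K) hi (hm j)
  choose y hy0 hy using fun j => K4_eigen (K := K) (N := N)
    (((χ j).comp (Pi.evalMonoidHom _ j)).comp φ.toMonoidHom)
  have hy' : ∀ j (σ : N ≃ₐ[K] N), σ (y j) = algebraMap K N (χ j (φ σ j)) * y j := fun j σ => hy j σ
  have hc : ∀ j, ∃ c : K, algebraMap K N c = y j ^ 4 := by
    intro j
    refine (IsGalois.mem_range_algebraMap_iff_fixed (F := K) (E := N) (y j ^ 4)).2 fun σ => ?_
    rw [map_pow, hy', mul_pow, ← map_pow, ← Units.val_pow_eq_pow_val, hχ4, Units.val_one, map_one, one_mul]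
  choose c hc using hc
  have htop : adjoin K (Set.range y) = ⊤ := by
    rw [← IsGalois.fixedField_fixingSubgroup (adjoin K (Set.range y))]
    have h1 : (adjoin K (Set.range y)).fixingSubgroup = ⊥ := by
      rw [eq_bot_iff]
      intro σ hσ
      rw [Subgroup.mem_bot]
      apply φ.injective
      rw [map_one]
      funext j
      apply hχ j
      rw [Pi.one_apply, map_one]
      have h2 : σ (y j) = y j := by
        rw [IntermediateField.mem_fixingSubgroup_iff] at hσ
        exact hσ _ (subset_adjoin K _ ⟨j, rfl⟩)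
      rw [hy'] at h2
      have h3 : algebraMap K N (χ j (φ σ j)) = algebraMap K N 1 := by
        rw [map_one]
        exact mul_right_cancel₀ (hy0 j) (by rw [h2, one_mul])
      exact Units.ext ((algebraMap K N).injective h3)
    rw [h1, IntermediateField.fixedField_bot]
  refine ⟨c, fun j h0 => ?_, ?_⟩
  · have h1 := hc j
    rw [h0, map_zero] at h1
    exact pow_ne_zero 4 (hy0 j) h1.symm
  · have hyc : ∀ j, ((y j : N) : AlgebraicClosure K) ^ 4 = algebraMap K (AlgebraicClosure K) (c j) := by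
      intro j
      have h1 := congrArg (fun t : N => (t : AlgebraicClosure K)) (hc j)
      exact h1.symm
    refine le_antisymm ?_ ?_
    · have h1 : (adjoin K (Set.range y)).map N.val = N := by
        rw [htop, ← AlgHom.fieldRange_eq_map, IntermediateField.fieldRange_val]
      rw [← h1, IntermediateField.adjoin_map, adjoin_le_iff]
      rintro _ ⟨_, ⟨j, rfl⟩, rfl⟩
      exact subset_adjoin K _ ⟨j, hyc j⟩
    · rw [NK, adjoin_le_iff]
      rintro x ⟨j, hx⟩
      have hy1 : ((y j : N) : AlgebraicClosure K) ≠ 0 := fun h => hy0 j (Subtype.ext h)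
      have hmem : ((y j : N) : AlgebraicClosure K) ∈ N := (y j).2
      have hI : algebraMap K (AlgebraicClosure K) i ∈ N := N.algebraMap_mem i
      have hI2 : (algebraMap K (AlgebraicClosure K) i) ^ 2 = -1 := by rw [← map_pow, hi, map_neg, map_one]
      have h2 : x ^ 4 = ((y j : N) : AlgebraicClosure K) ^ 4 := by rw [hx, hyc]
      have h3 : (x - (y j : N)) * (x + (y j : N)) * ((x - algebraMap K _ i * (y j : N)) *
          (x + algebraMap K _ i * (y j : N))) = 0 := by
        have : (x - (y j : N)) * (x + (y j : N)) * ((x - algebraMap K _ i * (y j : N)) *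
          (x + algebraMap K _ i * (y j : N))) = (x ^ 2 - (y j : N) ^ 2) * (x ^ 2 -
            (algebraMap K (AlgebraicClosure K) i) ^ 2 * (y j : N) ^ 2) := by ring
        rw [this, hI2]
        linear_combination h2
      rcases mul_eq_zero.1 h3 with h4 | h4 <;> rcases mul_eq_zero.1 h4 with h5 | h5
      · rw [sub_eq_zero.1 h5]; exact hmem
      · rw [eq_neg_of_add_eq_zero_left h5]; exact neg_mem hmem
      · rw [sub_eq_zero.1 h5]; exact mul_mem hI hmem
      · rw [eq_neg_of_add_eq_zero_left h5]; exact neg_mem (mul_mem hI hmem)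

/-- **K4** (medium+). **The extensions with the group `∏ ℤ/m_i` are generated by fourth roots of `n` elements.**
Proof: `φ : Gal(N/K) ≃* ∏ ℤ/m_k`; `χ_k(σ) = ζ_k ^ (φ(σ)_k)` in `Kˣ`, `ζ_k = i` if `m_k = 4`, `-1` if `m_k = 2`, is a
homomorphism. By the linear independence of the automorphisms (`linearIndependent_monoidHom`) there is `z` with
`y_k := ∑_σ χ_k(σ)⁻¹ σ(z) ≠ 0`; `σ(y_k) = χ_k(σ) y_k`, so `y_k⁴` is fixed, `= w_k` in `K`, `w_k ≠ 0`. An element `σ` which
fixes all the `y_k` has `χ_k(σ) = 1` for all `k`, so `φ(σ) = 1`, `σ = 1`: so `K(y_0, ..) = N` (Galois correspondence: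
the fixing subgroup of `K(y)` is trivial). `N = NK 4 w` by `nk4_adjoin`. The degree is the order of the group
(`IsGalois.card_aut_eq_finrank`, `Nat.card`). -/
theorem ext_gen {K : Type} [Field K] [NumberField K] {i : K} (hi : i ^ 2 = -1) {n : ℕ} {m : Fin n → ℕ}
    (hm : ∀ k, m k = 2 ∨ m k = 4) {N : IntermediateField K (AlgebraicClosure K)} (hN : N ∈ Ext K (Gm m)) :
    Module.finrank K N = ∏ k, m k ∧ ∃ w : Fin n → K, (∀ k, w k ≠ 0) ∧ N = NK 4 w := by
  obtain ⟨hG, ⟨φ⟩⟩ := hN
  have hne : ∀ k, NeZero (m k) := fun k => ⟨by rcases hm k with h | h <;> rw [h] <;> norm_num⟩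
  have hfin : ∀ k, Finite (Multiplicative (ZMod (m k))) := fun k => inferInstance
  have hfG : Finite (Gm m) := inferInstance
  have hfA : Finite (N ≃ₐ[K] N) := Finite.of_equiv _ φ.symm.toEquiv
  have hfd : FiniteDimensional K N := IsGalois.finiteDimensional_of_finite K N
  refine ⟨?_, K4_gen hi hm φ⟩
  rw [← IsGalois.card_aut_eq_finrank, Nat.card_congr φ.toEquiv, Nat.card_pi]
  refine Finset.prod_congr rfl fun k _ => ?_
  rw [Nat.card_congr Multiplicative.toAdd, Nat.card_zmod]

end Pool.Agent.Lib.MP_1a91b9_ntQG
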