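import Pool.Agent.Lib.MP_1a91b9_ntQG.K3

/-!
# MP_1a91b9_nt (the abelian extensions of exponent four by the discriminant): Kummer theory
-/

set_option autoImplicit false

namespace Pool.Agent.Lib.MP_1a91b9_ntQG

open NumberField
open Pool.Agent.Lib.MP_1a91b9_ntDF (NK Kum)

private theorem K5_prim {K : Type} [Field K] [NumberField K] {i : K} (hi : i ^ 2 = -1) :
    IsPrimitiveRoot i 4 := by
  have h1 : orderOf i = 2 ^ (1 + 1) := by
    refine orderOf_eq_prime_pow ?_ ?_
    · rw [pow_one, hi]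
      norm_num
    · rw [show (2 : ℕ) ^ (1 + 1) = 2 * 2 by norm_num, pow_mul, hi]
      norm_num
  have h2 := IsPrimitiveRoot.orderOf i
  rw [h1] at h2
  exact h2

private theorem K5_prim' {K : Type} [Field K] [NumberField K] {i : K} (hi : i ^ 2 = -1) {m : ℕ}
    (hm : m = 2 ∨ m = 4) : ∃ ζ : K, IsPrimitiveRoot ζ m := by
  rcases hm with rfl | rfl
  · exact ⟨-1, IsPrimitiveRoot.neg_one 0 (by norm_num)⟩
  · exact ⟨i, K5_prim hi⟩

private theorem K5_cyc {K : Type} [Field K] [NumberField K] {i : K} (hi : i ^ 2 = -1) {m : ℕ}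
    (hm : m = 2 ∨ m = 4) : Nat.card (rootsOfUnity m K) = m ∧
      Nonempty (rootsOfUnity m K ≃* Multiplicative (ZMod m)) := by
  have hne : NeZero m := ⟨by rcases hm with rfl | rfl <;> norm_num⟩
  obtain ⟨ζ, hζ⟩ := K5_prim' hi hm
  have h1 : Nat.card (rootsOfUnity m K) = m := hζ.card_rootsOfUnity
  have h2 : Nat.card (Multiplicative (ZMod m)) = m := by
    rw [Nat.card_congr Multiplicative.toAdd, Nat.card_zmod]
  exact ⟨h1, ⟨mulEquivOfCyclicCardEq (h1.trans h2.symm)⟩⟩

/-- **K5** (medium+). **The group from the radicands.** The radicands `w_k` are squares for `m_k = 2`, and they are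
independent: if `∏ w_k ^ c_k` is a fourth power in `K` then `m_k ∣ c_k` for all `k`. Then `NK 4 w` has the Galois group
`∏ ℤ/m_k`. Proof: `nk4_kum`, `kum_gal`: `y_k⁴ = w_k`; for `m_k = 2` `y_k⁴ = d_k²`, so `y_k² = ± d_k` is in `K`. So
`σ(y_k) = ζ_k ^ a y_k`, `ζ_k = i` (`m_k = 4`) or `-1` (`m_k = 2`), `a` in `ℤ/m_k`: an injective homomorphism
`Gal(N/K) → ∏ ℤ/m_k`. It is surjective as the order of the group is `[N : K] ≥ ∏ m_k`: the monomials
`y^c = ∏ y_k ^ c_k`, `0 ≤ c_k < m_k`, are linearly independent over `K`: they are eigenvectors of the group for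
different characters (if the characters of `y^c` and `y^c'` are equal then `y^c / y^c'` is fixed, so in `K`, and its
fourth power is `∏ w_k ^ (c_k - c'_k)`; multiply by `∏ w_k^(4 c'_k)` to have natural exponents
`c_k + 3 c'_k`; so `m_k ∣ c_k + 3 c'_k`, so `m_k ∣ c_k - c'_k`, `c = c'`), by induction over the number of the
terms as for `linearIndependent_monoidHom` (or: `Module.End.eigenvectors_linearIndependent` for a family of
commuting maps; or count: the `∏ m_k` different characters of `Gal(N/K)` with values in `Kˣ` are at most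
`#Gal(N/K)` by `linearIndependent_monoidHom` in the space of functions on the group). -/
theorem mem_ext {K : Type} [Field K] [NumberField K] {i : K} (hi : i ^ 2 = -1) {n : ℕ} {m : Fin n → ℕ}
    (hm : ∀ k, m k = 2 ∨ m k = 4) {w : Fin n → K} (hw : ∀ k, w k ≠ 0) (h2 : ∀ k, m k = 2 → IsSquare (w k))
    (hind : ∀ c : Fin n → ℕ, (∃ z : K, ∏ k, w k ^ c k = z ^ 4) → ∀ k, m k ∣ c k) :
    NK 4 w ∈ Ext K (Gm m) ∧ Module.finrank K (NK 4 w) = ∏ k, m k := by
  obtain ⟨hfd, hnf, y, hy⟩ := nk4_kum hi hw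
  obtain ⟨hG, -, -⟩ := kum_gal hi hy hw
  have hprim := K5_prim hi
  have hinj : Function.Injective (algebraMap K (NK 4 w)) := (algebraMap K (NK 4 w)).injective
  have hy0 : ∀ k, y k ≠ 0 := by
    intro k h0
    have h1 := hy.pow k
    rw [h0, zero_pow (by norm_num)] at h1
    exact hw k (hinj (by rw [← h1, map_zero]))
  have he : ∀ (σ : NK 4 w ≃ₐ[K] NK 4 w) (k : Fin n), ∃ a : Kˣ,
      σ (y k) = algebraMap K (NK 4 w) a * y k := by
    intro σ k
    have h1 : (σ (y k) / y k) ^ 4 = 1 := by
      rw [div_pow, ← map_pow, hy.pow, σ.commutes]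
      rw [div_self]
      intro h0
      exact hw k (hinj (by rw [h0, map_zero]))
    obtain ⟨j, -, hj⟩ := (hprim.map_of_injective hinj).eq_pow_of_pow_eq_one h1
    have hi0 : i ≠ 0 := by
      intro h0
      rw [h0] at hi
      norm_num at hi
    refine ⟨Units.mk0 i hi0 ^ j, ?_⟩
    rw [Units.val_pow_eq_pow_val, Units.val_mk0, map_pow, hj, div_mul_cancel₀ _ (hy0 k)]
  choose e he using he
  have huniq : ∀ {k : Fin n} {a b : Kˣ}, algebraMap K (NK 4 w) a * y k =
      algebraMap K (NK 4 w) b * y k → a = b := by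
    intro k a b hab
    exact Units.ext (hinj (mul_right_cancel₀ (hy0 k) hab))
  have hemul : ∀ σ τ k, e (σ * τ) k = e σ k * e τ k := by
    intro σ τ k
    refine huniq (k := k) ?_
    rw [← he, AlgEquiv.mul_apply, he τ k, map_mul, σ.commutes, he σ k, Units.val_mul, map_mul]
    ring
  have hem : ∀ σ k, e σ k ^ m k = 1 := by
    intro σ k
    have hsq : ∃ a : K, y k ^ m k = algebraMap K (NK 4 w) a := by
      rcases hm k with h | h
      · obtain ⟨d, hd⟩ := h2 k h
        have h3 : (y k ^ 2 - algebraMap K (NK 4 w) d) * (y k ^ 2 + algebraMap K (NK 4 w) d) = 0 := by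
          have h4 := hy.pow k
          rw [hd, map_mul] at h4
          linear_combination h4
        rw [h]
        rcases mul_eq_zero.mp h3 with h5 | h5
        · exact ⟨d, sub_eq_zero.mp h5⟩
        · exact ⟨-d, by rw [map_neg]; exact eq_neg_of_add_eq_zero_left h5⟩
      · rw [h]
        exact ⟨w k, hy.pow k⟩
    obtain ⟨a, ha⟩ := hsq
    have h3 : σ (y k ^ m k) = y k ^ m k := by rw [ha, σ.commutes]
    rw [map_pow, he, mul_pow] at h3
    have h4 : algebraMap K (NK 4 w) ((e σ k : K) ^ m k) = 1 := by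
      rw [map_pow]
      exact mul_right_cancel₀ (pow_ne_zero _ (hy0 k)) (h3.trans (one_mul _).symm)
    refine Units.ext (hinj ?_)
    rw [Units.val_pow_eq_pow_val, h4, Units.val_one, map_one]
  have he4 : ∀ σ k, e σ k ^ 4 = 1 := by
    intro σ k
    rcases hm k with h | h
    · have h3 := hem σ k
      rw [h] at h3
      rw [show (4 : ℕ) = 2 * 2 by norm_num, pow_mul, h3, one_pow]
    · have h3 := hem σ k
      rwa [h] at h3
  -- the homomorphism to the roots of unity
  let Φ : (NK 4 w ≃ₐ[K] NK 4 w) →* ((k : Fin n) → rootsOfUnity (m k) K) :=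
    { toFun := fun σ k => ⟨e σ k, (mem_rootsOfUnity _ _).mpr (hem σ k)⟩
      map_one' := by
        funext k
        refine Subtype.ext (huniq (k := k) ?_)
        show algebraMap K (NK 4 w) (e 1 k : K) * y k = algebraMap K (NK 4 w) ((1 : Kˣ) : K) * y k
        rw [← he, Units.val_one, map_one, one_mul]
        rfl
      map_mul' := by
        intro σ τ
        funext k
        exact Subtype.ext (hemul σ τ k) }
  have hΦ : Function.Injective Φ := by
    rw [injective_iff_map_eq_one]
    intro σ hσ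
    have h3 : ∀ k, σ (y k) = y k := by
      intro k
      have h4 : e σ k = 1 := congrArg Subtype.val (congrFun hσ k)
      rw [he, h4, Units.val_one, map_one, one_mul]
    have h5 : IntermediateField.adjoin K (Set.range y) ≤
        IntermediateField.fixedField (Subgroup.zpowers σ) := by
      rw [IntermediateField.adjoin_le_iff]
      rintro _ ⟨k, rfl⟩
      rw [SetLike.mem_coe, IntermediateField.mem_fixedField_iff]
      intro f hf
      obtain ⟨j, rfl⟩ := Subgroup.mem_zpowers_iff.mp hf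
      have h6 : Subgroup.zpowers σ ≤ MulAction.stabilizer (NK 4 w ≃ₐ[K] NK 4 w) (y k) := by
        rw [Subgroup.zpowers_le]
        exact h3 k
      exact h6 hf
    rw [hy.top] at h5
    refine AlgEquiv.ext fun x => ?_
    exact (IntermediateField.mem_fixedField_iff _ _).mp (h5 (IntermediateField.mem_top (x := x))) σ
      (Subgroup.mem_zpowers σ)
  -- the monomials
  let χ : ((k : Fin n) → Fin (m k)) → ((NK 4 w ≃ₐ[K] NK 4 w) →* NK 4 w) := fun c =>
    { toFun := fun σ => algebraMap K (NK 4 w) (((∏ k, e σ k ^ (c k : ℕ) : Kˣ)) : K)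
      map_one' := by
        have h3 : ∀ k, e 1 k = 1 := fun k => congrArg Subtype.val (congrFun (map_one Φ) k)
        simp only [h3, one_pow, Finset.prod_const_one, Units.val_one, map_one]
      map_mul' := by
        intro σ τ
        simp only [hemul, mul_pow, Finset.prod_mul_distrib, Units.val_mul, map_mul] }
  have hact : ∀ (σ : NK 4 w ≃ₐ[K] NK 4 w) (c : (k : Fin n) → ℕ),
      σ (∏ k, y k ^ c k) = algebraMap K (NK 4 w) (((∏ k, e σ k ^ c k : Kˣ)) : K) *
        ∏ k, y k ^ c k := by
    intro σ c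
    rw [map_prod, Units.coe_prod, map_prod, ← Finset.prod_mul_distrib]
    refine Finset.prod_congr rfl fun k _ => ?_
    rw [map_pow, he, mul_pow, Units.val_pow_eq_pow_val, map_pow]
  have hχ : Function.Injective χ := by
    intro c c' hcc
    have h3 : ∀ σ, (∏ k, e σ k ^ (c k : ℕ) : Kˣ) = ∏ k, e σ k ^ (c' k : ℕ) := by
      intro σ
      exact Units.ext (hinj (DFunLike.congr_fun hcc σ))
    have h4 : ∀ σ : NK 4 w ≃ₐ[K] NK 4 w,
        σ (∏ k, y k ^ ((c k : ℕ) + 3 * (c' k : ℕ))) = ∏ k, y k ^ ((c k : ℕ) + 3 * (c' k : ℕ)) := by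
      intro σ
      rw [hact]
      have h5 : (∏ k, e σ k ^ ((c k : ℕ) + 3 * (c' k : ℕ)) : Kˣ) = 1 := by
        have h6 : (∏ k, e σ k ^ ((c k : ℕ) + 3 * (c' k : ℕ)) : Kˣ) =
            (∏ k, e σ k ^ (c' k : ℕ)) ^ 4 := by
          simp only [pow_add, Finset.prod_mul_distrib, h3 σ]
          rw [← Finset.prod_mul_distrib, ← Finset.prod_pow]
          refine Finset.prod_congr rfl fun k _ => ?_
          rw [← pow_mul, ← pow_add]
          congr 1
          ring
        rw [h6, ← Finset.prod_pow]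
        refine Finset.prod_eq_one fun k _ => ?_
        rw [← pow_mul, mul_comm, pow_mul, he4, one_pow]
      rw [h5, Units.val_one, map_one, one_mul]
    obtain ⟨z, hz⟩ := (IsGalois.mem_range_algebraMap_iff_fixed _).mpr h4
    have h5 : ∏ k, w k ^ ((c k : ℕ) + 3 * (c' k : ℕ)) = z ^ 4 := by
      refine hinj ?_
      rw [map_pow, hz, map_prod, ← Finset.prod_pow]
      refine Finset.prod_congr rfl fun k _ => ?_
      rw [map_pow, ← hy.pow, ← pow_mul, ← pow_mul, mul_comm]
    have h6 := hind _ ⟨z, h5⟩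
    funext k
    have h7 := h6 k
    have h8 := (c k).isLt
    have h9 := (c' k).isLt
    refine Fin.ext ?_
    have h10 : ∀ {a b M : ℕ}, (M = 2 ∨ M = 4) → M ∣ a + 3 * b → a < M → b < M → a = b := by
      intro a b M hM hd ha hb
      rcases hM with rfl | rfl
      · omega
      · omega
    exact h10 (hm k) h7 h8 h9
  have hlin : LinearIndependent K (fun c : (k : Fin n) → Fin (m k) => ∏ k, y k ^ (c k : ℕ)) := by
    rw [Fintype.linearIndependent_iff]
    intro g hg
    have h3 : LinearIndependent (NK 4 w)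
        (fun c : (k : Fin n) → Fin (m k) => ((χ c : (NK 4 w ≃ₐ[K] NK 4 w) →* NK 4 w) :
          (NK 4 w ≃ₐ[K] NK 4 w) → NK 4 w)) :=
      (linearIndependent_monoidHom (NK 4 w ≃ₐ[K] NK 4 w) (NK 4 w)).comp χ hχ
    rw [Fintype.linearIndependent_iff] at h3
    have h4 := h3 (fun c => algebraMap K (NK 4 w) (g c) * ∏ k, y k ^ (c k : ℕ)) (by
      funext σ
      have h5 := congrArg σ hg
      rw [map_zero, map_sum] at h5
      rw [Finset.sum_apply, Pi.zero_apply, ← h5]
      refine Finset.sum_congr rfl fun c _ => ?_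
      have h6 : σ (g c • ∏ k, y k ^ (c k : ℕ)) = algebraMap K (NK 4 w) (g c) *
          (algebraMap K (NK 4 w) (((∏ k, e σ k ^ (c k : ℕ) : Kˣ)) : K) * ∏ k, y k ^ (c k : ℕ)) := by
        rw [Algebra.smul_def, map_mul, σ.commutes, hact σ fun k => (c k : ℕ)]
      rw [h6]
      show (algebraMap K (NK 4 w) (g c) * ∏ k, y k ^ (c k : ℕ)) *
        algebraMap K (NK 4 w) (((∏ k, e σ k ^ (c k : ℕ) : Kˣ)) : K) = _
      ring)
    intro c
    have h5 := h4 c
    rcases mul_eq_zero.mp h5 with h6 | h6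
    · exact hinj (by rw [h6, map_zero])
    · exact absurd h6 (Finset.prod_ne_zero_iff.mpr fun k _ => pow_ne_zero _ (hy0 k))
  have hge : ∏ k, m k ≤ Module.finrank K (NK 4 w) := by
    have h3 := hlin.fintype_card_le_finrank
    rwa [Fintype.card_pi, Finset.prod_congr rfl fun k _ => Fintype.card_fin (m k)] at h3
  have hcard : Nat.card (NK 4 w ≃ₐ[K] NK 4 w) = Module.finrank K (NK 4 w) :=
    IsGalois.card_aut_eq_finrank K (NK 4 w)
  have hne : ∀ k, NeZero (m k) := fun k => ⟨by rcases hm k with h | h <;> rw [h] <;> norm_num⟩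
  have hcr : Nat.card ((k : Fin n) → rootsOfUnity (m k) K) = ∏ k, m k := by
    rw [Nat.card_pi]
    exact Finset.prod_congr rfl fun k _ => (K5_cyc hi (hm k)).1
  have hbij : Function.Bijective Φ :=
    hΦ.bijective_of_nat_card_le (by rw [hcr, hcard]; exact hge)
  have hfin : Module.finrank K (NK 4 w) = ∏ k, m k := by
    rw [← hcard, ← hcr]
    exact Nat.card_congr (Equiv.ofBijective Φ hbij)
  refine ⟨⟨hG, ⟨(MulEquiv.ofBijective Φ hbij).trans
    (MulEquiv.piCongrRight fun k => (K5_cyc hi (hm k)).2.some)⟩⟩, hfin⟩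

end Pool.Agent.Lib.MP_1a91b9_ntQG
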