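import Pool.Agent.Lib.MP_1a91b9_ntQG.D0

/-!
# MP_1a91b9_nt (the abelian extensions of exponent four by the discriminant): the parameters
-/

set_option autoImplicit false

namespace Pool.Agent.Lib.MP_1a91b9_ntQG

open NumberField UniqueFactorizationMonoid

section

variable {R : Type} [CommRing R] [IsDomain R] [UniqueFactorizationMonoid R]

private theorem P1_rp {P Q : R} (hP : Prime P) (hQ : Prime Q) (h : ¬ Associated P Q) : IsRelPrime P Q := by
  rw [hP.irreducible.isRelPrime_iff_not_dvd]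
  exact fun h' => h (hP.associated_of_dvd hQ h')

private theorem P1_sqf (S : Finset R) (hp : ∀ P ∈ S, Prime P)
    (hna : ∀ P ∈ S, ∀ Q ∈ S, P ≠ Q → ¬ Associated P Q) : Squarefree (∏ P ∈ S, P) := by
  classical
  refine Finset.squarefree_prod_of_pairwise_isCoprime ?_ fun P hP => (hp P hP).squarefree
  intro P hP Q hQ hPQ
  exact P1_rp (hp P hP) (hp Q hQ) (hna P hP Q hQ hPQ)

private theorem P1_rpp (S T : Finset R) (hp : ∀ P ∈ S, Prime P) (hq : ∀ P ∈ T, Prime P)
    (hna : ∀ P ∈ S, ∀ Q ∈ T, ¬ Associated P Q) : IsRelPrime (∏ P ∈ S, P) (∏ P ∈ T, P) := by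
  classical
  exact IsRelPrime.prod_left fun P hP => IsRelPrime.prod_right fun Q hQ =>
    P1_rp (hp P hP) (hq Q hQ) (hna P hP Q hQ)

/-- The factorization of a tuple. -/
private theorem P1_fac {n : ℕ} (c : Fin n → R) (hc : ∀ j, c j ≠ 0) :
    ∃ (S : Finset R) (a : R → Fin n → ℕ), (∀ P ∈ S, Prime P) ∧
      (∀ P ∈ S, ∀ Q ∈ S, P ≠ Q → ¬ Associated P Q) ∧ ∀ j, Associated (c j) (∏ P ∈ S, P ^ a P j) := by
  classical
  let _ : StrongNormalizationMonoid R := UniqueFactorizationMonoid.strongNormalizationMonoid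
  refine ⟨Finset.univ.biUnion fun j => (normalizedFactors (c j)).toFinset,
    fun P j => (normalizedFactors (c j)).count P, ?_, ?_, ?_⟩
  · intro P hP
    obtain ⟨j, -, hj⟩ := Finset.mem_biUnion.1 hP
    exact prime_of_normalized_factor P (Multiset.mem_toFinset.1 hj)
  · intro P hP Q hQ hPQ hass
    obtain ⟨j, -, hj⟩ := Finset.mem_biUnion.1 hP
    obtain ⟨k, -, hk⟩ := Finset.mem_biUnion.1 hQ
    apply hPQ
    rw [← normalize_normalized_factor P (Multiset.mem_toFinset.1 hj),
      ← normalize_normalized_factor Q (Multiset.mem_toFinset.1 hk)]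
    exact normalize_eq_normalize_iff_associated.2 hass
  · intro j
    have h1 := prod_normalizedFactors (hc j)
    have h2 : (normalizedFactors (c j)).prod =
        ∏ P ∈ Finset.univ.biUnion fun j => (normalizedFactors (c j)).toFinset,
          P ^ (normalizedFactors (c j)).count P := by
      refine Finset.prod_multiset_count_of_subset _ _ ?_
      intro P hP
      exact Finset.mem_biUnion.2 ⟨j, Finset.mem_univ j, hP⟩
    rw [← h2]
    exact h1.symm

end

/-- **P1** **The factorization of a tuple.** -/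
theorem multi_fac {R : Type} [CommRing R] [IsDomain R] [UniqueFactorizationMonoid R] {n : ℕ} {w : Fin n → R}
    (hw : ∀ k, w k ≠ 0) : ∃ (A : Vo n → R) (b g : Fin n → R), (∀ v, Squarefree (A v)) ∧
      (∀ v v', v ≠ v' → IsRelPrime (A v) (A v')) ∧ (∀ k, Squarefree (b k)) ∧ (∀ v k, IsRelPrime (A v) (b k)) ∧
      (∀ k, g k ≠ 0) ∧ ∀ k, Associated (w k) ((∏ v, A v ^ (v.1 k).val) * b k ^ 2 * g k ^ 4) := by
  classical
  obtain ⟨S, a, hS, hna, hcj⟩ := P1_fac w hw
  obtain ⟨ty, hty⟩ : ∃ ty : R → Fin n → Fin 4, ∀ P j, ((ty P j : Fin 4) : ℕ) = a P j % 4 :=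
    ⟨fun P j => ⟨a P j % 4, Nat.mod_lt _ (by norm_num)⟩, fun _ _ => rfl⟩
  obtain ⟨M, hM⟩ : ∃ M : Vo n → R, ∀ v, M v = ∏ P ∈ S.filter (fun P => ty P = v.1), P :=
    ⟨_, fun _ => rfl⟩
  obtain ⟨b, hb⟩ : ∃ b : Fin n → R,
      ∀ j, b j = ∏ P ∈ S.filter (fun P => ¬ (∃ i, Odd (ty P i).val) ∧ ty P j = 2), P := ⟨_, fun _ => rfl⟩
  refine ⟨M, b, fun j => ∏ P ∈ S, P ^ (a P j / 4), ?_, ?_, ?_, ?_, ?_, ?_⟩
  · intro v
    rw [hM]
    exact P1_sqf _ (fun P hP => hS P (Finset.mem_filter.1 hP).1) fun P hP Q hQ =>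
      hna P (Finset.mem_filter.1 hP).1 Q (Finset.mem_filter.1 hQ).1
  · intro v w hvw
    rw [hM, hM]
    refine P1_rpp _ _ (fun P hP => hS P (Finset.mem_filter.1 hP).1) (fun P hP => hS P (Finset.mem_filter.1 hP).1) ?_
    intro P hP Q hQ
    refine hna P (Finset.mem_filter.1 hP).1 Q (Finset.mem_filter.1 hQ).1 ?_
    rintro rfl
    exact hvw (Subtype.ext ((Finset.mem_filter.1 hP).2.symm.trans (Finset.mem_filter.1 hQ).2))
  · intro j
    rw [hb]
    exact P1_sqf _ (fun P hP => hS P (Finset.mem_filter.1 hP).1) fun P hP Q hQ =>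
      hna P (Finset.mem_filter.1 hP).1 Q (Finset.mem_filter.1 hQ).1
  · intro v j
    rw [hb, hM]
    refine P1_rpp _ _ (fun P hP => hS P (Finset.mem_filter.1 hP).1) (fun P hP => hS P (Finset.mem_filter.1 hP).1) ?_
    intro P hP Q hQ
    refine hna P (Finset.mem_filter.1 hP).1 Q (Finset.mem_filter.1 hQ).1 ?_
    rintro rfl
    apply (Finset.mem_filter.1 hQ).2.1
    rw [(Finset.mem_filter.1 hP).2]
    exact v.2
  · intro j
    exact Finset.prod_ne_zero_iff.2 fun P hP => pow_ne_zero _ (hS P hP).ne_zero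
  · intro j
    refine (hcj j).trans (Associated.of_eq ?_)
    -- the odd part
    have h1 : ∏ v : Vo n, M v ^ (v.1 j).val = ∏ P ∈ S.filter (fun P => ∃ i, Odd (ty P i).val), P ^ (ty P j).val := by
      have e1 : ∏ v : Vo n, M v ^ (v.1 j).val = ∏ v : Vo n, ∏ P ∈ (S.filter (fun P => ∃ i, Odd (ty P i).val)).filter
          (fun P => ty P = v.1), P ^ (ty P j).val := by
        refine Finset.prod_congr rfl fun v _ => ?_
        rw [hM, ← Finset.prod_pow, Finset.filter_filter]
        have h2 : S.filter (fun P => ty P = v.1) = S.filter (fun P => (∃ i, Odd (ty P i).val) ∧ ty P = v.1) := by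
          refine Finset.filter_congr fun P _ => ?_
          constructor
          · intro h
            refine ⟨?_, h⟩
            rw [h]
            exact v.2
          · exact fun h => h.2
        rw [h2]
        refine Finset.prod_congr rfl fun P hP => ?_
        rw [(Finset.mem_filter.1 hP).2.2]
      rw [e1, Finset.prod_comm' (s' := fun P => Finset.univ.filter (fun v : Vo n => ty P = v.1))
        (t' := S.filter (fun P => ∃ i, Odd (ty P i).val)) (by
          intro v P
          simp only [Finset.mem_filter, Finset.mem_univ, true_and]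
          tauto)]
      refine Finset.prod_congr rfl fun P hP => ?_
      have e2 : Finset.univ.filter (fun v : Vo n => ty P = v.1) = {⟨ty P, (Finset.mem_filter.1 hP).2⟩} := by
        ext v
        rw [Finset.mem_filter, Finset.mem_singleton]
        constructor
        · exact fun h => Subtype.ext h.2.symm
        · rintro rfl
          exact ⟨Finset.mem_univ _, rfl⟩
      rw [e2, Finset.prod_singleton]
    have h2 : b j ^ 2 = ∏ P ∈ S.filter (fun P => ¬ ∃ i, Odd (ty P i).val), P ^ (ty P j).val := by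
      rw [hb, ← Finset.prod_pow, ← Finset.filter_filter, Finset.prod_filter]
      refine Finset.prod_congr rfl fun P hP => ?_
      have h3 : ¬ Odd (ty P j).val := fun h => (Finset.mem_filter.1 hP).2 ⟨j, h⟩
      have h4 : ∀ t : Fin 4, ¬ Odd t.val → (t = 2 ∨ t = 0) := by decide
      rcases h4 _ h3 with h5 | h5
      · rw [if_pos h5, h5]
        rfl
      · rw [if_neg (by rw [h5]; decide), h5]
        exact (pow_zero P).symm
    rw [h1, h2, Finset.prod_filter_mul_prod_filter_not, ← Finset.prod_pow, ← Finset.prod_mul_distrib]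
    refine Finset.prod_congr rfl fun P _ => ?_
    rw [hty, ← pow_mul, ← pow_add, mul_comm (a P j / 4) 4, Nat.mod_add_div]

end Pool.Agent.Lib.MP_1a91b9_ntQG
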