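import Pool.Agent.Lib.MP_1a91b9_ntQG.P1
import Pool.Agent.Lib.MP_1a91b9_ntQG.K4

/-!
# MP_1a91b9_nt (the abelian extensions of exponent four by the discriminant): the parameters
-/

set_option autoImplicit false

namespace Pool.Agent.Lib.MP_1a91b9_ntQG

open NumberField
open Pool.Agent.Lib.MP_1a91b9_ntDF (NK)

/-- The parameters `A_v`, `b_k` are squarefree and relatively prime. -/
def Adm {K : Type} [Field K] {n : ℕ} (j : Ix K n) (b : Fin n → 𝓞 K) : Prop :=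
  (∀ v, Squarefree (j.2 v : 𝓞 K)) ∧ (∀ v v', v ≠ v' → IsRelPrime (j.2 v : 𝓞 K) (j.2 v' : 𝓞 K)) ∧
    (∀ k, Squarefree (b k)) ∧ ∀ v k, IsRelPrime (j.2 v : 𝓞 K) (b k)

/-- **P2** (easy+). **The parameters of the extensions.** Proof: `ext_gen`; multiply the `w_k` by the fourth powers of
denominators (`nk4_mul`), `multi_fac`, `nk4_mul`. -/
theorem ext_par {K : Type} [Field K] [NumberField K] [IsPrincipalIdealRing (𝓞 K)] {i : K} (hi : i ^ 2 = -1) {n : ℕ}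
    {m : Fin n → ℕ} (hm : ∀ k, m k = 2 ∨ m k = 4) {N : IntermediateField K (AlgebraicClosure K)}
    (hN : N ∈ Ext K (Gm m)) :
    ∃ (j : Ix K n) (b : Fin n → 𝓞 K), Adm j b ∧ N = QQ j b ∧ Module.finrank K (QQ j b) = ∏ k, m k := by
  obtain ⟨hfr, w, hw, hNw⟩ := ext_gen hi hm hN
  -- the denominators
  have h1 : ∀ k, ∃ (a d : 𝓞 K), a ≠ 0 ∧ d ≠ 0 ∧ w k * (d : K) ^ 4 = ((a * d ^ 3 : 𝓞 K) : K) := by
    intro k
    obtain ⟨a, d, hd, had⟩ := IsFractionRing.div_surjective (A := 𝓞 K) (w k)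
    have hd0 : d ≠ 0 := nonZeroDivisors.ne_zero hd
    have hdK : (algebraMap (𝓞 K) K d) ≠ 0 := fun h =>
      hd0 ((map_eq_zero_iff _ (FaithfulSMul.algebraMap_injective (𝓞 K) K)).1 h)
    refine ⟨a, d, ?_, hd0, ?_⟩
    · rintro rfl
      apply hw k
      rw [← had, map_zero, zero_div]
    · change w k * (algebraMap (𝓞 K) K d) ^ 4 = algebraMap (𝓞 K) K (a * d ^ 3)
      rw [map_mul, map_pow, ← had]
      field_simp
  choose a d ha hd had using h1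
  have hdK : ∀ k, (d k : K) ≠ 0 := fun k h =>
    hd k ((map_eq_zero_iff _ (FaithfulSMul.algebraMap_injective (𝓞 K) K)).1 h)
  have h2 : N = NK 4 (fun k => ((a k * d k ^ 3 : 𝓞 K) : K)) := by
    rw [hNw, ← nk4_mul w hdK]
    refine congrArg (NK 4) (funext fun k => had k)
  obtain ⟨A, b, g, hA, hAA, hb, hAb, hg, hass⟩ := multi_fac (w := fun k => a k * d k ^ 3)
    (fun k => mul_ne_zero (ha k) (pow_ne_zero 3 (hd k)))
  choose u hu using hass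
  have hgK : ∀ k, (g k : K) ≠ 0 := fun k h =>
    hg k ((map_eq_zero_iff _ (FaithfulSMul.algebraMap_injective (𝓞 K) K)).1 h)
  obtain ⟨j, hj1, hj2⟩ : ∃ j : Ix K n, (∀ k, j.1 k = (u k)⁻¹) ∧ ∀ v, (j.2 v : 𝓞 K) = A v :=
    ⟨(fun k => (u k)⁻¹, fun v => ⟨A v, (hA v).ne_zero⟩), fun _ => rfl, fun _ => rfl⟩
  have h3 : ∀ k, a k * d k ^ 3 = ee j k * b k ^ 2 * g k ^ 4 := by
    intro k
    have h4 : a k * d k ^ 3 * (u k : 𝓞 K) = (∏ v, A v ^ (v.1 k).val) * b k ^ 2 * g k ^ 4 := hu k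
    have h5 : ee j k = ((u k)⁻¹ : (𝓞 K)ˣ) * ∏ v : Vo n, A v ^ (v.1 k).val := by
      unfold ee
      rw [hj1]
      congr 1
      exact Finset.prod_congr rfl fun v _ => by rw [hj2]
    rw [h5]
    have h6 : ((u k : 𝓞 K)) * (((u k)⁻¹ : (𝓞 K)ˣ) : 𝓞 K) = 1 := Units.mul_inv _
    linear_combination (((u k)⁻¹ : (𝓞 K)ˣ) : 𝓞 K) * h4 - a k * d k ^ 3 * h6
  have h4 : N = QQ j b := by
    unfold QQ
    rw [h2, ← nk4_mul (fun k => ((ee j k : 𝓞 K) : K) * (b k : K) ^ 2) hgK]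
    refine congrArg (NK 4) (funext fun k => ?_)
    change algebraMap (𝓞 K) K (a k * d k ^ 3) = algebraMap (𝓞 K) K (ee j k) * (algebraMap (𝓞 K) K (b k)) ^ 2 *
      (algebraMap (𝓞 K) K (g k)) ^ 4
    rw [h3, map_mul, map_mul, map_pow, map_pow]
  refine ⟨j, b, ⟨fun v => ?_, fun v v' hv => ?_, hb, fun v k => ?_⟩, h4, ?_⟩
  · rw [hj2]
    exact hA v
  · rw [hj2, hj2]
    exact hAA v v' hv
  · rw [hj2]
    exact hAb v k
  · rw [← h4]
    exact hfr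

end Pool.Agent.Lib.MP_1a91b9_ntQG
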