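import Pool.Agent.Lib.MP_1a91b9_ntQG.P2
import Pool.Agent.Lib.MP_1a91b9_ntQD.BLb
import Pool.Agent.Lib.MP_1a91b9_ntDF.C0a

/-!
# MP_1a91b9_nt (the abelian extensions of exponent four by the discriminant): the lower bound for the discriminant
-/

set_option autoImplicit false

namespace Pool.Agent.Lib.MP_1a91b9_ntQG

open NumberField
open Pool.Agent.Lib.MP_1a91b9_ntDF (NK DiscLe c0_rad)
open Pool.Agent.Lib.MP_1a91b9_ntQD (nr disc_lower)

private theorem R1_sqf {R ι : Type} [CommRing R] [IsDomain R] [IsPrincipalIdealRing R] (s : Finset ι) (A : ι → R)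
    (h1 : ∀ v, Squarefree (A v)) (h2 : ∀ v v', v ≠ v' → IsRelPrime (A v) (A v')) : Squarefree (∏ v ∈ s, A v) := by
  classical
  induction s using Finset.induction_on with
  | empty => rw [Finset.prod_empty]; exact squarefree_one
  | insert v s hv ih =>
    rw [Finset.prod_insert hv, squarefree_mul_iff]
    refine ⟨IsRelPrime.prod_right fun v' hv' => h2 v v' ?_, h1 v, ih⟩
    rintro rfl
    exact hv hv'

private theorem R1_nr {K : Type} [Field K] [NumberField K] {x : 𝓞 K} (hx : x ≠ 0) : 1 ≤ nr x := by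
  unfold nr
  have h1 : Algebra.norm ℤ x ≠ 0 := Algebra.norm_ne_zero_iff.2 hx
  have h2 : 1 ≤ |Algebra.norm ℤ x| := Int.one_le_abs h1
  exact_mod_cast h2

private theorem R1_cast {K : Type} [Field K] [NumberField K] (x : 𝓞 K) : ((Algebra.norm ℤ x).natAbs : ℝ) = nr x := by
  unfold nr
  rw [← Nat.cast_natAbs]

/-- `P` exactly divides the product. -/
private theorem R1_split {R ι : Type} [CommRing R] [IsDomain R] [Fintype ι] [DecidableEq ι] {A : ι → R} {P : R}
    (hP : Prime P) (hA : ∀ v, Squarefree (A v)) {v : ι} (hPv : P ∣ A v) (hne : ∀ v', v' ≠ v → ¬ P ∣ A v') (e : ι → ℕ)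
    (u : R) (hu : ¬ P ∣ u) : ∃ c, u * ∏ v', A v' ^ e v' = P ^ e v * c ∧ ¬ P ∣ c := by
  obtain ⟨a, ha⟩ := hPv
  have haP : ¬ P ∣ a := by
    rintro ⟨d, hd⟩
    refine hP.not_isUnit (hA v P ?_)
    rw [ha, hd, ← mul_assoc]
    exact dvd_mul_right _ _
  refine ⟨u * (a ^ e v * ∏ v' ∈ Finset.univ.erase v, A v' ^ e v'), ?_, ?_⟩
  · rw [← Finset.mul_prod_erase Finset.univ (fun v' => A v' ^ e v') (Finset.mem_univ v), ha, mul_pow]
    ring
  · intro h
    rcases hP.dvd_or_dvd h with h | h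
    · exact hu h
    rcases hP.dvd_or_dvd h with h | h
    · exact haP (hP.dvd_of_dvd_pow h)
    · obtain ⟨v', hv', h⟩ := hP.exists_mem_finset_dvd h
      exact hne v' (Finset.ne_of_mem_erase hv') (hP.dvd_of_dvd_pow h)

private theorem R1_ss {K : Type} [Field K] [NumberField K] {n : ℕ} (j : Ix K n) : 1 ≤ ss j := by
  classical
  unfold ss
  induction (Finset.univ : Finset (Vo n)) using Finset.induction_on with
  | empty => rw [Finset.prod_empty]
  | insert v s hv ih =>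
    rw [Finset.prod_insert hv]
    exact one_le_mul_of_one_le_of_one_le (Real.one_le_rpow (R1_nr (j.2 v).2) (by norm_num)) ih

private theorem R1_nrprod {K ι : Type} [Field K] [NumberField K] (s : Finset ι) (f : ι → 𝓞 K) :
    nr (∏ v ∈ s, f v) = ∏ v ∈ s, nr (f v) := by
  classical
  induction s using Finset.induction_on with
  | empty =>
    rw [Finset.prod_empty, Finset.prod_empty]
    unfold nr
    rw [map_one, abs_one, Int.cast_one]
  | insert v s hv ih =>
    rw [Finset.prod_insert hv, Finset.prod_insert hv, ← ih]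
    unfold nr
    rw [map_mul, abs_mul, Int.cast_mul]

private theorem R1_pow {K : Type} [Field K] [NumberField K] {n : ℕ} (j : Ix K n) (g : ℕ) :
    ss j ^ (2 * g) = nr (∏ v, (j.2 v : 𝓞 K)) ^ (3 * g) := by
  rw [R1_nrprod]
  unfold ss
  rw [← Finset.prod_pow, ← Finset.prod_pow]
  refine Finset.prod_congr rfl fun v _ => ?_
  have h0 : 0 ≤ nr (j.2 v : 𝓞 K) := le_trans zero_le_one (R1_nr (j.2 v).2)
  rw [← Real.rpow_natCast, ← Real.rpow_mul h0, ← Real.rpow_natCast (nr (j.2 v : 𝓞 K)) (3 * g)]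
  congr 1
  push_cast
  ring

/-- **R1** (medium). **The lower bound for the discriminant**, with the box: if `|disc N| ≤ X` then the tuple `b` is in
the box `Y / s_j`, `Y = X ^ (2 / |G|)`. Proof: `L` the radical of `∏ b_k` (`c0_rad`; `b_k ∣ L` as `b_k` is squarefree:
the lemma after `c0_rad`), `A = ∏ A_v` (squarefree); `disc_lower` with `4 g = ∏ m_k`: a prime `P ∣ A` divides exactly one
`A_v`, and for `k` with `v_k` odd `e_k b_k² = P ^ (v_k) c`, `P ∤ c`; a prime `P ∣ L` does not divide `A` and divides some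
`b_k`: `e_k b_k² = P² c`. The fourth roots: `nk4_kum` (they are integral). So `nr A ^ (3g) nr L ^ (2g) ≤ |disc| ≤ X`,
`nr L ≤ X ^ (1/(2g)) / nr A ^ (3/2)`, and `s_j = nr A ^ (3/2)`. Here `2 / |G| = 1 / (2g)`. -/
theorem mem_box {K : Type} [Field K] [NumberField K] [IsPrincipalIdealRing (𝓞 K)] {i : K} (hi : i ^ 2 = -1) {n : ℕ}
    {j : Ix K n} {b : Fin n → 𝓞 K} (h : Adm j b) {g : ℕ} (hg : 0 < g)
    (h4 : Module.finrank K (QQ j b) = 4 * g) {X : ℝ} (hX : DiscLe (QQ j b) X) :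
    b ∈ Box K n (X ^ (1 / (2 * g : ℝ)) / ss j) := by
  classical
  obtain ⟨hA, hAA, hb, hAb⟩ := h
  have hb0 : ∀ k, b k ≠ 0 := fun k => (hb k).ne_zero
  have hee : ∀ k, ee j k ≠ 0 := by
    intro k
    unfold ee
    refine mul_ne_zero (j.1 k).ne_zero (Finset.prod_ne_zero_iff.2 fun v _ => pow_ne_zero _ (j.2 v).2)
  obtain ⟨L, hL, hLd⟩ := c0_rad (∏ k, b k) (Finset.prod_ne_zero_iff.2 fun k _ => hb0 k)
  have hbL : ∀ k, b k ∣ L := by
    intro k
    refine Pool.Agent.Lib.MP_1a91b9_ntDF.c0_sq (hb k) fun q hq hqb => ?_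
    rw [hLd q hq]
    exact hqb.trans (Finset.dvd_prod_of_mem _ (Finset.mem_univ k))
  refine ⟨hb, L, hL.ne_zero, ?_, hbL⟩
  -- the product of the `A_v`
  obtain ⟨A, hAdef⟩ : ∃ A : 𝓞 K, A = ∏ v, (j.2 v : 𝓞 K) := ⟨_, rfl⟩
  have hAs : Squarefree A := by
    rw [hAdef]
    exact R1_sqf Finset.univ (fun v => (j.2 v : 𝓞 K)) hA hAA
  have hrel : ∀ {P x y : 𝓞 K}, Prime P → IsRelPrime x y → P ∣ x → ¬ P ∣ y := by
    intro P x y hP h hx hy
    exact hP.not_isUnit (h hx hy)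
  -- the fourth roots
  have hw : ∀ k, ((ee j k : 𝓞 K) : K) * (b k : K) ^ 2 ≠ 0 := by
    intro k
    refine mul_ne_zero ?_ (pow_ne_zero _ ?_)
    · exact fun h0 => hee k (RingOfIntegers.ext h0)
    · exact fun h0 => hb0 k (RingOfIntegers.ext h0)
  obtain ⟨hfd, hnf, y, hy⟩ : FiniteDimensional K (QQ j b) ∧ NumberField (QQ j b) ∧ ∃ y : Fin n → QQ j b,
      Pool.Agent.Lib.MP_1a91b9_ntDF.Kum 4 (fun k => ((ee j k : 𝓞 K) : K) * (b k : K) ^ 2) y := nk4_kum hi hw
  obtain ⟨hnf', hdX⟩ := hX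
  have hroot : ∀ k, ∃ y' : 𝓞 (QQ j b), y' ^ 4 = algebraMap (𝓞 K) (𝓞 (QQ j b)) (ee j k * b k ^ 2) := by
    intro k
    have h1 : y k ^ 4 = algebraMap K (QQ j b) (((ee j k * b k ^ 2 : 𝓞 K)) : K) := by
      exact (hy.pow k).trans (congrArg (algebraMap K (QQ j b)) (by
        have e1 : (((ee j k * b k ^ 2 : 𝓞 K)) : K) = algebraMap (𝓞 K) K (ee j k) * algebraMap (𝓞 K) K (b k) ^ 2 := by
          rw [← map_pow, ← map_mul]
        exact e1.symm))
    have h2 : IsIntegral ℤ (y k) := by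
      refine IsIntegral.of_pow (n := 4) (by norm_num) ?_
      rw [h1]
      exact (ee j k * b k ^ 2 : 𝓞 K).isIntegral_coe.algebraMap
    refine ⟨⟨y k, h2⟩, ?_⟩
    apply RingOfIntegers.ext
    exact h1
  have key := Pool.Agent.Lib.MP_1a91b9_ntQD.disc_lower (K := K) (N := QQ j b) h4 hAs hL ?_ ?_
  · -- the conclusion
    have h5 : nr A ^ (3 * g) * nr L ^ (2 * g) ≤ X := by
      refine le_trans ?_ hdX
      rw [← R1_cast, ← R1_cast, ← Nat.cast_pow, ← Nat.cast_pow, ← Nat.cast_mul, ← Int.cast_abs, Int.abs_eq_natAbs,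
        Int.cast_natCast]
      exact_mod_cast key
    have hLn := R1_nr hL.ne_zero
    have hs : 1 ≤ ss j := R1_ss j
    have hA3 : ss j ^ (2 * g) = nr A ^ (3 * g) := by
      rw [hAdef]
      exact R1_pow j g
    have h6 : (ss j * nr L) ^ (2 * g) ≤ X := by
      rw [mul_pow, hA3]
      exact h5
    rw [le_div_iff₀ (by linarith), mul_comm]
    have h7 : 0 ≤ ss j * nr L := by positivity
    have h8 : ss j * nr L = ((ss j * nr L) ^ (2 * g)) ^ (1 / (2 * g : ℝ)) := by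
      rw [← Real.rpow_natCast, ← Real.rpow_mul h7]
      push_cast
      rw [mul_one_div_cancel (by positivity), Real.rpow_one]
    rw [h8]
    exact Real.rpow_le_rpow (by positivity) h6 (by positivity)
  · intro P hP hPA
    rw [hAdef] at hPA
    obtain ⟨v, -, hv⟩ := hP.exists_mem_finset_dvd hPA
    obtain ⟨k, hk⟩ := v.2
    have hne : ∀ v', v' ≠ v → ¬ P ∣ (j.2 v' : 𝓞 K) := fun v' hv' => hrel hP (hAA v v' (Ne.symm hv')) hv
    obtain ⟨c, hc, hPc⟩ := R1_split hP hA hv hne (fun v' => (v'.1 k).val) ((j.1 k : 𝓞 K) * b k ^ 2) (by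
      intro h
      rcases hP.dvd_or_dvd h with h | h
      · exact hP.not_isUnit (isUnit_of_dvd_unit h (j.1 k).isUnit)
      · exact hrel hP (hAb v k) hv (hP.dvd_of_dvd_pow h))
    obtain ⟨y', hy'⟩ := hroot k
    refine ⟨_, c, y', (v.1 k).val, hy', hk, ?_, hPc⟩
    rw [← hc]
    unfold ee
    ring
  · intro P hP hPL
    rw [hLd P hP] at hPL
    obtain ⟨k, -, hk⟩ := hP.exists_mem_finset_dvd hPL
    have hPv : ∀ v, ¬ P ∣ (j.2 v : 𝓞 K) := fun v hv => hrel hP (hAb v k) hv hk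
    refine ⟨fun h => ?_, ?_⟩
    · rw [hAdef] at h
      obtain ⟨v, -, hv⟩ := hP.exists_mem_finset_dvd h
      exact hPv v hv
    obtain ⟨a, ha⟩ := hk
    have haP : ¬ P ∣ a := by
      rintro ⟨d, hd⟩
      refine hP.not_isUnit (hb k P ?_)
      rw [ha, hd, ← mul_assoc]
      exact dvd_mul_right _ _
    obtain ⟨y', hy'⟩ := hroot k
    refine ⟨_, ee j k * a ^ 2, y', 2, hy', rfl, ?_, ?_⟩
    · rw [ha]; ring
    · intro h
      rcases hP.dvd_or_dvd h with h | h
      · unfold ee at h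
        rcases hP.dvd_or_dvd h with h | h
        · exact hP.not_isUnit (isUnit_of_dvd_unit h (j.1 k).isUnit)
        · obtain ⟨v, -, hv⟩ := hP.exists_mem_finset_dvd h
          exact hPv v (hP.dvd_of_dvd_pow hv)
      · exact haP (hP.dvd_of_dvd_pow h)

/-- **R1b** (easy). `1 ≤ s_j`. -/
theorem one_le_ss {K : Type} [Field K] [NumberField K] {n : ℕ} (j : Ix K n) : 1 ≤ ss j := by
  exact R1_ss j

end Pool.Agent.Lib.MP_1a91b9_ntQG
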