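import Pool.Agent.Lib.MP_1a91b9_ntQG.K5
import Pool.Agent.Lib.MP_1a91b9_ntQD.BUp
import Pool.Agent.Lib.MP_1a91b9_ntDF.CN

/-!
# MP_1a91b9_nt (the abelian extensions of exponent four by the discriminant): the upper bound for the discriminant
-/

set_option autoImplicit false

namespace Pool.Agent.Lib.MP_1a91b9_ntQG

open NumberField
open Pool.Agent.Lib.MP_1a91b9_ntDF (NK Kum Kx kum_finrank nk_kum)
open Pool.Agent.Lib.MP_1a91b9_ntQD (nr disc_upper)

/-- The degree of the special family. -/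
private theorem R3_prod {n : ℕ} {m : Fin n → ℕ} (hm : ∀ k, m k = 2 ∨ m k = 4) :
    ∏ k, m k = 2 ^ (Finset.univ.filter fun k => m k = 4).card * 2 ^ n := by
  have h1 : ∀ k, m k = (if m k = 4 then 2 else 1) * 2 := by
    intro k
    rcases hm k with h | h <;> rw [h] <;> norm_num
  rw [Finset.prod_congr rfl fun k _ => h1 k, Finset.prod_mul_distrib, Finset.prod_const, Finset.card_univ,
    Fintype.card_fin, Finset.prod_ite, Finset.prod_const, Finset.prod_const_one, mul_one]

/-- The exponent. -/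
private theorem R3_num {g q n : ℕ} (h : 4 * g = q * 2 ^ n) (hn : n ≠ 0) : 2 ^ (n - 1) * q = 2 * g := by
  obtain ⟨t, rfl⟩ := Nat.exists_eq_succ_of_ne_zero hn
  rw [Nat.succ_eq_add_one, pow_succ] at h
  have h1 : t.succ - 1 = t := rfl
  rw [h1]
  have h2 : 2 * (2 ^ t * q) = 2 * (2 * g) := by
    rw [← mul_assoc 2 2 g]
    have h3 : 2 * 2 * g = 4 * g := by norm_num
    rw [h3, h]
    ring
  exact Nat.eq_of_mul_eq_mul_left (by norm_num) h2

/-- Two elements with the same square. -/
private theorem R3_sq {F : Type} [Field F] {x y : F} (h : x ^ 2 = y ^ 2) : x = y ∨ x = -y :=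
  sq_eq_sq_iff_eq_or_eq_neg.1 h

/-- The degree of the field of the square roots. -/
private theorem R3_le {K M : Type} [Field K] [Field M] [Algebra K M] {n : ℕ} {s : Fin n → M}
    (T : Finset (Fin n)) (hs : ∀ k, ∃ a : K, s k ^ 2 = algebraMap K M a) (hT : ∀ k, k ∉ T → s k ^ 2 = 1)
    (htop : IntermediateField.adjoin K (Set.range s) = ⊤) : Module.finrank K M ≤ 2 ^ T.card := by
  obtain ⟨-, h2⟩ := kum_finrank Nat.prime_two hs T
  have h3 : IntermediateField.adjoin K (s '' (T : Set (Fin n))) = ⊤ := by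
    rw [eq_top_iff, ← htop, IntermediateField.adjoin_le_iff]
    rintro _ ⟨k, rfl⟩
    by_cases hk : k ∈ T
    · exact IntermediateField.subset_adjoin K _ ⟨k, hk, rfl⟩
    · have h4 : s k ^ 2 = (1 : M) ^ 2 := by rw [hT k hk, one_pow]
      rcases R3_sq h4 with h | h <;> rw [h]
      · exact one_mem _
      · exact neg_mem (one_mem _)
  rw [h3, IntermediateField.finrank_top'] at h2
  exact h2

/-- The field generated by the fourth roots over the field of the square roots. -/
private theorem R3_core {K M N : Type} [Field K] [Field M] [Field N] [Algebra K M] [Algebra K N] [Algebra M N]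
    [IsScalarTower K M N] [FiniteDimensional K M] {i : K} (hi : i ^ 2 = -1) {n : ℕ} {Y : Fin n → N}
    (htop : IntermediateField.adjoin K (Set.range Y) = ⊤) {e : Fin n → M}
    (hY : ∀ k, Y k ^ 4 = algebraMap M N (e k) ^ 2) {a : ℕ} (hM : Module.finrank K M ≤ 2 ^ a)
    (hN : Module.finrank K N = 2 ^ a * 2 ^ n) :
    Module.finrank K M = 2 ^ a ∧ ∃ x : Fin n → N, Kx 2 e x := by
  have h1 : ∀ k, ∃ x : N, x ^ 2 = algebraMap M N (e k) ∧ ∃ c : K, Y k = algebraMap K N c * x := by
    intro k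
    have h2 : (Y k ^ 2) ^ 2 = algebraMap M N (e k) ^ 2 := by rw [← hY k, ← pow_mul]
    rcases R3_sq h2 with h | h
    · exact ⟨Y k, h, 1, by rw [map_one, one_mul]⟩
    · refine ⟨algebraMap K N i * Y k, ?_, -i, ?_⟩
      · rw [mul_pow, ← map_pow, hi, h, map_neg, map_one]
        ring
      · have h3 : algebraMap K N i ^ 2 = -1 := by rw [← map_pow, hi, map_neg, map_one]
        rw [map_neg]
        linear_combination (Y k) * h3
  choose x hx c hc using h1
  have h2 : IntermediateField.adjoin M (Set.range x) = ⊤ := by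
    rw [eq_top_iff]
    have h3 : IntermediateField.adjoin K (Set.range Y) ≤
        (IntermediateField.adjoin M (Set.range x)).restrictScalars K := by
      rw [IntermediateField.adjoin_le_iff]
      rintro _ ⟨k, rfl⟩
      rw [hc k]
      refine mul_mem (IntermediateField.algebraMap_mem _ _) ?_
      exact IntermediateField.subset_adjoin M _ ⟨k, rfl⟩
    rw [htop] at h3
    intro z _
    exact h3 (IntermediateField.mem_top (F := K) (x := z))
  obtain ⟨h3, h4⟩ := kum_finrank (K := M) Nat.prime_two (x := x) (fun k => ⟨e k, hx k⟩) Finset.univ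
  rw [Finset.coe_univ, Set.image_univ, h2, IntermediateField.finrank_top', Finset.card_univ, Fintype.card_fin] at h4
  have h5 := Module.finrank_mul_finrank K M N
  rw [hN] at h5
  have h6 : 0 < 2 ^ a := pow_pos (by norm_num) a
  have h7 : 0 < 2 ^ n := pow_pos (by norm_num) n
  have h8 : Module.finrank K M = 2 ^ a := by
    refine le_antisymm hM ?_
    have h9 : 2 ^ a * 2 ^ n ≤ Module.finrank K M * 2 ^ n := by
      rw [← h5]
      exact Nat.mul_le_mul_left _ h4
    exact Nat.le_of_mul_le_mul_right h9 h7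
  refine ⟨h8, x, ⟨hx, h2, ?_⟩⟩
  rw [h8] at h5
  exact Nat.eq_of_mul_eq_mul_left h6 h5

/-- **R3** (medium+). **The upper bound for the discriminant of the special family.** Proof:
`M = NK 2 (fun k => if m k = 4 then π k else 1)` in the algebraic closure (`nk_kum` with `p = 2`, `ζ = -1`): a number field
with `[M : K] ≤ 2^a`, `a` the number of the `k` with `m k = 4` (`kum_finrank` in `ntDF/KU.lean` for the set of these
`k`; the other generators are `± 1`); `δ_k` in `𝓞 M` a square root of `π_k` for `m_k = 4` and `δ_k = π_k` otherwise;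
`N = NK 4 (sp m π b)` contains `M` (`√π_k = ± y_k² / b_k`), it is an algebra over `M` by the inclusion; `N = M(x)` with
`x_k² = δ_k b_k` (`x_k = y_k` up to the sign of `δ_k`: if `y_k² = - δ_k b_k` take `i y_k`; for `m_k = 2`
`y_k⁴ = (π_k b_k)²`, the same). `[N : K] = ∏ m_k = 4^a 2^(n-a)` (hypothesis), so `[N : M] ≥ 2^n`, and `≤ 2^n` as it is generated by
`n` square roots (`kum_finrank`): so `Kx 2 (fun k => δ_k b_k) x`, and also `[M : K] = 2^a`. `disc_upper` (the constant
depends on `M` and `δ` only) with the exponent `2^(n-1) [M : K] = 2^(n-1+a) = (∏ m_k) / 2 = 2 g`. -/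
theorem disc_sp {K : Type} [Field K] [NumberField K] [IsPrincipalIdealRing (𝓞 K)] {i : K} (hi : i ^ 2 = -1) {n : ℕ}
    {m : Fin n → ℕ} (hm : ∀ k, m k = 2 ∨ m k = 4) {g : ℕ} (hg : ∏ k, m k = 4 * g) (hg0 : 0 < g) (π : Fin n → 𝓞 K)
    (hπ : ∀ k, π k ≠ 0) :
    ∃ C : ℝ, 0 < C ∧ ∀ b : Fin n → 𝓞 K, (∀ k, Squarefree (b k)) → ∀ L : 𝓞 K, Squarefree L →
      (∀ P, Prime P → (P ∣ L ↔ ∃ k, P ∣ b k)) → Module.finrank K (NK 4 (sp m π b)) = ∏ k, m k →
      ∀ _ : NumberField (NK 4 (sp m π b)), |(discr (NK 4 (sp m π b)) : ℝ)| ≤ C * nr L ^ (2 * g) := by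
  classical
  have hπK : ∀ k, ((π k : 𝓞 K) : K) ≠ 0 := fun k h0 => hπ k (RingOfIntegers.ext h0)
  obtain ⟨d, hd⟩ : ∃ d : Fin n → K, ∀ k, d k = if m k = 4 then (π k : K) else 1 := ⟨_, fun _ => rfl⟩
  have hd0 : ∀ k, d k ≠ 0 := by
    intro k
    rw [hd]
    split_ifs
    · exact hπK k
    · exact one_ne_zero
  have h2 : Fact (Nat.Prime 2) := ⟨Nat.prime_two⟩
  have hζ : IsPrimitiveRoot (-1 : K) 2 := IsPrimitiveRoot.neg_one 0 (by norm_num)
  obtain ⟨hfd, hnf, -, s, hs⟩ := nk_kum hζ hd0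
  have hMle : Module.finrank K (NK 2 d) ≤ 2 ^ (Finset.univ.filter fun k => m k = 4).card := by
    refine R3_le _ (fun k => ⟨d k, hs.pow k⟩) ?_ hs.top
    intro k hk
    have hk' : m k ≠ 4 := fun h => hk (Finset.mem_filter.2 ⟨Finset.mem_univ k, h⟩)
    rw [hs.pow k, hd, if_neg hk', map_one]
  -- the elements `δ_k`
  have hδ : ∀ k, ∃ δ : 𝓞 (NK 2 d), (δ : NK 2 d) ^ 2 =
      algebraMap K (NK 2 d) (if m k = 4 then (π k : K) else (π k : K) ^ 2) := by
    intro k
    by_cases hk : m k = 4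
    · have h3 : s k ^ 2 = algebraMap K (NK 2 d) (π k : K) := by rw [hs.pow k, hd, if_pos hk]
      have h4 : IsIntegral ℤ (s k) := by
        refine IsIntegral.of_pow (n := 2) (by norm_num) ?_
        rw [h3]
        exact (RingOfIntegers.isIntegral_coe (π k)).algebraMap
      exact ⟨⟨s k, h4⟩, by rw [if_pos hk]; exact h3⟩
    · have h4 : IsIntegral ℤ (algebraMap K (NK 2 d) (π k : K)) := (RingOfIntegers.isIntegral_coe (π k)).algebraMap
      exact ⟨⟨_, h4⟩, by rw [if_neg hk, map_pow]; rfl⟩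
  choose δ hδ using hδ
  obtain ⟨C, hC, hCb⟩ := disc_upper K (NK 2 d) n δ
  refine ⟨C, hC, ?_⟩
  intro b hb L hL hP hdeg hN
  have hbK : ∀ k, ((b k : 𝓞 K) : K) ≠ 0 := fun k h0 => (hb k).ne_zero (RingOfIntegers.ext h0)
  have hsp : ∀ k, sp m π b k = (if m k = 4 then (π k : K) else (π k : K) ^ 2) * (b k : K) ^ 2 := by
    intro k
    rw [sp]
    split_ifs <;> rfl
  have hsp0 : ∀ k, sp m π b k ≠ 0 := by
    intro k
    rw [hsp]
    refine mul_ne_zero ?_ (pow_ne_zero _ (hbK k))
    split_ifs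
    · exact hπK k
    · exact pow_ne_zero _ (hπK k)
  -- the inclusion
  have hle : NK 2 d ≤ NK 4 (sp m π b) := by
    rw [NK, IntermediateField.adjoin_le_iff]
    rintro x ⟨k, hx⟩
    by_cases hk : m k = 4
    · obtain ⟨y, hy⟩ := IsAlgClosed.exists_pow_nat_eq (algebraMap K (AlgebraicClosure K) (sp m π b k))
        (show 0 < 4 by norm_num)
      have hyN : y ∈ NK 4 (sp m π b) := IntermediateField.subset_adjoin K _ ⟨k, hy⟩
      have hb0 : algebraMap K (AlgebraicClosure K) (b k : K) ≠ 0 := by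
        rw [Ne, map_eq_zero]
        exact hbK k
      have h3 : x ^ 2 = (y ^ 2 / algebraMap K (AlgebraicClosure K) (b k : K)) ^ 2 := by
        rw [hx, hd, if_pos hk, div_pow, ← pow_mul, hy, hsp, if_pos hk, map_mul, map_pow, mul_div_assoc,
          div_self (pow_ne_zero _ hb0), mul_one]
      have h4 : y ^ 2 / algebraMap K (AlgebraicClosure K) (b k : K) ∈ NK 4 (sp m π b) :=
        div_mem (pow_mem hyN 2) (IntermediateField.algebraMap_mem _ _)
      rcases R3_sq h3 with h | h
      · rw [h]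
        exact h4
      · rw [h]
        exact neg_mem h4
    · have h3 : x ^ 2 = (1 : AlgebraicClosure K) ^ 2 := by rw [hx, hd, if_neg hk, map_one, one_pow]
      rcases R3_sq h3 with h | h
      · rw [h]
        exact one_mem _
      · rw [h]
        exact neg_mem (one_mem _)
  let f : NK 2 d →ₐ[K] NK 4 (sp m π b) := IntermediateField.inclusion hle
  let A : Algebra (NK 2 d) (NK 4 (sp m π b)) := f.toRingHom.toAlgebra
  have hst : IsScalarTower K (NK 2 d) (NK 4 (sp m π b)) := IsScalarTower.of_algebraMap_eq fun z => (f.commutes z).symm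
  obtain ⟨-, -, Y, hY⟩ := nk4_kum hi hsp0
  have hY4 : ∀ k, Y k ^ 4 = algebraMap (NK 2 d) (NK 4 (sp m π b))
      ((δ k : NK 2 d) * algebraMap K (NK 2 d) (b k : K)) ^ 2 := by
    intro k
    rw [hY.pow k, hsp, ← map_pow (algebraMap (NK 2 d) (NK 4 (sp m π b))), mul_pow, hδ,
      ← map_pow (algebraMap K (NK 2 d)), ← map_mul, ← IsScalarTower.algebraMap_apply]
  obtain ⟨h3, x, hx⟩ := R3_core hi hY.top hY4 hMle (by rw [hdeg]; exact R3_prod hm)
  have h4 := hCb b hb L hL hP (NK 4 (sp m π b)) x hx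
  have h5 : 2 ^ (n - 1) * Module.finrank K (NK 2 d) = 2 * g := by
    have h6 := R3_prod hm
    rw [hg, ← h3] at h6
    have h7 : n ≠ 0 := by
      intro h0
      subst h0
      rw [Fin.prod_univ_zero] at hg
      omega
    exact R3_num h6 h7
  rw [h5] at h4
  rw [nr, Int.cast_abs]
  exact h4

end Pool.Agent.Lib.MP_1a91b9_ntQG
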