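import Pool.Agent.Lib.MP_1a91b9_ntQG.D0

/-!
# MP_1a91b9_nt (the abelian extensions of exponent four by the discriminant): the groups
-/

set_option autoImplicit false

namespace Pool.Agent.Lib.MP_1a91b9_ntQG

open NumberField

/-- **X2** (easy+). **The finite abelian groups of exponent dividing four.** Proof:
`CommGroup.equiv_prod_multiplicative_zmod_of_finite`: `G ≃* ∏ ℤ/n_i` with `1 < n_i`; the element with the coordinate
`1` at `i` has order `n_i`, so `n_i ∣ 4` and `n_i` is `2` or `4`; replace the index type by `Fin n` (`Fintype.equivFin`,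
`MulEquiv.piCongrLeft` or a direct construction). -/
theorem grp (G : Type) [CommGroup G] [Finite G] (h : ∀ x : G, x ^ 4 = 1) :
    ∃ (n : ℕ) (m : Fin n → ℕ), (∀ k, m k = 2 ∨ m k = 4) ∧ Nonempty (G ≃* Gm m) := by
  classical
  obtain ⟨ι, hι, m, hm, ⟨e⟩⟩ := CommGroup.equiv_prod_multiplicative_zmod_of_finite G
  have h1 : ∀ j, m j = 2 ∨ m j = 4 := by
    intro j
    have h2 : (Multiplicative.ofAdd (1 : ZMod (m j))) ^ 4 = 1 := by
      have h3 := h (e.symm (Pi.mulSingle j (Multiplicative.ofAdd (1 : ZMod (m j)))))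
      rw [← map_pow, ← Pi.mulSingle_pow, ← map_one e.symm] at h3
      have h4 := congrFun (e.symm.injective h3) j
      rwa [Pi.mulSingle_eq_same] at h4
    have h3 : ((4 : ℕ) : ZMod (m j)) = 0 := by
      have h4 : Multiplicative.ofAdd ((4 : ℕ) • (1 : ZMod (m j))) = Multiplicative.ofAdd 0 := by
        rw [ofAdd_nsmul, h2]
        rfl
      have h5 := Multiplicative.ofAdd.injective h4
      rwa [nsmul_one] at h5
    rw [ZMod.natCast_eq_zero_iff] at h3
    have h4 := hm j
    have h5 : m j ≤ 4 := Nat.le_of_dvd (by norm_num) h3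
    interval_cases h6 : m j
    · exact Or.inl rfl
    · omega
    · exact Or.inr rfl
  let f : ι ≃ Fin (Fintype.card ι) := Fintype.equivFin ι
  refine ⟨Fintype.card ι, fun j => m (f.symm j), fun j => h1 _, ⟨e.trans ?_⟩⟩
  exact { Equiv.piCongrLeft' (fun j => Multiplicative (ZMod (m j))) f with map_mul' := fun _ _ => rfl }

/-- **X2b** (easy). The product of the `m_k` is divisible by four if one of them is four. -/
theorem grp_four {n : ℕ} {m : Fin n → ℕ} (hm : ∀ k, m k = 2 ∨ m k = 4) (h : ∃ k, m k = 4) :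
    ∃ g : ℕ, 0 < g ∧ ∏ k, m k = 4 * g := by
  obtain ⟨k, hk⟩ := h
  obtain ⟨g, hg⟩ : (4 : ℕ) ∣ ∏ k, m k := by
    rw [← hk]
    exact Finset.dvd_prod_of_mem m (Finset.mem_univ k)
  refine ⟨g, Nat.pos_of_ne_zero fun h0 => ?_, hg⟩
  rw [h0, mul_zero, Finset.prod_eq_zero_iff] at hg
  obtain ⟨j, -, hj⟩ := hg
  rcases hm j with h1 | h1 <;> omega

end Pool.Agent.Lib.MP_1a91b9_ntQG
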